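import Mathlib

/-!
# Smooth actions on normed spaces: partition functions, equivariant sections, properness
-/

set_option autoImplicit false

namespace Pool.Agent.AffRig

open Filter Topology Set
open scoped ContDiff

noncomputable section

/-- A smooth action of a group on a normed space. -/
structure SAct (G X : Type*) [Group G] [NormedAddCommGroup X] [NormedSpace ℝ X] where
  /-- the action -/
  f : G → X → X
  one : ∀ x, f 1 x = x
  mul : ∀ g h x, f (g * h) x = f g (f h x)
  sm : ∀ g, ContDiff ℝ ∞ (f g)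

variable {G X Y : Type*} [Group G] [NormedAddCommGroup X] [NormedSpace ℝ X]
  [NormedAddCommGroup Y] [NormedSpace ℝ Y]

/-- Properly discontinuous. -/
def PD (A : SAct G X) : Prop := ∀ K : Set X, IsCompact K → {g | (A.f g '' K ∩ K).Nonempty}.Finite

/-- Cocompact. -/
def CC (A : SAct G X) : Prop := ∃ K : Set X, IsCompact K ∧ ∀ x, ∃ g, A.f g x ∈ K

namespace SAct

variable (A : SAct G X)

lemma cont (g : G) : Continuous (A.f g) := (A.sm g).continuous

lemma inv_f (g : G) (x : X) : A.f g⁻¹ (A.f g x) = x := by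
  rw [← A.mul, inv_mul_cancel, A.one]

lemma f_inv (g : G) (x : X) : A.f g (A.f g⁻¹ x) = x := by
  rw [← A.mul, mul_inv_cancel, A.one]

end SAct

variable {A : SAct G X}

lemma PD.two (hA : PD A) {K L : Set X} (hK : IsCompact K) (hL : IsCompact L) :
    {g | (A.f g '' K ∩ L).Nonempty}.Finite := by
  refine (hA (K ∪ L) (hK.union hL)).subset ?_
  rintro g ⟨y, ⟨x, hx, rfl⟩, hy⟩
  exact ⟨A.f g x, ⟨x, Or.inl hx, rfl⟩, Or.inr hy⟩

/-- Properness of equivariant maps. -/
theorem proper_of_equivariant {A : SAct G X} {A' : SAct G Y} (hA : CC A) (hA' : PD A')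
    {f : X → Y} (hf : Continuous f) (he : ∀ g x, f (A.f g x) = A'.f g (f x))
    {L : Set Y} (hL : IsCompact L) : IsCompact (f ⁻¹' L) := by
  obtain ⟨K, hK, hKc⟩ := hA
  have hfin := hA'.two (hK.image hf) hL
  have hcl : IsClosed (f ⁻¹' L) := hL.isClosed.preimage hf
  have hcomp : IsCompact (⋃ g ∈ {g | (A'.f g '' (f '' K) ∩ L).Nonempty}, A.f g '' K) :=
    hfin.isCompact_biUnion (fun g _ => hK.image (A.cont g))
  refine hcomp.of_isClosed_subset hcl ?_
  intro x hx
  obtain ⟨g, hg⟩ := hKc x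
  have hx2 : x = A.f g⁻¹ (A.f g x) := (A.inv_f g x).symm
  refine mem_iUnion₂.mpr ⟨g⁻¹, ⟨f x, ⟨f (A.f g x), ⟨_, hg, rfl⟩, ?_⟩, hx⟩, ⟨_, hg, A.inv_f g x⟩⟩
  rw [← he, A.inv_f]

/-- Partition function: a smooth compactly supported weight with unit orbit sums. -/
structure Part (A : SAct G X) where
  /-- the weight -/
  w : X → ℝ
  sm : ContDiff ℝ ∞ w
  nn : ∀ x, 0 ≤ w x
  loc : LocallyFinite fun g => Function.support (fun x => w (A.f g x))
  sum : ∀ x, ∑ᶠ g, w (A.f g x) = 1

theorem contDiff_finsum_loc {ι : Type*} {u : ι → X → Y} (hu : ∀ i, ContDiff ℝ ∞ (u i))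
    (hfin : LocallyFinite fun i => Function.support (u i)) :
    ContDiff ℝ ∞ (fun x => ∑ᶠ i, u i x) := by
  rw [contDiff_iff_contDiffAt]
  intro x
  obtain ⟨I, hI⟩ := finsum_eventually_eq_sum hfin x
  exact (ContDiffAt.sum (fun i _ => (hu i).contDiffAt)).congr_of_eventuallyEq hI

theorem locFin_of_compact (hA : PD A) [ProperSpace X] {ψ : X → ℝ} (hc : HasCompactSupport ψ) :
    LocallyFinite fun g => Function.support (fun x => ψ (A.f g x)) := by
  intro x
  refine ⟨Metric.closedBall x 1, Metric.closedBall_mem_nhds _ one_pos, ?_⟩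
  refine (hA.two (isCompact_closedBall x 1) hc.isCompact).subset ?_
  rintro g ⟨y, hy1, hy2⟩
  exact ⟨A.f g y, ⟨y, hy2, rfl⟩, subset_tsupport _ hy1⟩

theorem exists_part [FiniteDimensional ℝ X] (hA : PD A) (hC : CC A) : Nonempty (Part A) := by
  obtain ⟨K, hK, hKc⟩ := hC
  have : ProperSpace X := FiniteDimensional.proper ℝ X
  obtain ⟨R, hR⟩ := hK.isBounded.subset_closedBall (0 : X)
  let b : ContDiffBump (0 : X) := ⟨max R 1, max R 1 + 1, by positivity, by linarith⟩
  have hb1 : ∀ x ∈ K, b x = 1 := fun x hx =>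
    b.one_of_mem_closedBall (Metric.closedBall_subset_closedBall (le_max_left _ _) (hR hx))
  have hloc := locFin_of_compact (A := A) hA (ψ := b) b.hasCompactSupport
  let S : X → ℝ := fun x => ∑ᶠ g, b (A.f g x)
  have hS : ContDiff ℝ ∞ S :=
    contDiff_finsum_loc (fun g => b.contDiff.comp (A.sm g)) hloc
  have hfs : ∀ x, (Function.support fun g => b (A.f g x)).Finite := fun x => by
    refine (hloc.point_finite x).subset ?_
    intro g hg
    exact hg
  have hSpos : ∀ x, 0 < S x := by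
    intro x
    obtain ⟨g, hg⟩ := hKc x
    refine finsum_pos (fun g => b.nonneg) ⟨g, ?_⟩ (hfs x)
    rw [hb1 _ hg]
    exact one_pos
  have hSinv : ∀ h x, S (A.f h x) = S x := by
    intro h x
    change ∑ᶠ g, b (A.f g (A.f h x)) = ∑ᶠ g, b (A.f g x)
    have : (fun g => b (A.f g (A.f h x))) = fun g => (fun k => b (A.f k x)) (Equiv.mulRight h g) := by
      funext g
      change b (A.f g (A.f h x)) = b (A.f (g * h) x)
      rw [A.mul]
    rw [this]
    exact finsum_comp_equiv (Equiv.mulRight h) (f := fun k => b (A.f k x))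
  refine ⟨⟨fun x => b x / S x, ?_, ?_, ?_, ?_⟩⟩
  · exact b.contDiff.div hS (fun x => (hSpos x).ne')
  · intro x
    exact div_nonneg b.nonneg (hSpos x).le
  · refine hloc.subset ?_
    intro g x hx hx2
    apply hx
    change b (A.f g x) / S (A.f g x) = 0
    have : b (A.f g x) = 0 := hx2
    rw [this, zero_div]
  · intro x
    have h1 : (fun g => b (A.f g x) / S (A.f g x)) = fun g => b (A.f g x) * (S x)⁻¹ := by
      funext g
      rw [hSinv, div_eq_mul_inv]
    have h2 : ∑ᶠ g, b (A.f g x) / S (A.f g x) = (∑ᶠ g, b (A.f g x)) * (S x)⁻¹ := by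
      rw [h1, finsum_mul]
    rw [h2]
    exact mul_inv_cancel₀ (hSpos x).ne'

/-- An affine real cocycle over an action. -/
structure Coc (A : SAct G X) where
  /-- linear part -/
  c : G → ℝ
  /-- translation part -/
  d : G → X → ℝ
  c1 : c 1 = 1
  cmul : ∀ g h, c (g * h) = c g * c h
  d1 : ∀ x, d 1 x = 0
  dmul : ∀ g h x, d (g * h) x = c g * d h x + d g (A.f h x)
  dsm : ∀ g, ContDiff ℝ ∞ (d g)

/-- The averaged equivariant section. -/
def sec (P : Part A) (C : Coc A) (y : ℝ) (x : X) : ℝ :=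
  ∑ᶠ g, P.w (A.f g x) * (C.c g⁻¹ * y + C.d g⁻¹ (A.f g x))

theorem sec_smooth (P : Part A) (C : Coc A) (y : ℝ) : ContDiff ℝ ∞ (sec P C y) := by
  refine contDiff_finsum_loc (fun g => ?_) ?_
  · exact (P.sm.comp (A.sm g)).mul (contDiff_const.add ((C.dsm g⁻¹).comp (A.sm g)))
  · refine P.loc.subset ?_
    intro g x hx hx2
    apply hx
    have : P.w (A.f g x) = 0 := hx2
    change P.w (A.f g x) * _ = 0
    rw [this, zero_mul]

theorem sec_equi (P : Part A) (C : Coc A) (y : ℝ) (h : G) (x : X) :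
    sec P C y (A.f h x) = C.c h * sec P C y x + C.d h x := by
  have hfs : (Function.support fun g => P.w (A.f g x)).Finite := by
    refine (P.loc.point_finite x).subset ?_
    intro g hg
    exact hg
  have e1 : sec P C y (A.f h x) =
      ∑ᶠ k, P.w (A.f k x) * (C.c h * (C.c k⁻¹ * y + C.d k⁻¹ (A.f k x)) + C.d h x) := by
    unfold sec
    rw [← finsum_comp_equiv (Equiv.mulRight h)
      (f := fun k => P.w (A.f k x) * (C.c h * (C.c k⁻¹ * y + C.d k⁻¹ (A.f k x)) + C.d h x))]
    apply finsum_congr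
    intro g
    change P.w (A.f g (A.f h x)) * (C.c g⁻¹ * y + C.d g⁻¹ (A.f g (A.f h x))) =
      P.w (A.f (g * h) x) *
        (C.c h * (C.c (g * h)⁻¹ * y + C.d (g * h)⁻¹ (A.f (g * h) x)) + C.d h x)
    rw [A.mul g h x]
    have e2 : g⁻¹ = h * (g * h)⁻¹ := by group
    have e3 : C.c g⁻¹ = C.c h * C.c (g * h)⁻¹ := by rw [← C.cmul, ← e2]
    have e4 : C.d g⁻¹ (A.f g (A.f h x)) =
        C.c h * C.d (g * h)⁻¹ (A.f g (A.f h x)) + C.d h x := by
      conv_lhs => rw [e2]
      rw [C.dmul]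
      congr 2
      rw [← A.mul g h x, A.inv_f]
    rw [e3, e4]
    ring
  rw [e1]
  have e5 : (fun k => P.w (A.f k x) * (C.c h * (C.c k⁻¹ * y + C.d k⁻¹ (A.f k x)) + C.d h x)) =
      fun k => C.c h * (P.w (A.f k x) * (C.c k⁻¹ * y + C.d k⁻¹ (A.f k x))) +
        C.d h x * P.w (A.f k x) := by
    funext k; ring
  rw [e5]
  have hf1 : (Function.support fun k => C.c h * (P.w (A.f k x) *
      (C.c k⁻¹ * y + C.d k⁻¹ (A.f k x)))).Finite := hfs.subset (by
    intro k hk hk2
    apply hk
    have : P.w (A.f k x) = 0 := hk2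
    change C.c h * (P.w (A.f k x) * _) = 0
    rw [this]; ring)
  have hf2 : (Function.support fun k => C.d h x * P.w (A.f k x)).Finite := hfs.subset (by
    intro k hk hk2
    apply hk
    have : P.w (A.f k x) = 0 := hk2
    change C.d h x * P.w (A.f k x) = 0
    rw [this]; ring)
  rw [finsum_add_distrib hf1 hf2, ← mul_finsum, ← mul_finsum, P.sum, mul_one]
  rfl

theorem sec_pos (P : Part A) (C : Coc A) (hc : ∀ g, 0 < C.c g) (hd : ∀ g x, C.d g x = 0)
    {y : ℝ} (hy : 0 < y) (x : X) : 0 < sec P C y x := by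
  have hfs : (Function.support fun g => P.w (A.f g x)).Finite := by
    refine (P.loc.point_finite x).subset ?_
    intro g hg
    exact hg
  unfold sec
  have hne : ∃ g, P.w (A.f g x) ≠ 0 := by
    by_contra hcon
    push Not at hcon
    have h1 := P.sum x
    rw [finsum_congr hcon, finsum_zero] at h1
    exact zero_ne_one h1
  obtain ⟨g, hg⟩ := hne
  have hp : ∀ k, 0 < C.c k⁻¹ * y + C.d k⁻¹ (A.f k x) := fun k => by
    rw [hd, add_zero]; exact mul_pos (hc _) hy
  refine finsum_pos (fun k => mul_nonneg (P.nn _) (hp k).le) ⟨g, ?_⟩ ?_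
  · exact mul_pos (lt_of_le_of_ne (P.nn _) (Ne.symm hg)) (hp g)
  · refine hfs.subset ?_
    intro k hk hk2
    apply hk
    have : P.w (A.f k x) = 0 := hk2
    change P.w (A.f k x) * _ = 0
    rw [this, zero_mul]

end

end Pool.Agent.AffRig
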