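import Pool.Agent.Lib.MP_27f33f_gt.MainA

/-!
# Averaging an intertwiner of a finite index subgroup over the cosets
-/

set_option autoImplicit false

namespace Pool.Agent.AffRig

open Filter Topology Set
open scoped ContDiff

noncomputable section

/-- An affine equivalence preserves averages. -/
lemma affine_avg {n : ℕ} {ι : Type*} [Fintype ι] [Nonempty ι] (A : Eu n ≃ᵃ[ℝ] Eu n)
    (y : ι → Eu n) :
    A ((Fintype.card ι : ℝ)⁻¹ • ∑ c, y c) = (Fintype.card ι : ℝ)⁻¹ • ∑ c, A (y c) := by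
  have hA : ∀ x, A x = A.linear x + A 0 := fun x => by
    have := congrFun (A : Eu n →ᵃ[ℝ] Eu n).decomp x
    exact this
  have hN : (Fintype.card ι : ℝ) ≠ 0 := by exact_mod_cast Fintype.card_ne_zero
  rw [hA, map_smul, map_sum]
  have h1 : ∑ c, A (y c) = ∑ c, A.linear (y c) + (Fintype.card ι : ℝ) • A 0 := by
    rw [Finset.sum_congr rfl (fun c _ => hA (y c)), Finset.sum_add_distrib, Finset.sum_const,
      Finset.card_univ, Nat.cast_smul_eq_nsmul]
  rw [h1, smul_add, smul_smul, inv_mul_cancel₀ hN, one_smul]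

variable {n : ℕ} {G : Type*} [Group G] (G₀ : Subgroup G) (α α' : G →* (Eu n ≃ᵃ[ℝ] Eu n))
  (q₀ : Eu n → Eu n)

/-- The transported map. -/
def transp (g : G) (z : Eu n) : Eu n := α' g (q₀ (α g⁻¹ z))

lemma transp_mul (k g : G) (z : Eu n) : transp α α' q₀ (k * g) (α k z) = α' k (transp α α' q₀ g z) := by
  unfold transp
  rw [map_mul, mul_inv_rev, map_mul]
  have h1 : (α g⁻¹ * α k⁻¹) (α k z) = α g⁻¹ z := by
    change α g⁻¹ (α k⁻¹ (α k z)) = α g⁻¹ z
    have h2 : α k⁻¹ (α k z) = z := by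
      change (α k⁻¹ * α k) z = z
      rw [← map_mul, inv_mul_cancel, map_one]
      rfl
    rw [h2]
  rw [h1]
  rfl

variable {G₀} {α α'} {q₀}

lemma transp_coset (h₀ : ∀ g ∈ G₀, ∀ z, q₀ (α g z) = α' g (q₀ z)) {g g' : G}
    (h : g⁻¹ * g' ∈ G₀) (z : Eu n) : transp α α' q₀ g' z = transp α α' q₀ g z := by
  obtain ⟨k, hk, rfl⟩ : ∃ k ∈ G₀, g' = g * k := ⟨g⁻¹ * g', h, by group⟩
  unfold transp
  rw [mul_inv_rev, map_mul, map_mul]
  change α' g (α' k (q₀ (α k⁻¹ (α g⁻¹ z)))) = α' g (q₀ (α g⁻¹ z))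
  rw [h₀ k⁻¹ (G₀.inv_mem hk)]
  congr 1
  change (α' k * α' k⁻¹) _ = _
  rw [← map_mul, mul_inv_cancel, map_one]
  rfl

variable [Fintype (G ⧸ G₀)]

variable (G₀) (α) (α') (q₀) in
/-- The average over the cosets. -/
def avgMap (z : Eu n) : Eu n :=
  (Fintype.card (G ⧸ G₀) : ℝ)⁻¹ • ∑ c : G ⧸ G₀, transp α α' q₀ (Quotient.out c) z

theorem avgMap_equi (h₀ : ∀ g ∈ G₀, ∀ z, q₀ (α g z) = α' g (q₀ z)) (k : G) (z : Eu n) :
    avgMap G₀ α α' q₀ (α k z) = α' k (avgMap G₀ α α' q₀ z) := by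
  unfold avgMap
  have : Nonempty (G ⧸ G₀) := ⟨QuotientGroup.mk 1⟩
  rw [affine_avg]
  congr 1
  have h1 : ∀ c : G ⧸ G₀, α' k (transp α α' q₀ (Quotient.out c) z) =
      transp α α' q₀ (Quotient.out (k • c)) (α k z) := by
    intro c
    rw [← transp_mul]
    refine (transp_coset h₀ ?_ _).symm
    rw [← QuotientGroup.eq]
    have h2 : (QuotientGroup.mk (k * Quotient.out c) : G ⧸ G₀) = k • c := by
      have h3 : (QuotientGroup.mk (Quotient.out c) : G ⧸ G₀) = c := Quotient.out_eq c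
      calc (QuotientGroup.mk (k * Quotient.out c) : G ⧸ G₀) =
          k • (QuotientGroup.mk (Quotient.out c) : G ⧸ G₀) := rfl
        _ = k • c := by rw [h3]
    rw [h2]
    exact (Quotient.out_eq (k • c)).symm
  rw [Finset.sum_congr rfl (fun c _ => h1 c)]
  exact (Equiv.sum_comp (MulAction.toPerm k : Equiv.Perm (G ⧸ G₀))
    (fun c => transp α α' q₀ (Quotient.out c) (α k z))).symm

/-- The average of an affine map is affine. -/
theorem avgMap_affine (a : Eu n →ᵃ[ℝ] Eu n) :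
    ∃ b : Eu n →ᵃ[ℝ] Eu n, ∀ z, avgMap G₀ α α' a z = b z := by
  refine ⟨(Fintype.card (G ⧸ G₀) : ℝ)⁻¹ • ∑ c : G ⧸ G₀,
    ((α' (Quotient.out c) : Eu n ≃ᵃ[ℝ] Eu n) : Eu n →ᵃ[ℝ] Eu n).comp
      (a.comp ((α (Quotient.out c)⁻¹ : Eu n ≃ᵃ[ℝ] Eu n) : Eu n →ᵃ[ℝ] Eu n)), fun z => ?_⟩
  rw [AffineMap.coe_smul, Pi.smul_apply]
  unfold avgMap
  congr 1
  have : ∀ (s : Finset (G ⧸ G₀)) (f : G ⧸ G₀ → (Eu n →ᵃ[ℝ] Eu n)),
      (∑ c ∈ s, f c) z = ∑ c ∈ s, f c z := by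
    intro s f
    classical
    induction s using Finset.induction_on with
    | empty => simp
    | insert c s hc ih => rw [Finset.sum_insert hc, Finset.sum_insert hc, AffineMap.coe_add, Pi.add_apply, ih]
  rw [this]
  rfl

end

end Pool.Agent.AffRig
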