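import Mathlib

/-!
# Affine groups with a bounded orbit have a fixed point (centroid)
-/

set_option autoImplicit false

namespace Pool.Agent.AffRig

open Filter Topology Set MeasureTheory
open scoped ContDiff

noncomputable section

section full

variable {E : Type*} [NormedAddCommGroup E] [NormedSpace ℝ E] [FiniteDimensional ℝ E]
  [MeasurableSpace E] [BorelSpace E]

/-- The centroid of an invariant bounded spanning set is fixed. -/
theorem exists_fixed_full {H : Type*} (L : H → E ≃L[ℝ] E) (b : H → E) (S : Set E)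
    (hS : Bornology.IsBounded S) (hspan : affineSpan ℝ S = ⊤)
    (himg : ∀ g, (fun x => L g x + b g) '' S = S) :
    ∃ y : E, ∀ g, L g y + b g = y := by
  let μ : Measure E := Measure.addHaar
  let C : Set E := closure (convexHull ℝ S)
  have hCb : Bornology.IsBounded (convexHull ℝ S) := isBounded_convexHull.mpr hS
  have hCc : IsCompact C := hCb.isCompact_closure
  have hint : (interior (convexHull ℝ S)).Nonempty :=
    interior_convexHull_nonempty_iff_affineSpan_eq_top.mpr hspan
  have hpos : 0 < μ C := by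
    have h1 : 0 < μ (interior (convexHull ℝ S)) := isOpen_interior.measure_pos μ hint
    exact h1.trans_le (measure_mono (interior_subset.trans subset_closure))
  have hfin : μ C < ⊤ := hCc.measure_lt_top
  have hM : 0 < (μ C).toReal := ENNReal.toReal_pos hpos.ne' hfin.ne
  let G : H → E → E := fun g x => L g x + b g
  have hGc : ∀ g, Continuous (G g) := fun g => (L g).continuous.add continuous_const
  have hGC : ∀ g, G g '' C = C := by
    intro g
    have h1 : G g '' C = closure (G g '' convexHull ℝ S) :=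
      image_closure_of_isCompact hCc (hGc g).continuousOn
    let a : E →ᵃ[ℝ] E := (L g : E →ₗ[ℝ] E).toAffineMap + AffineMap.const ℝ E (b g)
    have h2 : G g '' convexHull ℝ S = convexHull ℝ (G g '' S) := a.image_convexHull S
    rw [h1, h2, himg]
  refine ⟨((μ C).toReal)⁻¹ • ∫ x in C, x ∂μ, fun g => ?_⟩
  have hidc : IntegrableOn (fun x : E => x) C μ := continuous_id.continuousOn.integrableOn_compact hCc
  let e : E ≃ᵐ E := ((L g).toHomeomorph.trans (Homeomorph.addRight (b g))).toMeasurableEquiv
  have he : ∀ x, e x = G g x := fun x => rfl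
  have hmap : ∃ c : ENNReal, Measure.map e μ = c • μ ∧ c ≠ ⊤ := by
    have h1 : Measure.map (L g) μ =
        ENNReal.ofReal |(LinearMap.det (L g : E →ₗ[ℝ] E))⁻¹| • μ := by
      exact Measure.map_linearMap_addHaar_eq_smul_addHaar μ (L g).toLinearEquiv.isUnit_det'.ne_zero
    refine ⟨ENNReal.ofReal |(LinearMap.det (L g : E →ₗ[ℝ] E))⁻¹|, ?_, ENNReal.ofReal_ne_top⟩
    have h2 : (e : E → E) = (fun x => x + b g) ∘ (L g) := rfl
    rw [h2, ← Measure.map_map (measurable_add_const _) (L g).continuous.measurable, h1,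
      Measure.map_smul, map_add_right_eq_self]
  obtain ⟨c, hc, hctop⟩ := hmap
  have hpre : e ⁻¹' C = C := by
    have h1 : e '' C = C := hGC g
    conv_lhs => rw [← h1]
    exact e.injective.preimage_image C
  have hc1 : c = 1 := by
    have h1 : μ C = c * μ C := by
      have h2 : Measure.map e μ C = μ (e ⁻¹' C) := e.map_apply C
      rw [hc, hpre] at h2
      exact h2.symm
    have h3 : 1 * μ C = c * μ C := by rw [one_mul]; exact h1
    exact ((ENNReal.mul_left_inj hpos.ne' hfin.ne).mp h3).symm
  have hint1 : ∫ x in C, e x ∂μ = ∫ x in C, x ∂μ := by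
    have h1 := setIntegral_map_equiv (μ := μ) e (fun y => y) C
    rw [hc, hc1, one_smul, hpre] at h1
    exact h1.symm
  have hint2 : ∫ x in C, e x ∂μ = L g (∫ x in C, x ∂μ) + (μ C).toReal • b g := by
    have h1 : ∫ x in C, e x ∂μ = ∫ x in C, (L g x + b g) ∂μ := rfl
    have hLi : IntegrableOn (fun x : E => L g x) C μ :=
      (L g).continuous.continuousOn.integrableOn_compact hCc
    have hbi : IntegrableOn (fun _ : E => b g) C μ :=
      continuous_const.continuousOn.integrableOn_compact hCc
    rw [h1, integral_add hLi hbi, setIntegral_const]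
    congr 1
    exact (L g : E →L[ℝ] E).integral_comp_comm hidc
  rw [hint1] at hint2
  rw [map_smul]
  have h3 : L g (∫ x in C, x ∂μ) = (∫ x in C, x ∂μ) - (μ C).toReal • b g := by
    conv_rhs => rw [hint2]
    abel
  rw [h3, smul_sub, smul_smul, inv_mul_cancel₀ hM.ne', one_smul]
  abel

end full

variable {E : Type*} [NormedAddCommGroup E] [NormedSpace ℝ E] [FiniteDimensional ℝ E]

/-- A group of affine maps with a nonempty bounded invariant set has a fixed point. -/
theorem exists_fixed {H : Type*} [Group H] (σ : H →* (E ≃ᵃ[ℝ] E)) (S : Set E)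
    (hne : S.Nonempty) (hS : Bornology.IsBounded S) (hinv : ∀ g, ∀ y ∈ S, σ g y ∈ S) :
    ∃ y : E, ∀ g, σ g y = y := by
  obtain ⟨s0, hs0⟩ := hne
  let D : Submodule ℝ E := vectorSpan ℝ S
  have hdec : ∀ g (x y : E), σ g (x + y) = (σ g).linear x + σ g y := by
    intro g x y
    have := (σ g).map_vadd y x
    rw [vadd_eq_add, vadd_eq_add] at this
    exact this
  have himS : ∀ g, (σ g) '' S = S := by
    intro g
    refine Subset.antisymm ?_ ?_
    · rintro _ ⟨y, hy, rfl⟩
      exact hinv g y hy
    · intro y hy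
      refine ⟨σ g⁻¹ y, hinv g⁻¹ y hy, ?_⟩
      have : σ g (σ g⁻¹ y) = (σ g * σ g⁻¹) y := rfl
      rw [this, ← map_mul, mul_inv_cancel, map_one]
      rfl
  have hlin : ∀ g, ∀ v ∈ D, (σ g).linear v ∈ D := by
    intro g v hv
    have h1 : Submodule.map ((σ g : E →ᵃ[ℝ] E)).linear (vectorSpan ℝ S) =
        vectorSpan ℝ ((σ g : E →ᵃ[ℝ] E) '' S) :=
      AffineMap.map_vectorSpan (σ g : E →ᵃ[ℝ] E)
    have h2 : (σ g : E →ᵃ[ℝ] E) '' S = S := himS g
    rw [h2] at h1
    change (σ g).linear v ∈ vectorSpan ℝ S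
    rw [← h1]
    exact ⟨v, hv, rfl⟩
  have hb : ∀ g, σ g s0 - s0 ∈ D := fun g => vsub_mem_vectorSpan ℝ (hinv g s0 hs0) hs0
  let L0 : H → D →ₗ[ℝ] D := fun g =>
    (((σ g).linear : E ≃ₗ[ℝ] E) : E →ₗ[ℝ] E).restrict (fun v hv => hlin g v hv)
  have hL0 : ∀ g, Function.Injective (L0 g) := by
    intro g v w hvw
    have h1 : (σ g).linear (v : E) = (σ g).linear (w : E) := congrArg Subtype.val hvw
    exact Subtype.ext ((σ g).linear.injective h1)
  let L : H → D ≃L[ℝ] D := fun g => (LinearEquiv.ofInjectiveEndo (L0 g) (hL0 g)).toContinuousLinearEquiv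
  have hL : ∀ g (v : D), ((L g v : D) : E) = (σ g).linear (v : E) := fun g v => rfl
  let b : H → D := fun g => ⟨σ g s0 - s0, hb g⟩
  let ι : D →ᵃ[ℝ] E := D.subtype.toAffineMap + AffineMap.const ℝ D s0
  have hι : ∀ v : D, ι v = (v : E) + s0 := fun v => rfl
  have hιi : Function.Injective ι := by
    intro v w hvw
    rw [hι, hι] at hvw
    exact Subtype.ext (add_right_cancel hvw)
  let SD : Set D := ι ⁻¹' S
  have hιS : ι '' SD = S := by
    refine Subset.antisymm (image_preimage_subset _ _) ?_
    intro y hy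
    refine ⟨⟨y - s0, vsub_mem_vectorSpan ℝ hy hs0⟩, ?_, ?_⟩
    · change y - s0 + s0 ∈ S
      rwa [sub_add_cancel]
    · change y - s0 + s0 = y
      rw [sub_add_cancel]
  have hcomm : ∀ g (v : D), ι (L g v + b g) = σ g (ι v) := by
    intro g v
    rw [hι, hι, hdec]
    change (((L g v : D) : E) + (σ g s0 - s0)) + s0 = _
    rw [hL]
    abel
  have himg : ∀ g, (fun v => L g v + b g) '' SD = SD := by
    intro g
    refine Subset.antisymm ?_ ?_
    · rintro _ ⟨v, hv, rfl⟩
      change ι (L g v + b g) ∈ S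
      rw [hcomm]
      exact hinv g _ hv
    · intro v hv
      have h1 : ι v ∈ σ g '' S := by
        rw [himS]
        exact hv
      obtain ⟨y, hy, hyv⟩ := h1
      rw [← hιS] at hy
      obtain ⟨w, hw, rfl⟩ := hy
      refine ⟨w, hw, ?_⟩
      apply hιi
      rw [← hyv]
      exact hcomm g w
  have hSDb : Bornology.IsBounded SD := by
    obtain ⟨R, hR⟩ := hS.subset_closedBall (0 : E)
    rw [isBounded_iff_forall_norm_le]
    refine ⟨R + ‖s0‖, fun v hv => ?_⟩
    have h1 := hR (show ι v ∈ S from hv)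
    rw [mem_closedBall_zero_iff, hι] at h1
    have h2 : ‖(v : E)‖ ≤ ‖(v : E) + s0‖ + ‖s0‖ := by
      have := norm_sub_le ((v : E) + s0) s0
      rwa [add_sub_cancel_right] at this
    have h3 : ‖v‖ = ‖(v : E)‖ := rfl
    rw [h3]
    linarith
  have hSDne : SD.Nonempty := ⟨0, by change ι 0 ∈ S; rw [hι]; simpa using hs0⟩
  have hspan : affineSpan ℝ SD = ⊤ := by
    rw [AffineSubspace.affineSpan_eq_top_iff_vectorSpan_eq_top_of_nonempty ℝ D D hSDne]
    have h1 : Submodule.map ι.linear (vectorSpan ℝ SD) = vectorSpan ℝ (ι '' SD) :=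
      AffineMap.map_vectorSpan ι
    rw [hιS] at h1
    have h2 : ι.linear = D.subtype := by
      change (D.subtype.toAffineMap + AffineMap.const ℝ D s0).linear = _
      simp
    rw [h2] at h1
    have h3 : Submodule.map D.subtype (⊤ : Submodule ℝ D) = D := by
      rw [Submodule.map_top, Submodule.range_subtype]
    apply Submodule.map_injective_of_injective D.injective_subtype
    change Submodule.map D.subtype (vectorSpan ℝ SD) = Submodule.map D.subtype ⊤
    rw [h3]
    exact h1
  let _ : MeasurableSpace D := borel D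
  have : BorelSpace D := ⟨rfl⟩
  obtain ⟨y, hy⟩ := exists_fixed_full L b SD hSDb hspan himg
  refine ⟨ι y, fun g => ?_⟩
  rw [← hcomm, hy]

end

end Pool.Agent.AffRig
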