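import Pool.Agent.Lib.MP_27f33f_gt.Poly
import Pool.Agent.Lib.MP_27f33f_gt.Fix

/-!
# From coarse to exact polynomial equivariance
-/

set_option autoImplicit false

namespace Pool.Agent.AffRig

open Filter Topology Set MeasureTheory
open scoped ContDiff Manifold

noncomputable section

lemma affEquiv_add {m : ℕ} (g : Eu m ≃ᵃ[ℝ] Eu m) (x y : Eu m) :
    g (x + y) = g.linear x + g y := by
  have := g.map_vadd y x
  rw [vadd_eq_add, vadd_eq_add] at this
  exact this

/-- If a polynomial map stays at bounded distance from an equivariant map (which need not be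
continuous), then a translate of it is equivariant. -/
theorem coarse_to_exact {m : ℕ} {H : Type*} [Group H] (α α' : H →* (Eu m ≃ᵃ[ℝ] Eu m))
    {q p : Eu m → Eu m} (hq : ∀ g z, q (α g z) = α' g (q z)) (hp : IsPolyMap p) {C : ℝ}
    (hC : ∀ z, ‖q z - p z‖ ≤ C) :
    ∃ b : Eu m, ∀ g z, p (α g z) + b = α' g (p z + b) := by
  -- the defect is a polynomial map
  let r : H → Eu m → Eu m := fun g z => p (α g z) - α' g (p z)
  have hlinb : ∀ g (v : Eu m), ‖(α' g).linear v‖ ≤
      ‖LinearMap.toContinuousLinearMap ((α' g).linear : Eu m →ₗ[ℝ] Eu m)‖ * ‖v‖ := fun g v =>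
    (LinearMap.toContinuousLinearMap ((α' g).linear : Eu m →ₗ[ℝ] Eu m)).le_opNorm v
  have hC0 : 0 ≤ C := (norm_nonneg _).trans (hC 0)
  have hrb : ∀ g z, ‖r g z‖ ≤
      C + ‖LinearMap.toContinuousLinearMap ((α' g).linear : Eu m →ₗ[ℝ] Eu m)‖ * C := by
    intro g z
    have h1 : r g z = -(q (α g z) - p (α g z)) + (α' g).linear (q z - p z) := by
      change p (α g z) - α' g (p z) = _
      have h2 := affEquiv_add (α' g) (q z - p z) (p z)
      rw [sub_add_cancel, ← hq] at h2
      rw [h2]
      abel
    rw [h1]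
    calc _ ≤ ‖-(q (α g z) - p (α g z))‖ + ‖(α' g).linear (q z - p z)‖ := norm_add_le _ _
      _ ≤ C + ‖LinearMap.toContinuousLinearMap ((α' g).linear : Eu m →ₗ[ℝ] Eu m)‖ * C := by
        rw [norm_neg]
        refine add_le_add (hC _) ((hlinb g _).trans ?_)
        exact mul_le_mul_of_nonneg_left (hC z) (norm_nonneg _)
  have hrp : ∀ g, IsPolyMap (r g) := by
    intro g
    have h1 : IsPolyMap (fun z => p (α g z)) :=
      hp.comp (IsPolyMap.of_affine ((α g : Eu m ≃ᵃ[ℝ] Eu m) : Eu m →ᵃ[ℝ] Eu m))
    have h2 : IsPolyMap (fun z => α' g (p z)) :=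
      (IsPolyMap.of_affine ((α' g : Eu m ≃ᵃ[ℝ] Eu m) : Eu m →ᵃ[ℝ] Eu m)).comp hp
    have h3 := h1.add (h2.const_smul (-1))
    have h4 : r g = fun z => p (α g z) + (-1 : ℝ) • α' g (p z) := by
      funext z
      change p (α g z) - α' g (p z) = _
      rw [neg_one_smul, sub_eq_add_neg]
    rw [h4]
    exact h3
  have hrc : ∀ g z, r g z = r g 0 := by
    intro g z
    ext i
    refine (isPolyMap_iff.mp (hrp g) i).const_of_bounded (C := C +
      ‖LinearMap.toContinuousLinearMap ((α' g).linear : Eu m →ₗ[ℝ] Eu m)‖ * C) ?_ z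
    intro y
    have h1 := EuclideanSpace.norm_eq (r g y)
    have h2 : |r g y i| ≤ ‖r g y‖ := by
      have := PiLp.norm_apply_le (r g y) i
      simpa using this
    exact h2.trans (hrb g y)
  let c : H → Eu m := fun g => r g 0
  have hc : ∀ g z, p (α g z) = α' g (p z) + c g := by
    intro g z
    change _ = _ + r g 0
    rw [← hrc g z]
    change _ = α' g (p z) + (p (α g z) - α' g (p z))
    abel
  have hcc : ∀ g h, c (g * h) = (α' g).linear (c h) + c g := by
    intro g h
    have h1 := hc (g * h) 0
    have h2 : α (g * h) 0 = α g (α h 0) := by rw [map_mul]; rfl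
    have h3 : α' (g * h) (p 0) = α' g (α' h (p 0)) := by rw [map_mul]; rfl
    rw [h2, h3, hc, hc, add_comm (α' h (p 0)) (c h), affEquiv_add] at h1
    have h4 : (α' g).linear (c h) + α' g (α' h (p 0)) + c g =
        α' g (α' h (p 0)) + ((α' g).linear (c h) + c g) := by abel
    rw [h4] at h1
    exact (add_left_cancel h1).symm
  have hc1 : c 1 = 0 := by
    have h1 := hcc 1 1
    rw [mul_one, map_one] at h1
    have h2 : ((1 : Eu m ≃ᵃ[ℝ] Eu m).linear) (c 1) = c 1 := rfl
    rw [h2] at h1
    have h3 : c 1 + c 1 = c 1 + 0 := by rw [add_zero]; exact h1.symm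
    exact add_left_cancel h3
  -- the affine action with linear part of `α'` and translation part `-c`
  let s : H → Eu m → Eu m := fun g y => (α' g).linear y - c g
  have hmulL : ∀ g h (y : Eu m), (α' (g * h)).linear y = (α' g).linear ((α' h).linear y) := by
    intro g h y
    rw [map_mul]
    rfl
  have hs_mul : ∀ g h y, s (g * h) y = s g (s h y) := by
    intro g h y
    change (α' (g * h)).linear y - c (g * h) =
      (α' g).linear ((α' h).linear y - c h) - c g
    have h1 : (α' g).linear ((α' h).linear y - c h) =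
        (α' g).linear ((α' h).linear y) - (α' g).linear (c h) :=
      map_sub (α' g).linear _ _
    rw [hmulL, hcc, h1]
    abel
  have hs_one : ∀ y, s 1 y = y := by
    intro y
    change (α' 1).linear y - c 1 = y
    rw [hc1, map_one, sub_zero]
    rfl
  let σ : H →* (Eu m ≃ᵃ[ℝ] Eu m) :=
    { toFun := fun g =>
        { toFun := s g
          invFun := s g⁻¹
          left_inv := fun y => by rw [← hs_mul, inv_mul_cancel, hs_one]
          right_inv := fun y => by rw [← hs_mul, mul_inv_cancel, hs_one]
          linear := (α' g).linear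
          map_vadd' := fun y v => by
            change (α' g).linear (v + y) - c g = (α' g).linear v + ((α' g).linear y - c g)
            rw [map_add]
            abel }
      map_one' := by
        ext y : 1
        exact hs_one y
      map_mul' := fun g h => by
        ext y : 1
        exact hs_mul g h y }
  have hσ : ∀ g y, σ g y = (α' g).linear y - c g := fun g y => rfl
  obtain ⟨b, hb⟩ := exists_fixed σ (range fun z => q z - p z) ⟨_, ⟨0, rfl⟩⟩ (by
    rw [isBounded_iff_forall_norm_le]
    refine ⟨C, ?_⟩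
    rintro _ ⟨z, rfl⟩
    exact hC z) (by
    rintro g _ ⟨z, rfl⟩
    refine ⟨α g z, ?_⟩
    change q (α g z) - p (α g z) = (α' g).linear (q z - p z) - c g
    have h2 := affEquiv_add (α' g) (q z - p z) (p z)
    rw [sub_add_cancel] at h2
    rw [hc, hq, h2]
    abel)
  refine ⟨b, fun g z => ?_⟩
  have h1 := hb g
  rw [hσ] at h1
  rw [add_comm (p z) b, affEquiv_add, hc]
  have h2 : (α' g).linear b = b + c g := sub_eq_iff_eq_add.mp h1
  rw [h2]
  abel

end

end Pool.Agent.AffRig
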