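import Pool.Agent.Lib.MP_27f33f_gt.Line

/-!
# Straightening the fibre scale, and the general transverse rigidity statement
-/

set_option autoImplicit false

namespace Pool.Agent.AffRig

open Filter Topology Set MeasureTheory
open scoped ContDiff

noncomputable section

variable {G B : Type*} [Group G] [NormedAddCommGroup B] [NormedSpace ℝ B]

/-- Conjugation of an action by a smooth change of coordinates. -/
def SAct.conj {X Y : Type*} [NormedAddCommGroup X] [NormedSpace ℝ X]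
    [NormedAddCommGroup Y] [NormedSpace ℝ Y] (A : SAct G X) (p : X → Y) (q : Y → X)
    (hp : ContDiff ℝ ∞ p) (hq : ContDiff ℝ ∞ q) (hpq : ∀ y, p (q y) = y) (hqp : ∀ x, q (p x) = x) :
    SAct G Y where
  f := fun g y => p (A.f g (q y))
  one := fun y => by rw [A.one, hpq]
  mul := fun g h y => by rw [A.mul, hqp]
  sm := fun g => hp.comp ((A.sm g).comp hq)

section conj

variable {X Y : Type*} [NormedAddCommGroup X] [NormedSpace ℝ X]
    [NormedAddCommGroup Y] [NormedSpace ℝ Y] {A : SAct G X} {p : X → Y} {q : Y → X}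
    {hp : ContDiff ℝ ∞ p} {hq : ContDiff ℝ ∞ q} {hpq : ∀ y, p (q y) = y} {hqp : ∀ x, q (p x) = x}

lemma PD.conj (h : PD A) : PD (A.conj p q hp hq hpq hqp) := by
  intro K hK
  refine (h (q '' K) (hK.image hq.continuous)).subset ?_
  rintro g ⟨y, ⟨x, hx, rfl⟩, hy⟩
  refine ⟨A.f g (q x), ⟨q x, ⟨x, hx, rfl⟩, rfl⟩, ?_⟩
  exact ⟨_, hy, hqp _⟩

lemma CC.conj (h : CC A) : CC (A.conj p q hp hq hpq hqp) := by
  obtain ⟨K, hK, hKc⟩ := h
  refine ⟨p '' K, hK.image hp.continuous, fun y => ?_⟩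
  obtain ⟨g, hg⟩ := hKc (q y)
  exact ⟨g, ⟨_, hg, rfl⟩⟩

end conj

variable [FiniteDimensional ℝ B]

/-- The straightening coordinate. -/
theorem exists_straight {A : SAct G (B × ℝ)} {β : G → B → B} {a : G → ℝ} {l : G → B → ℝ}
    (hF : IsFib A β a l) (hA : PD A) (hC : CC A) :
    ∃ θ v : B × ℝ → ℝ, ∃ e : G → ℝ, ∃ l' : G → B → ℝ,
      ContDiff ℝ ∞ θ ∧ ContDiff ℝ ∞ v ∧ (∀ z s, θ (z, v (z, s)) = s) ∧
      (∀ z t, v (z, θ (z, t)) = t) ∧ (∀ g, e g = 1 ∨ e g = -1) ∧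
      ∀ g x, θ (A.f g x) = e g * θ x + l' g x.1 := by
  obtain ⟨P⟩ := exists_part hA hC
  obtain ⟨K, hK, hKc⟩ := hC
  have hane := hF.ane
  let C : Coc A :=
    { c := fun g => |a g|
      d := fun _ _ => 0
      c1 := by rw [hF.smul_one.1, abs_one]
      cmul := fun g h => by rw [hF.amul, abs_mul]
      d1 := fun _ => rfl
      dmul := fun g h x => by ring
      dsm := fun _ => contDiff_const }
  let τ : B × ℝ → ℝ := sec P C 1
  have hτs : ContDiff ℝ ∞ τ := sec_smooth P C 1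
  have hτe : ∀ g x, τ (A.f g x) = |a g| * τ x := fun g x => by
    have := sec_equi P C 1 g x
    simpa [C] using this
  have hτp : ∀ x, 0 < τ x := sec_pos P C (fun g => abs_pos.mpr (hane g)) (fun _ _ => rfl) one_pos
  let ρ : B × ℝ → ℝ := fun x => (τ x)⁻¹
  have hρs : ContDiff ℝ ∞ ρ := hτs.inv (fun x => (hτp x).ne')
  have hρp : ∀ x, 0 < ρ x := fun x => inv_pos.mpr (hτp x)
  have hρe : ∀ g x, ρ (A.f g x) = |a g|⁻¹ * ρ x := fun g x => by
    change (τ (A.f g x))⁻¹ = |a g|⁻¹ * (τ x)⁻¹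
    rw [hτe, mul_inv]
  have hint : ∀ z p q, IntervalIntegrable (fun r => ρ (z, r)) volume p q := fun z p q =>
    (hρs.continuous.comp (by fun_prop : Continuous fun r : ℝ => (z, r))).intervalIntegrable p q
  let θ : B × ℝ → ℝ := prim ρ
  have hθs : ContDiff ℝ ∞ θ := contDiff_prim hρs
  have hθd : ∀ x, fderiv ℝ θ x (0, 1) ≠ 0 := by
    rintro ⟨z, t⟩
    have h1 := hasDerivAt_fib hθs z t
    have h2 := hasDerivAt_prim hρs.continuous z t
    rw [h1.unique h2]
    exact (hρp _).ne'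
  have hdiff : ∀ z p q, θ (z, q) - θ (z, p) = ∫ r in p..q, ρ (z, r) := fun z p q => by
    change (∫ r in (0 : ℝ)..q, ρ (z, r)) - (∫ r in (0 : ℝ)..p, ρ (z, r)) = _
    rw [intervalIntegral.integral_interval_sub_left (hint _ _ _) (hint _ _ _)]
  -- sign
  let e : G → ℝ := fun g => a g * |a g|⁻¹
  have he : ∀ g, e g = 1 ∨ e g = -1 := by
    intro g
    rcases lt_or_gt_of_ne (hane g) with h | h
    · right
      change a g * |a g|⁻¹ = -1
      rw [abs_of_neg h, inv_neg, mul_neg, mul_inv_cancel₀ (hane g)]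
    · left
      change a g * |a g|⁻¹ = 1
      rw [abs_of_pos h, mul_inv_cancel₀ (hane g)]
  have hequi : ∀ g z p q, θ (A.f g (z, q)) - θ (A.f g (z, p)) = e g * (θ (z, q) - θ (z, p)) := by
    intro g z p q
    rw [hF, hF]
    change θ (β g z, a g * q + l g z) - θ (β g z, a g * p + l g z) = _
    rw [hdiff, hdiff]
    have h1 := intervalIntegral.mul_integral_comp_mul_add (a := p) (b := q) (c := a g)
      (d := l g z) (f := fun r => ρ (β g z, r))
    rw [← h1]
    have h2 : (fun r => ρ (β g z, a g * r + l g z)) = fun r => |a g|⁻¹ * ρ (z, r) := by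
      funext r
      have := hρe g (z, r)
      rw [hF] at this
      exact this
    rw [h2, intervalIntegral.integral_const_mul, ← mul_assoc]
  have hKne : K.Nonempty := by
    obtain ⟨g, hg⟩ := hKc 0
    exact ⟨_, hg⟩
  obtain ⟨δ, hδ, hδ1, hδ2⟩ : ∃ δ : ℝ, 0 < δ ∧ (∀ x ∈ K, δ ≤ θ (x.1, x.2 + 1) - θ x) ∧
      ∀ x ∈ K, δ ≤ θ x - θ (x.1, x.2 - 1) := by
    have hc1 : Continuous fun x : B × ℝ => θ (x.1, x.2 + 1) - θ x := by
      have := hθs.continuous
      fun_prop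
    have hc2 : Continuous fun x : B × ℝ => θ x - θ (x.1, x.2 - 1) := by
      have := hθs.continuous
      fun_prop
    have hp : ∀ z p q, p < q → 0 < θ (z, q) - θ (z, p) := fun z p q hpq => by
      rw [hdiff]
      exact intervalIntegral.intervalIntegral_pos_of_pos (hint _ _ _) (fun _ => hρp _) hpq
    obtain ⟨x1, hx1, hm1⟩ := hK.exists_isMinOn hKne hc1.continuousOn
    obtain ⟨x2, hx2, hm2⟩ := hK.exists_isMinOn hKne hc2.continuousOn
    refine ⟨min (θ (x1.1, x1.2 + 1) - θ x1) (θ x2 - θ (x2.1, x2.2 - 1)), lt_min ?_ ?_, ?_, ?_⟩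
    · exact hp x1.1 x1.2 (x1.2 + 1) (by linarith)
    · exact hp x2.1 (x2.2 - 1) x2.2 (by linarith)
    · intro x hx
      exact (min_le_left _ _).trans (hm1 hx)
    · intro x hx
      exact (min_le_right _ _).trans (hm2 hx)
  have hstep : ∀ z t, (∃ t', θ (z, t) + δ ≤ θ (z, t')) ∧ ∃ t', θ (z, t') ≤ θ (z, t) - δ := by
    intro z t
    obtain ⟨g, hg⟩ := hKc (z, t)
    have h1 := hδ1 _ hg
    have h2 := hδ2 _ hg
    have hag := hane g
    have e1 : ((A.f g (z, t)).1, (A.f g (z, t)).2 + 1) = A.f g (z, t + (a g)⁻¹) := by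
      rw [hF, hF]
      refine Prod.ext rfl ?_
      change a g * t + l g z + 1 = a g * (t + (a g)⁻¹) + l g z
      field_simp
      ring
    have e2 : ((A.f g (z, t)).1, (A.f g (z, t)).2 - 1) = A.f g (z, t - (a g)⁻¹) := by
      rw [hF, hF]
      refine Prod.ext rfl ?_
      change a g * t + l g z - 1 = a g * (t - (a g)⁻¹) + l g z
      field_simp
      ring
    rw [e1, hequi] at h1
    rw [e2, hequi] at h2
    rcases he g with h | h
    · rw [h] at h1 h2
      exact ⟨⟨t + (a g)⁻¹, by linarith⟩, ⟨t - (a g)⁻¹, by linarith⟩⟩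
    · rw [h] at h1 h2
      exact ⟨⟨t - (a g)⁻¹, by linarith⟩, ⟨t + (a g)⁻¹, by linarith⟩⟩
  have hup : ∀ z (n : ℕ), ∃ t, n * δ ≤ θ (z, t) := by
    intro z n
    induction n with
    | zero => exact ⟨0, by change ((0 : ℕ) : ℝ) * δ ≤ ∫ r in (0 : ℝ)..0, ρ (z, r); simp⟩
    | succ n ih =>
      obtain ⟨t, ht⟩ := ih
      obtain ⟨t', ht'⟩ := (hstep z t).1
      exact ⟨t', by push_cast; linarith⟩
  have hdn : ∀ z (n : ℕ), ∃ t, θ (z, t) ≤ -(n * δ) := by
    intro z n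
    induction n with
    | zero => exact ⟨0, by change ∫ r in (0 : ℝ)..0, ρ (z, r) ≤ -(((0 : ℕ) : ℝ) * δ); simp⟩
    | succ n ih =>
      obtain ⟨t, ht⟩ := ih
      obtain ⟨t', ht'⟩ := (hstep z t).2
      exact ⟨t', by push_cast; linarith⟩
  have hsurj : ∀ z, Function.Surjective (fun t => θ (z, t)) := by
    intro z s
    obtain ⟨n, hn⟩ := exists_nat_ge (|s| / δ)
    rw [div_le_iff₀ hδ] at hn
    obtain ⟨t1, ht1⟩ := hup z n
    obtain ⟨t2, ht2⟩ := hdn z n
    have hcont : Continuous (fun t : ℝ => θ (z, t)) := hθs.continuous.comp (by fun_prop)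
    exact mem_range_of_exists_le_of_exists_ge hcont
      ⟨t2, ht2.trans (by linarith [neg_abs_le s])⟩ ⟨t1, (le_abs_self s).trans (hn.trans ht1)⟩
  obtain ⟨v, hv, hv1, hv2⟩ := exists_fib_inverse hθs hθd hsurj
  refine ⟨θ, v, e, fun g z => θ (A.f g (z, 0)), hθs, hv, hv1, hv2, he, ?_⟩
  rintro g ⟨z, t⟩
  have h1 := hequi g z 0 t
  have h0 : θ (z, 0) = 0 := by
    change (∫ r in (0 : ℝ)..0, ρ (z, r)) = 0
    simp
  rw [h0, sub_zero] at h1
  change θ (A.f g (z, t)) = e g * θ (z, t) + θ (A.f g (z, 0))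
  linarith

/-- Transverse rigidity in product coordinates. -/
theorem fib_rigid {A A' : SAct G (B × ℝ)} {β : G → B → B} {a : G → ℝ} {l : G → B → ℝ}
    {b : G → ℝ} {m : G → B → ℝ} (hF : IsFib A β a l) (hF' : IsFib A' β b m)
    (hA : PD A) (hC : CC A) (hA' : PD A') :
    ∃ u v : B × ℝ → ℝ, ContDiff ℝ ∞ u ∧ ContDiff ℝ ∞ v ∧ (∀ z s, u (z, v (z, s)) = s) ∧
      (∀ z t, v (z, u (z, t)) = t) ∧ ∀ g x, u (A.f g x) = b g * u x + m g x.1 := by
  obtain ⟨θ, w, e, l', hθ, hw, hθw, hwθ, he, hθe⟩ := exists_straight hF hA hC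
  let p : B × ℝ → B × ℝ := fun x => (x.1, θ x)
  let q : B × ℝ → B × ℝ := fun x => (x.1, w x)
  have hp : ContDiff ℝ ∞ p := contDiff_fst.prodMk hθ
  have hq : ContDiff ℝ ∞ q := contDiff_fst.prodMk hw
  have hpq : ∀ y, p (q y) = y := fun y => by
    change (y.1, θ (y.1, w y)) = y
    rw [hθw y.1 y.2]
  have hqp : ∀ y, q (p y) = y := fun y => by
    change (y.1, w (y.1, θ y)) = y
    rw [hwθ y.1 y.2]
  let A₁ := A.conj p q hp hq hpq hqp
  have hF₁ : IsFib A₁ β e l' := by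
    intro g y
    change p (A.f g (q y)) = _
    have h1 : θ (A.f g (q y)) = e g * y.2 + l' g y.1 := by
      rw [hθe]
      change e g * θ (y.1, w (y.1, y.2)) + l' g y.1 = _
      rw [hθw]
    change ((A.f g (q y)).1, θ (A.f g (q y))) = _
    rw [h1, hF]
  obtain ⟨u₁, hu₁, hud, hus, hue⟩ := line_core hF₁ hF' he hA.conj hC.conj hA'
  obtain ⟨v₁, hv₁, h1, h2⟩ := exists_fib_inverse hu₁ hud hus
  refine ⟨fun x => u₁ (p x), fun y => w (y.1, v₁ y), hu₁.comp hp, hw.comp (contDiff_fst.prodMk hv₁),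
    ?_, ?_, ?_⟩
  · intro z s
    change u₁ (z, θ (z, w (z, v₁ (z, s)))) = s
    rw [hθw, h1]
  · intro z t
    change w (z, v₁ (z, u₁ (z, θ (z, t)))) = t
    rw [h2, hwθ]
  · intro g x
    have h3 := hue g (p x)
    have h4 : A₁.f g (p x) = p (A.f g x) := by
      change p (A.f g (q (p x))) = _
      rw [hqp]
    rw [h4] at h3
    exact h3

end

end Pool.Agent.AffRig
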