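import Pool.Agent.Lib.MP_27f33f_gt.Stab
import Pool.Agent.Lib.MP_27f33f_gt.Theta

/-!
# The cone of crystallographic lifts along a line
-/

set_option autoImplicit false

namespace Pool.Agent.AffRig

open Filter Topology Set
open scoped ContDiff Manifold

noncomputable section

variable {H B : Type*} [Group H] [NormedAddCommGroup B] [NormedSpace ℝ B]

/-- A cocycle whose lift is properly discontinuous and cocompact. -/
def Crys (α : SAct H B) (R : LRep H ℝ) (l : H → B → ℝ) : Prop :=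
  ∃ h : IsCocy α R l, PD (liftAct h) ∧ CC (liftAct h)

/-- The positive equivariant fibre coordinates from the lift `l₀` to the lift `l`. -/
def PosTo {α : SAct H B} {R : LRep H ℝ} {l₀ : H → B → ℝ} (h₀ : IsCocy α R l₀)
    (l : H → B → ℝ) : Prop :=
  ∃ u : B × ℝ → ℝ, ContDiff ℝ ∞ u ∧ (∀ x, 0 < fderiv ℝ u x (0, 1)) ∧
    (∀ z, Function.Surjective (fun t => u (z, t))) ∧
    ∀ g x, u ((liftAct h₀).f g x) = R.r g (u x) + l g x.1

lemma LRep.apply_eq (R : LRep H ℝ) (g : H) (t : ℝ) : R.r g t = R.r g 1 * t := by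
  have : R.r g (t • (1 : ℝ)) = t • R.r g 1 := map_smul _ _ _
  rw [smul_eq_mul, mul_one, smul_eq_mul] at this
  rw [this, mul_comm]

lemma LRep.ne_zero (R : LRep H ℝ) (g : H) : R.r g 1 ≠ 0 := by
  intro h
  have h1 := R.mul g⁻¹ g 1
  rw [inv_mul_cancel, R.one, h, map_zero] at h1
  exact one_ne_zero h1

section fibre

variable {α : SAct H B} {R : LRep H ℝ} {l₀ : H → B → ℝ}

/-- Monotone surjective fibre maps. -/
lemma strictMono_fib {u : B × ℝ → ℝ} (hu : ContDiff ℝ ∞ u)
    (hd : ∀ x, 0 < fderiv ℝ u x (0, 1)) (z : B) : StrictMono (fun t => u (z, t)) := by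
  refine strictMono_of_deriv_pos (fun t => ?_)
  rw [(hasDerivAt_fib hu z t).deriv]
  exact hd _

variable [FiniteDimensional ℝ B]

/-- A positive fibre coordinate gives a conjugating diffeomorphism. -/
theorem PosTo.diffeo {h₀ : IsCocy α R l₀} {l : H → B → ℝ} (h : PosTo h₀ l)
    (hl : IsCocy α R l) :
    ∃ U : Diffeomorph 𝓘(ℝ, B × ℝ) 𝓘(ℝ, B × ℝ) (B × ℝ) (B × ℝ) ∞,
      (∀ x, (U x).1 = x.1) ∧ ∀ g x, U ((liftAct h₀).f g x) = (liftAct hl).f g (U x) := by
  obtain ⟨u, hu, hd, hs, he⟩ := h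
  let f : B × ℝ → B × ℝ := fun x => (x.1, u x)
  have hf : ContDiff ℝ ∞ f := contDiff_fst.prodMk hu
  have hfd : ∀ x, Function.Injective (fderiv ℝ f x) := by
    intro x
    have h1 : HasFDerivAt f ((ContinuousLinearMap.fst ℝ B ℝ).prod (fderiv ℝ u x)) x :=
      HasFDerivAt.prodMk hasFDerivAt_fst ((hu.differentiable (by simp) x).hasFDerivAt)
    rw [h1.fderiv, injective_iff_map_eq_zero]
    rintro ⟨vB, t⟩ hv
    have h2 : vB = 0 := congrArg Prod.fst hv
    have h3 : fderiv ℝ u x (vB, t) = 0 := congrArg Prod.snd hv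
    subst h2
    have h4 : ((0 : B), t) = t • ((0 : B), (1 : ℝ)) := by simp
    rw [h4, map_smul, smul_eq_mul] at h3
    rcases mul_eq_zero.mp h3 with h5 | h5
    · rw [h5]; rfl
    · exact absurd h5 (hd x).ne'
  have hb : Function.Bijective f := by
    refine ⟨?_, ?_⟩
    · rintro ⟨z, t⟩ ⟨z', t'⟩ h
      have h1 : z = z' := congrArg Prod.fst h
      subst h1
      have h2 : u (z, t) = u (z, t') := congrArg Prod.snd h
      rw [(strictMono_fib hu hd z).injective h2]
    · rintro ⟨z, y⟩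
      obtain ⟨t, ht⟩ := hs z y
      exact ⟨(z, t), Prod.ext rfl ht⟩
  obtain ⟨U, hU⟩ := exists_diffeo_of_bijective hf hfd hb
  refine ⟨U, fun x => by rw [hU], fun g x => ?_⟩
  rw [hU, hU]
  exact Prod.ext rfl (he g x)

omit [FiniteDimensional ℝ B] in
/-- Positive fibre coordinates form a convex cone. -/
theorem PosTo.comb {h₀ : IsCocy α R l₀} {l l' : H → B → ℝ} (h : PosTo h₀ l)
    (h' : PosTo h₀ l') {a b : ℝ} (ha : 0 ≤ a) (hb : 0 ≤ b) (hab : 0 < a + b) :
    PosTo h₀ (fun g z => a * l g z + b * l' g z) := by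
  obtain ⟨u, hu, hd, hs, he⟩ := h
  obtain ⟨v, hv, hd', hs', he'⟩ := h'
  refine ⟨fun x => a * u x + b * v x, (contDiff_const.mul hu).add (contDiff_const.mul hv),
    ?_, ?_, ?_⟩
  · intro x
    have h1 : HasFDerivAt (fun x => a * u x + b * v x) (a • fderiv ℝ u x + b • fderiv ℝ v x) x :=
      (((hu.differentiable (by simp) x).hasFDerivAt).const_mul a).add
        (((hv.differentiable (by simp) x).hasFDerivAt).const_mul b)
    rw [h1.fderiv]
    change 0 < a * fderiv ℝ u x (0, 1) + b * fderiv ℝ v x (0, 1)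
    rcases ha.lt_or_eq with h2 | h2
    · exact add_pos_of_pos_of_nonneg (mul_pos h2 (hd x)) (mul_nonneg hb (hd' x).le)
    · subst h2
      rw [zero_add] at hab
      rw [zero_mul, zero_add]
      exact mul_pos hab (hd' x)
  · intro z y
    have hcont : Continuous (fun t : ℝ => a * u (z, t) + b * v (z, t)) := by
      have h1 := hu.continuous
      have h2 := hv.continuous
      fun_prop
    let Y : ℝ := |y| / (a + b)
    have hY : (a + b) * Y = |y| := mul_div_cancel₀ _ hab.ne'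
    obtain ⟨t1, ht1⟩ := hs z Y
    obtain ⟨t2, ht2⟩ := hs' z Y
    obtain ⟨t3, ht3⟩ := hs z (-Y)
    obtain ⟨t4, ht4⟩ := hs' z (-Y)
    have m1 := (strictMono_fib hu hd z).monotone
    have m2 := (strictMono_fib hv hd' z).monotone
    refine mem_range_of_exists_le_of_exists_ge hcont ⟨min t3 t4, ?_⟩ ⟨max t1 t2, ?_⟩
    · have h1 : u (z, min t3 t4) ≤ -Y := (m1 (min_le_left t3 t4)).trans ht3.le
      have h2 : v (z, min t3 t4) ≤ -Y := (m2 (min_le_right t3 t4)).trans ht4.le
      have h3 : a * u (z, min t3 t4) + b * v (z, min t3 t4) ≤ a * (-Y) + b * (-Y) :=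
        add_le_add (mul_le_mul_of_nonneg_left h1 ha) (mul_le_mul_of_nonneg_left h2 hb)
      have h4 : a * (-Y) + b * (-Y) = -|y| := by rw [← hY]; ring
      rw [h4] at h3
      exact h3.trans (neg_abs_le y)
    · have h1 : Y ≤ u (z, max t1 t2) := ht1.ge.trans (m1 (le_max_left t1 t2))
      have h2 : Y ≤ v (z, max t1 t2) := ht2.ge.trans (m2 (le_max_right t1 t2))
      have h3 : a * Y + b * Y ≤ a * u (z, max t1 t2) + b * v (z, max t1 t2) :=
        add_le_add (mul_le_mul_of_nonneg_left h1 ha) (mul_le_mul_of_nonneg_left h2 hb)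
      have h4 : a * Y + b * Y = |y| := by rw [← hY]; ring
      rw [h4] at h3
      exact (le_abs_self y).trans h3
  · intro g x
    have h1 : R.r g (a * u x + b * v x) = a * R.r g (u x) + b * R.r g (v x) := by
      rw [R.apply_eq g (a * u x + b * v x), R.apply_eq g (u x), R.apply_eq g (v x)]
      ring
    change a * u ((liftAct h₀).f g x) + b * v ((liftAct h₀).f g x) =
      R.r g (a * u x + b * v x) + (a * l g x.1 + b * l' g x.1)
    rw [he, he', h1]
    ring

end fibre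

lemma posTo_self {α : SAct H B} {R : LRep H ℝ} {l₀ : H → B → ℝ} (h₀ : IsCocy α R l₀) :
    PosTo h₀ l₀ := by
  refine ⟨fun x => x.2, contDiff_snd, fun x => ?_, fun z t => ⟨t, rfl⟩, fun g x => rfl⟩
  rw [(hasFDerivAt_snd (𝕜 := ℝ) (E := B) (F := ℝ) (p := x)).fderiv]
  exact one_pos

lemma IsCocy.smul {α : SAct H B} {R : LRep H ℝ} {l : H → B → ℝ} (h : IsCocy α R l) (c : ℝ) :
    IsCocy α R (fun g z => c * l g z) := by
  refine ⟨fun g => contDiff_const.mul (h.1 g), fun g k z => ?_⟩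
  change c * l (g * k) z = R.r g (c * l k z) + c * l g (α.f k z)
  rw [h.2, R.apply_eq g (c * l k z), R.apply_eq g (l k z)]
  ring

variable [FiniteDimensional ℝ B]

theorem PosTo.crys {α : SAct H B} {R : LRep H ℝ} {l₀ l : H → B → ℝ} {h₀ : IsCocy α R l₀}
    (hA : PD (liftAct h₀)) (hC : CC (liftAct h₀)) (h : PosTo h₀ l) (hl : IsCocy α R l) :
    Crys α R l := by
  obtain ⟨U, -, hU⟩ := h.diffeo hl
  exact ⟨hl, pd_cc_of_conj hA hC U hU⟩

/-- Any crystallographic lift is on the positive or on the negative side. -/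
theorem posTo_or {α : SAct H B} {R : LRep H ℝ} {l₀ l : H → B → ℝ} {h₀ : IsCocy α R l₀}
    (hA : PD (liftAct h₀)) (hC : CC (liftAct h₀)) (hl : Crys α R l) :
    PosTo h₀ l ∨ PosTo h₀ (fun g z => -1 * l g z) := by
  obtain ⟨hl, hA', -⟩ := hl
  have hF : IsFib (liftAct h₀) α.f (fun g => R.r g 1) l₀ := by
    intro g x
    refine Prod.ext rfl ?_
    change R.r g x.2 + l₀ g x.1 = _
    rw [R.apply_eq g x.2]
  have hF' : IsFib (liftAct hl) α.f (fun g => R.r g 1) l := by
    intro g x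
    refine Prod.ext rfl ?_
    change R.r g x.2 + l g x.1 = _
    rw [R.apply_eq g x.2]
  obtain ⟨u, v, hu, hv, huv, hvu, hue⟩ := fib_rigid hF hF' hA hC hA'
  have hsurj : ∀ z, Function.Surjective (fun t => u (z, t)) := fun z s => ⟨v (z, s), huv z s⟩
  have hdne : ∀ x, fderiv ℝ u x (0, 1) ≠ 0 := by
    rintro ⟨z, t⟩ h0
    have h1 := hasDerivAt_fib hu z t
    have h2 := hasDerivAt_fib hv z (u (z, t))
    have h3 : HasDerivAt (fun r => v (z, u (z, r)))
        (fderiv ℝ v (z, u (z, t)) (0, 1) * fderiv ℝ u (z, t) (0, 1)) t :=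
      HasDerivAt.comp (h₂ := fun s => v (z, s)) (h := fun r => u (z, r)) t h2 h1
    have h4 : (fun r => v (z, u (z, r))) = fun r => r := funext (fun r => hvu z r)
    rw [h4] at h3
    have h5 := h3.unique (hasDerivAt_id t)
    rw [h0, mul_zero] at h5
    exact zero_ne_one h5
  have hcont : Continuous (fun x => fderiv ℝ u x (0, 1)) :=
    (hu.continuous_fderiv (by simp)).clm_apply continuous_const
  have hsign : (∀ x, 0 < fderiv ℝ u x (0, 1)) ∨ ∀ x, fderiv ℝ u x (0, 1) < 0 := by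
    by_contra hcon
    push Not at hcon
    obtain ⟨⟨x, hx⟩, ⟨y, hy⟩⟩ := hcon
    obtain ⟨w, hw⟩ := mem_range_of_exists_le_of_exists_ge hcont ⟨x, hx⟩ ⟨y, hy⟩
    exact hdne w hw
  rcases hsign with hs | hs
  · left
    refine ⟨u, hu, hs, hsurj, fun g x => ?_⟩
    rw [hue, R.apply_eq g (u x)]
  · right
    refine ⟨fun x => -u x, hu.neg, fun x => ?_, fun z y => ?_, fun g x => ?_⟩
    · have h1 : HasFDerivAt (fun x => -u x) (-fderiv ℝ u x) x :=
        ((hu.differentiable (by simp) x).hasFDerivAt).neg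
      rw [h1.fderiv]
      exact neg_pos.mpr (hs x)
    · obtain ⟨t, ht⟩ := hsurj z (-y)
      refine ⟨t, ?_⟩
      change -u (z, t) = y
      have h1 : u (z, t) = -y := ht
      rw [h1, neg_neg]
    · change -u ((liftAct h₀).f g x) = R.r g (-u x) + -1 * l g x.1
      rw [hue, R.apply_eq g (-u x)]
      ring

omit [FiniteDimensional ℝ B] in
/-- The zero cocycle is never crystallographic. -/
theorem not_crys_zero {α : SAct H B} {R : LRep H ℝ} : ¬ Crys α R (fun _ _ => 0) := by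
  rintro ⟨h, hA, K, hK, hKc⟩
  have hfin := hA.two (isCompact_singleton (x := ((0 : B), (0 : ℝ))))
    ((hK.image continuous_fst).prod (isCompact_singleton (x := (0 : ℝ))))
  obtain ⟨r, hr⟩ := hK.isBounded.subset_closedBall (0 : B × ℝ)
  obtain ⟨c, hc, hc2⟩ : ∃ c : ℝ, 0 < c ∧ ∀ g ∈ {g | ((liftAct h).f g '' {((0 : B), (0 : ℝ))} ∩
      (Prod.fst '' K) ×ˢ {(0 : ℝ)}).Nonempty}, c ≤ |R.r g 1| := by
    rcases hfin.toFinset.eq_empty_or_nonempty with he | hne
    · refine ⟨1, one_pos, fun g hg => ?_⟩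
      have := hfin.mem_toFinset.mpr hg
      rw [he] at this
      exact absurd this (Finset.notMem_empty g)
    · obtain ⟨g0, -, hg0⟩ := Finset.exists_min_image hfin.toFinset (fun g => |R.r g 1|) hne
      exact ⟨|R.r g0 1|, abs_pos.mpr (R.ne_zero g0), fun g hg => hg0 g (hfin.mem_toFinset.mpr hg)⟩
  let T : ℝ := (|r| + 1) / c
  obtain ⟨g, hg⟩ := hKc ((0 : B), T)
  have h1 : g ∈ {g | ((liftAct h).f g '' {((0 : B), (0 : ℝ))} ∩
      (Prod.fst '' K) ×ˢ {(0 : ℝ)}).Nonempty} := by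
    refine ⟨(liftAct h).f g ((0 : B), (0 : ℝ)), ⟨_, rfl, rfl⟩, ?_, ?_⟩
    · exact ⟨_, hg, rfl⟩
    · change R.r g (0 : ℝ) + 0 = 0
      rw [map_zero, add_zero]
  have h2 := hc2 g h1
  have h3 := hr hg
  rw [mem_closedBall_zero_iff] at h3
  have h4 : |R.r g T + 0| ≤ r := (norm_snd_le _).trans h3
  rw [add_zero, R.apply_eq g T, abs_mul] at h4
  have h5 : c * |T| ≤ |R.r g 1| * |T| := mul_le_mul_of_nonneg_right h2 (abs_nonneg T)
  have h6 : c * |T| = |r| + 1 := by
    have : 0 ≤ T := by positivity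
    rw [abs_of_nonneg this]
    exact mul_div_cancel₀ _ hc.ne'
  have h7 := le_abs_self r
  linarith

omit [FiniteDimensional ℝ B] in
/-- Composition of positive fibre coordinates. -/
theorem PosTo.trans {α : SAct H B} {R : LRep H ℝ} {l₀ l l' : H → B → ℝ}
    {h₀ : IsCocy α R l₀} (h : PosTo h₀ l) {hl : IsCocy α R l} (h' : PosTo hl l') :
    PosTo h₀ l' := by
  obtain ⟨u, hu, hd, hs, he⟩ := h
  obtain ⟨v, hv, hd', hs', he'⟩ := h'
  refine ⟨fun x => v (x.1, u x), hv.comp (contDiff_fst.prodMk hu), ?_, ?_, ?_⟩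
  · rintro ⟨z, t⟩
    have h1 := hasDerivAt_fib hu z t
    have h2 := hasDerivAt_fib hv z (u (z, t))
    have h3 : HasDerivAt (fun r => v (z, u (z, r)))
        (fderiv ℝ v (z, u (z, t)) (0, 1) * fderiv ℝ u (z, t) (0, 1)) t :=
      HasDerivAt.comp (h₂ := fun s => v (z, s)) (h := fun r => u (z, r)) t h2 h1
    have h5 : ContDiff ℝ ∞ (fun x : B × ℝ => v (x.1, u x)) :=
      hv.comp (contDiff_fst.prodMk hu)
    have h4 := hasDerivAt_fib h5 z t
    have h6 : fderiv ℝ (fun x : B × ℝ => v (x.1, u x)) (z, t) (0, 1) =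
        fderiv ℝ v (z, u (z, t)) (0, 1) * fderiv ℝ u (z, t) (0, 1) := h4.unique h3
    rw [h6]
    exact mul_pos (hd' _) (hd _)
  · intro z y
    obtain ⟨r, hr⟩ := hs' z y
    obtain ⟨t, ht⟩ := hs z r
    refine ⟨t, ?_⟩
    change v (z, u (z, t)) = y
    have h1 : u (z, t) = r := ht
    rw [h1]
    exact hr
  · intro g x
    have h1 := he' g (x.1, u x)
    have h2 : (liftAct hl).f g (x.1, u x) =
        (((liftAct h₀).f g x).1, u ((liftAct h₀).f g x)) := by
      refine Prod.ext rfl ?_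
      exact (he g x).symm
    rw [h2] at h1
    exact h1

/-- Small perturbations are on the positive side. -/
theorem stab_pos {α : SAct H B} {R : LRep H ℝ} {l d : H → B → ℝ} (hl : IsCocy α R l)
    (hd : IsCocy α R d) (hA : PD (liftAct hl)) (hC : CC (liftAct hl)) :
    ∃ ε : ℝ, 0 < ε ∧ ∀ s : ℝ, |s| < ε → PosTo hl (fun g z => l g z + s * d g z) := by
  obtain ⟨P⟩ := exists_part hA hC
  obtain ⟨K, hK, hKc⟩ := hC
  let C : VCoc (liftAct hl) ℝ :=
    { c := R.r
      d := fun g x => d g x.1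
      cmul := R.mul
      dmul := fun g h x => hd.2 g h x.1
      dsm := fun g => (hd.1 g).comp contDiff_fst }
  let w : B × ℝ → ℝ := vavg P C 0
  have hw : ContDiff ℝ ∞ w := vavg_smooth P C 0
  have hwe : ∀ g x, w ((liftAct hl).f g x) = R.r g (w x) + d g x.1 := vavg_equi P C 0
  have hinv : ∀ g x, fderiv ℝ w ((liftAct hl).f g x) (0, 1) = fderiv ℝ w x (0, 1) := by
    rintro g ⟨z, t⟩
    have h1 := hasDerivAt_fib hw (α.f g z) (R.r g t + l g z)
    have h2 : HasDerivAt (fun r : ℝ => R.r g r + l g z) (R.r g 1) t := by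
      have h3 : HasDerivAt (fun r : ℝ => R.r g 1 * r + l g z) (R.r g 1) t := by
        simpa using ((hasDerivAt_id t).const_mul (R.r g 1)).add_const (l g z)
      have h4 : (fun r : ℝ => R.r g r + l g z) = fun r : ℝ => R.r g 1 * r + l g z := by
        funext r; rw [R.apply_eq g r]
      rw [h4]
      exact h3
    have h5 : HasDerivAt (fun r => w (α.f g z, R.r g r + l g z))
        (fderiv ℝ w (α.f g z, R.r g t + l g z) (0, 1) * R.r g 1) t :=
      HasDerivAt.comp (h₂ := fun s => w (α.f g z, s)) (h := fun r => R.r g r + l g z) t h1 h2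
    have h6 : (fun r => w (α.f g z, R.r g r + l g z)) =
        fun r => R.r g 1 * w (z, r) + d g z := by
      funext r
      have := hwe g (z, r)
      rw [R.apply_eq g (w (z, r))] at this
      exact this
    have h7 : HasDerivAt (fun r => R.r g 1 * w (z, r) + d g z)
        (R.r g 1 * fderiv ℝ w (z, t) (0, 1)) t :=
      ((hasDerivAt_fib hw z t).const_mul _).add_const _
    rw [h6] at h5
    have h8 := h5.unique h7
    rw [mul_comm] at h8
    exact mul_left_cancel₀ (R.ne_zero g) h8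
  have hcont : Continuous (fun x => |fderiv ℝ w x (0, 1)|) :=
    continuous_abs.comp ((hw.continuous_fderiv (by simp)).clm_apply continuous_const)
  obtain ⟨M, hM⟩ := hK.bddAbove_image hcont.continuousOn
  have hbd : ∀ x, |fderiv ℝ w x (0, 1)| ≤ M := by
    intro x
    obtain ⟨g, hg⟩ := hKc x
    rw [← hinv g x]
    exact hM ⟨_, hg, rfl⟩
  have hM0 : 0 ≤ M := (abs_nonneg _).trans (hbd 0)
  refine ⟨(2 * (M + 1))⁻¹, by positivity, fun s hs => ?_⟩
  have hsM : |s| * M ≤ 1 / 2 := by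
    have h1 : |s| * (2 * (M + 1)) < 1 := by
      have := mul_lt_mul_of_pos_right hs (show 0 < 2 * (M + 1) by positivity)
      rwa [inv_mul_cancel₀ (by positivity)] at this
    nlinarith [abs_nonneg s]
  have husm : ContDiff ℝ ∞ (fun x : B × ℝ => x.2 + s * w x) :=
    contDiff_snd.add (contDiff_const.mul hw)
  have hfd : ∀ x, fderiv ℝ (fun x : B × ℝ => x.2 + s * w x) x (0, 1) =
      1 + s * fderiv ℝ w x (0, 1) := by
    intro x
    have h1 : HasFDerivAt (fun x : B × ℝ => x.2 + s * w x)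
        (ContinuousLinearMap.snd ℝ B ℝ + s • fderiv ℝ w x) x :=
      hasFDerivAt_snd.add (((hw.differentiable (by simp) x).hasFDerivAt).const_mul s)
    rw [h1.fderiv]
    rfl
  have hge : ∀ x, 1 / 2 ≤ fderiv ℝ (fun x : B × ℝ => x.2 + s * w x) x (0, 1) := by
    intro x
    rw [hfd]
    have h1 : |s * fderiv ℝ w x (0, 1)| ≤ 1 / 2 := by
      rw [abs_mul]
      exact (mul_le_mul_of_nonneg_left (hbd x) (abs_nonneg s)).trans hsM
    linarith [neg_abs_le (s * fderiv ℝ w x (0, 1))]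
  refine ⟨fun x => x.2 + s * w x, husm, fun x => lt_of_lt_of_le (by norm_num) (hge x), ?_, ?_⟩
  · intro z y
    have hmono : Monotone (fun t : ℝ => (t + s * w (z, t)) - 1 / 2 * t) := by
      have hder : ∀ t, HasDerivAt (fun t : ℝ => (t + s * w (z, t)) - 1 / 2 * t)
          (fderiv ℝ (fun x : B × ℝ => x.2 + s * w x) (z, t) (0, 1) - 1 / 2) t := by
        intro t
        have h1 := hasDerivAt_fib husm z t
        have h2 : HasDerivAt (fun t : ℝ => 1 / 2 * t) (1 / 2 : ℝ) t := by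
          simpa using (hasDerivAt_id t).const_mul (1 / 2 : ℝ)
        exact h1.sub h2
      refine monotone_of_deriv_nonneg (fun t => (hder t).differentiableAt) (fun t => ?_)
      rw [(hder t).deriv]
      linarith [hge (z, t)]
    have hcont2 : Continuous (fun t : ℝ => t + s * w (z, t)) := by
      have h1 := hw.continuous
      fun_prop
    let c0 : ℝ := s * w (z, 0)
    let T : ℝ := 2 * (|y| + |c0|)
    have hT : 0 ≤ T := by positivity
    refine mem_range_of_exists_le_of_exists_ge hcont2 ⟨-T, ?_⟩ ⟨T, ?_⟩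
    · have h1 := hmono (show -T ≤ 0 by linarith)
      have h2 : (-T + s * w (z, -T)) - 1 / 2 * -T ≤ (0 + s * w (z, 0)) - 1 / 2 * 0 := h1
      have h3 : s * w (z, 0) ≤ |c0| := le_abs_self c0
      have h4 : T = 2 * (|y| + |c0|) := rfl
      linarith [neg_abs_le y]
    · have h1 := hmono hT
      have h2 : (0 + s * w (z, 0)) - 1 / 2 * 0 ≤ (T + s * w (z, T)) - 1 / 2 * T := h1
      have h3 : -|c0| ≤ s * w (z, 0) := neg_abs_le c0
      have h4 : T = 2 * (|y| + |c0|) := rfl
      linarith [le_abs_self y]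
  · intro g x
    change (R.r g x.2 + l g x.1) + s * w ((liftAct hl).f g x) =
      R.r g (x.2 + s * w x) + (l g x.1 + s * d g x.1)
    rw [hwe, R.apply_eq g x.2, R.apply_eq g (w x), R.apply_eq g (x.2 + s * w x)]
    ring

omit [FiniteDimensional ℝ B] in
/-- Changing the sign of a lift. -/
theorem crys_neg {α : SAct H B} {R : LRep H ℝ} {l : H → B → ℝ}
    (h : Crys α R (fun g z => -1 * l g z)) : Crys α R l := by
  obtain ⟨h1, hA, hC⟩ := h
  have hl : IsCocy α R l := by
    have h2 := h1.smul (-1)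
    have h3 : (fun (g : H) (z : B) => -1 * (-1 * l g z)) = l := by
      funext g z; ring
    rwa [h3] at h2
  let U : Diffeomorph 𝓘(ℝ, B × ℝ) 𝓘(ℝ, B × ℝ) (B × ℝ) (B × ℝ) ∞ :=
    { toFun := fun x => (x.1, -x.2)
      invFun := fun x => (x.1, -x.2)
      left_inv := fun x => by simp
      right_inv := fun x => by simp
      contMDiff_toFun := contMDiff_iff_contDiff.mpr (contDiff_fst.prodMk contDiff_snd.neg)
      contMDiff_invFun := contMDiff_iff_contDiff.mpr (contDiff_fst.prodMk contDiff_snd.neg) }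
  refine ⟨hl, pd_cc_of_conj hA hC U (fun g x => ?_)⟩
  change (α.f g x.1, -(R.r g x.2 + -1 * l g x.1)) = (α.f g x.1, R.r g (-x.2) + l g x.1)
  rw [R.apply_eq g x.2, R.apply_eq g (-x.2)]
  refine Prod.ext rfl ?_
  change -(R.r g 1 * x.2 + -1 * l g x.1) = R.r g 1 * -x.2 + l g x.1
  ring

/-- **The cone theorem.** If the transverse action has a crystallographic lift, the
crystallographic lifts are the disjoint union of `C` and `-C`, where `C` is a convex cone which
is open in every direction, and all of them are conjugate by diffeomorphisms over the base. -/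
theorem cone {α : SAct H B} {R : LRep H ℝ} {l₀ : H → B → ℝ} (h₀ : Crys α R l₀) :
    ∃ C : Set (H → B → ℝ),
      (∀ l ∈ C, IsCocy α R l) ∧
      (∀ l ∈ C, ∀ l' ∈ C, ∀ a b : ℝ, 0 ≤ a → 0 ≤ b → 0 < a + b →
        (fun g z => a * l g z + b * l' g z) ∈ C) ∧
      (∀ l ∈ C, ∀ d, IsCocy α R d → ∃ ε : ℝ, 0 < ε ∧ ∀ s : ℝ, |s| < ε →
        (fun g z => l g z + s * d g z) ∈ C) ∧
      (∀ l, Crys α R l ↔ l ∈ C ∨ (fun g z => -1 * l g z) ∈ C) ∧
      (∀ l ∈ C, (fun g z => -1 * l g z) ∉ C) := by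
  obtain ⟨h0, hA, hC⟩ := h₀
  refine ⟨{l | IsCocy α R l ∧ PosTo h0 l}, fun l hl => hl.1, ?_, ?_, ?_, ?_⟩
  · rintro l ⟨hl, pl⟩ l' ⟨hl', pl'⟩ a b ha hb hab
    refine ⟨?_, pl.comb pl' ha hb hab⟩
    have h1 := (hl.smul a).add_smul (hl'.smul b) 1
    simpa using h1
  · rintro l ⟨hl, pl⟩ d hd
    obtain ⟨hl', hA', hC'⟩ := pl.crys hA hC hl
    obtain ⟨ε, hε, h⟩ := stab_pos hl' hd hA' hC'
    refine ⟨ε, hε, fun s hs => ⟨?_, pl.trans (h s hs)⟩⟩
    exact hl.add_smul hd s
  · intro l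
    constructor
    · intro hl
      rcases posTo_or hA hC hl with h1 | h1
      · exact Or.inl ⟨hl.1, h1⟩
      · exact Or.inr ⟨hl.1.smul (-1), h1⟩
    · rintro (⟨hl, pl⟩ | ⟨hl, pl⟩)
      · exact pl.crys hA hC hl
      · exact crys_neg (pl.crys hA hC hl)
  · rintro l ⟨hl, pl⟩ ⟨hl', pl'⟩
    have h1 := pl.comb pl' zero_le_one zero_le_one (by norm_num)
    have h2 : (fun (g : H) (z : B) => 1 * l g z + 1 * (-1 * l g z)) = fun _ _ => 0 := by
      funext g z; ring
    rw [h2] at h1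
    refine not_crys_zero (α := α) (R := R) (h1.crys hA hC ?_)
    refine ⟨fun g => contDiff_const, fun g k z => ?_⟩
    change (0 : ℝ) = R.r g 0 + 0
    rw [map_zero, add_zero]

end

end Pool.Agent.AffRig
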