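import Pool.Agent.Lib.MP_27f33f_gt.Theta

/-!
# Transverse rigidity of affine crystallographic groups
-/

set_option autoImplicit false

namespace Pool.Agent.AffRig

open Filter Topology Set MeasureTheory
open scoped ContDiff Manifold

noncomputable section

/-- Euclidean space. -/
abbrev Eu (n : ℕ) := EuclideanSpace ℝ (Fin n)

lemma contDiff_affineMap {E F : Type*} [NormedAddCommGroup E] [NormedSpace ℝ E]
    [FiniteDimensional ℝ E] [NormedAddCommGroup F] [NormedSpace ℝ F] (g : E →ᵃ[ℝ] F) :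
    ContDiff ℝ ∞ g := by
  have h : (g : E → F) = fun x => LinearMap.toContinuousLinearMap g.linear x + g 0 := by
    funext x
    have := g.decomp
    calc g x = (g.linear : E → F) x + g 0 := congrFun this x
      _ = _ := rfl
  rw [h]
  exact (ContinuousLinearMap.contDiff _).add contDiff_const

/-- Proper discontinuity, in the form of the problem. -/
def PDA {n : ℕ} (Γ : Subgroup (Eu n ≃ᵃ[ℝ] Eu n)) : Prop :=
  ∀ K : Set (Eu n), IsCompact K →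
    {g : Eu n ≃ᵃ[ℝ] Eu n | g ∈ Γ ∧ ((fun x => g x) '' K ∩ K).Nonempty}.Finite

/-- Cocompactness, in the form of the problem. -/
def CCA {n : ℕ} (Γ : Subgroup (Eu n ≃ᵃ[ℝ] Eu n)) : Prop :=
  ∃ K : Set (Eu n), IsCompact K ∧ ∀ x : Eu n, ∃ g ∈ Γ, x ∈ (fun y => g y) '' K

/-- The smooth action of `H` through a homomorphism into affine maps. -/
def affAct {n : ℕ} {H : Type*} [Group H] (ρ : H →* (Eu n ≃ᵃ[ℝ] Eu n)) : SAct H (Eu n) where
  f := fun g x => ρ g x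
  one := fun x => by rw [map_one]; rfl
  mul := fun g h x => by rw [map_mul]; rfl
  sm := fun g => contDiff_affineMap ((ρ g : Eu n ≃ᵃ[ℝ] Eu n) : Eu n →ᵃ[ℝ] Eu n)

lemma pd_affAct {n : ℕ} {H : Type*} [Group H] {ρ : H →* (Eu n ≃ᵃ[ℝ] Eu n)}
    (hρ : Function.Injective ρ) {Γ : Subgroup (Eu n ≃ᵃ[ℝ] Eu n)} (hΓ : PDA Γ)
    (hr : ∀ g, ρ g ∈ Γ) : PD (affAct ρ) := by
  intro K hK
  refine ((hΓ K hK).preimage (f := ρ) hρ.injOn).subset ?_
  intro g hg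
  exact ⟨hr g, hg⟩

lemma cc_affAct {n : ℕ} {H : Type*} [Group H] {ρ : H →* (Eu n ≃ᵃ[ℝ] Eu n)}
    {Γ : Subgroup (Eu n ≃ᵃ[ℝ] Eu n)} (hΓ : CCA Γ)
    (hr : ∀ g ∈ Γ, ∃ k, ρ k = g) : CC (affAct ρ) := by
  obtain ⟨K, hK, h⟩ := hΓ
  refine ⟨K, hK, fun x => ?_⟩
  obtain ⟨g, hg, y, hy, hx⟩ := h x
  obtain ⟨k, rfl⟩ := hr g hg
  refine ⟨k⁻¹, ?_⟩
  have h1 : (affAct ρ).f k⁻¹ x = y := by
    rw [← hx]
    exact (affAct ρ).inv_f k y
  rw [h1]
  exact hy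

/-- Adapted coordinates for a surjective affine map onto codimension one. -/
theorem exists_coord {n : ℕ} (π : Eu (n + 1) →ᵃ[ℝ] Eu n) (hπ : Function.Surjective π) :
    ∃ (lam : Eu (n + 1) →ₗ[ℝ] ℝ) (q : Eu n × ℝ → Eu (n + 1)) (v : Eu (n + 1)),
      ContDiff ℝ ∞ q ∧ (∀ y, (π (q y), lam (q y)) = y) ∧ (∀ x, q (π x, lam x) = x) ∧
      ∀ w t, q (w, t) = q (w, 0) + t • v := by
  have hlin : Function.Surjective π.linear := by
    intro y
    obtain ⟨x, hx⟩ := hπ (y + π 0)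
    refine ⟨x, ?_⟩
    have := congrFun π.decomp x
    simp only [Pi.add_apply] at this
    rw [this] at hx
    exact add_right_cancel hx
  have hker : Module.finrank ℝ (LinearMap.ker π.linear) = 1 := by
    have h1 := LinearMap.finrank_range_add_finrank_ker π.linear
    rw [LinearMap.range_eq_top.mpr hlin, finrank_top, finrank_euclideanSpace_fin,
      finrank_euclideanSpace_fin] at h1
    omega
  obtain ⟨v0, hv0, hspan⟩ := finrank_eq_one_iff'.mp hker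
  let v : Eu (n + 1) := v0
  have hvne : v ≠ 0 := fun h => hv0 (Subtype.ext h)
  let lam : Eu (n + 1) →ₗ[ℝ] ℝ := (innerSL ℝ v : Eu (n + 1) →L[ℝ] ℝ).toLinearMap
  have hlamv : lam v ≠ 0 := by
    change inner ℝ v v ≠ 0
    rw [inner_self_ne_zero]
    exact hvne
  let Lin : Eu (n + 1) →ₗ[ℝ] (Eu n × ℝ) := π.linear.prod lam
  have hinj : Function.Injective Lin := by
    rw [← LinearMap.ker_eq_bot, LinearMap.ker_eq_bot']
    intro x hx
    have h1 : π.linear x = 0 := congrArg Prod.fst hx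
    have h2 : lam x = 0 := congrArg Prod.snd hx
    obtain ⟨c, hc⟩ := hspan ⟨x, h1⟩
    have hc' : c • v = x := congrArg Subtype.val hc
    rw [← hc', map_smul, smul_eq_mul] at h2
    rcases mul_eq_zero.mp h2 with h | h
    · rw [← hc', h, zero_smul]
    · exact absurd h hlamv
  have hdim : Module.finrank ℝ (Eu (n + 1)) = Module.finrank ℝ (Eu n × ℝ) := by
    rw [Module.finrank_prod, finrank_euclideanSpace_fin, finrank_euclideanSpace_fin,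
      Module.finrank_self]
  let e : Eu (n + 1) ≃ₗ[ℝ] (Eu n × ℝ) := LinearMap.linearEquivOfInjective Lin hinj hdim
  have he : ∀ x, e x = (π.linear x, lam x) := fun x => rfl
  have hπd : ∀ x, π x = π.linear x + π 0 := fun x => congrFun π.decomp x
  refine ⟨lam, fun y => e.symm (y - (π 0, 0)), e.symm (0, 1), ?_, ?_, ?_, ?_⟩
  · have h1 : ContDiff ℝ ∞ (e.symm : Eu n × ℝ → Eu (n + 1)) := by
      have := (LinearMap.toContinuousLinearMap (e.symm : (Eu n × ℝ) →ₗ[ℝ] Eu (n + 1))).contDiff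
        (n := ∞)
      exact this
    exact h1.comp (contDiff_id.sub contDiff_const)
  · intro y
    have h1 := e.apply_symm_apply (y - (π 0, 0))
    rw [he] at h1
    have h2 : π.linear (e.symm (y - (π 0, 0))) = y.1 - π 0 := congrArg Prod.fst h1
    have h3 : lam (e.symm (y - (π 0, 0))) = y.2 := by
      have := congrArg Prod.snd h1
      simpa using this
    rw [hπd, h2, h3, sub_add_cancel]
  · intro x
    change e.symm ((π x, lam x) - (π 0, 0)) = x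
    rw [LinearEquiv.symm_apply_eq, he, hπd]
    simp
  · intro w t
    change e.symm ((w, t) - (π 0, 0)) = e.symm ((w, 0) - (π 0, 0)) + t • e.symm (0, 1)
    rw [← map_smul, ← map_add]
    congr 1
    simp

/-- **Transverse rigidity.** -/
theorem transverse_rigidity {n : ℕ} (Γ Γ' : Subgroup (Eu (n + 1) ≃ᵃ[ℝ] Eu (n + 1)))
    (hΓp : PDA Γ) (hΓc : CCA Γ) (hΓp' : PDA Γ') (φ : Γ ≃* Γ')
    (π π' : Eu (n + 1) →ᵃ[ℝ] Eu n) (hπ : Function.Surjective π) (hπ' : Function.Surjective π')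
    (α : Γ → Eu n → Eu n) (α' : Γ' → Eu n → Eu n)
    (hα : ∀ (g : Γ) x, π ((g : Eu (n + 1) ≃ᵃ[ℝ] Eu (n + 1)) x) = α g (π x))
    (hα' : ∀ (g : Γ') x, π' ((g : Eu (n + 1) ≃ᵃ[ℝ] Eu (n + 1)) x) = α' g (π' x))
    (h : Diffeomorph 𝓘(ℝ, Eu n) 𝓘(ℝ, Eu n) (Eu n) (Eu n) ∞)
    (hh : ∀ (g : Γ) z, h (α g z) = α' (φ g) (h z)) :
    ∃ f : Diffeomorph 𝓘(ℝ, Eu (n + 1)) 𝓘(ℝ, Eu (n + 1)) (Eu (n + 1)) (Eu (n + 1)) ∞,
      (∀ x, π' (f x) = h (π x)) ∧
      ∀ (g : Γ) x, f ((g : Eu (n + 1) ≃ᵃ[ℝ] Eu (n + 1)) x) =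
        ((φ g : Γ') : Eu (n + 1) ≃ᵃ[ℝ] Eu (n + 1)) (f x) := by
  obtain ⟨lam, q, v, hq, hpq, hqp, hqv⟩ := exists_coord π hπ
  obtain ⟨lam', q', v', hq', hpq', hqp', hqv'⟩ := exists_coord π' hπ'
  let ρ : Γ →* (Eu (n + 1) ≃ᵃ[ℝ] Eu (n + 1)) := Γ.subtype
  let ρ' : Γ →* (Eu (n + 1) ≃ᵃ[ℝ] Eu (n + 1)) := Γ'.subtype.comp φ.toMonoidHom
  have hρi : Function.Injective ρ := Subtype.coe_injective
  have hρi' : Function.Injective ρ' := Subtype.coe_injective.comp φ.injective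
  have hA : PD (affAct ρ) := pd_affAct hρi hΓp (fun g => g.2)
  have hC : CC (affAct ρ) := cc_affAct hΓc (fun g hg => ⟨⟨g, hg⟩, rfl⟩)
  have hA' : PD (affAct ρ') := pd_affAct hρi' hΓp' (fun g => (φ g).2)
  have hhs : ContDiff ℝ ∞ h := contMDiff_iff_contDiff.mp h.contMDiff
  have hhs' : ContDiff ℝ ∞ h.symm := contMDiff_iff_contDiff.mp h.symm.contMDiff
  have hπs : ContDiff ℝ ∞ π := contDiff_affineMap π
  have hπs' : ContDiff ℝ ∞ π' := contDiff_affineMap π'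
  have hlams : ContDiff ℝ ∞ lam := (LinearMap.toContinuousLinearMap lam).contDiff
  have hlams' : ContDiff ℝ ∞ lam' := (LinearMap.toContinuousLinearMap lam').contDiff
  -- fst/snd forms
  have h1 : ∀ y, π (q y) = y.1 := fun y => congrArg Prod.fst (hpq y)
  have h2 : ∀ y, lam (q y) = y.2 := fun y => congrArg Prod.snd (hpq y)
  have h1' : ∀ y, π' (q' y) = y.1 := fun y => congrArg Prod.fst (hpq' y)
  have h2' : ∀ y, lam' (q' y) = y.2 := fun y => congrArg Prod.snd (hpq' y)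
  let p₁ : Eu (n + 1) → Eu n × ℝ := fun x => (h (π x), lam x)
  let q₁ : Eu n × ℝ → Eu (n + 1) := fun y => q (h.symm y.1, y.2)
  let p₂ : Eu (n + 1) → Eu n × ℝ := fun x => (π' x, lam' x)
  have hp₁ : ContDiff ℝ ∞ p₁ := (hhs.comp hπs).prodMk hlams
  have hq₁ : ContDiff ℝ ∞ q₁ := hq.comp ((hhs'.comp contDiff_fst).prodMk contDiff_snd)
  have hp₂ : ContDiff ℝ ∞ p₂ := hπs'.prodMk hlams'
  have e1 : ∀ y, p₁ (q₁ y) = y := fun y => by
    change (h (π (q (h.symm y.1, y.2))), lam (q (h.symm y.1, y.2))) = y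
    rw [h1, h2]
    exact Prod.ext (h.apply_symm_apply y.1) rfl
  have e2 : ∀ x, q₁ (p₁ x) = x := fun x => by
    change q (h.symm (h (π x)), lam x) = x
    rw [h.symm_apply_apply, hqp]
  let A := (affAct ρ).conj p₁ q₁ hp₁ hq₁ e1 e2
  let A' := (affAct ρ').conj p₂ q' hp₂ hq' hpq' hqp'
  have hF : IsFib A (fun g z => α' (φ g) z) (fun g => lam ((g : Eu (n + 1) ≃ᵃ[ℝ] Eu (n + 1)).linear v))
      (fun g z => lam ((g : Eu (n + 1) ≃ᵃ[ℝ] Eu (n + 1)) (q (h.symm z, 0)))) := by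
    rintro g ⟨z, t⟩
    change (h (π ((g : Eu (n + 1) ≃ᵃ[ℝ] Eu (n + 1)) (q (h.symm z, t)))),
      lam ((g : Eu (n + 1) ≃ᵃ[ℝ] Eu (n + 1)) (q (h.symm z, t)))) = _
    refine Prod.ext ?_ ?_
    · change h (π ((g : Eu (n + 1) ≃ᵃ[ℝ] Eu (n + 1)) (q (h.symm z, t)))) = α' (φ g) z
      rw [hα, h1, hh]
      exact congrArg _ (h.apply_symm_apply z)
    · change lam ((g : Eu (n + 1) ≃ᵃ[ℝ] Eu (n + 1)) (q (h.symm z, t))) =
        lam ((g : Eu (n + 1) ≃ᵃ[ℝ] Eu (n + 1)).linear v) * t +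
          lam ((g : Eu (n + 1) ≃ᵃ[ℝ] Eu (n + 1)) (q (h.symm z, 0)))
      have h3 : (g : Eu (n + 1) ≃ᵃ[ℝ] Eu (n + 1)) (q (h.symm z, 0) + t • v) =
          t • (g : Eu (n + 1) ≃ᵃ[ℝ] Eu (n + 1)).linear v +
            (g : Eu (n + 1) ≃ᵃ[ℝ] Eu (n + 1)) (q (h.symm z, 0)) := by
        have := (g : Eu (n + 1) ≃ᵃ[ℝ] Eu (n + 1)).map_vadd (q (h.symm z, 0)) (t • v)
        rw [map_smul, vadd_eq_add, vadd_eq_add] at this
        rw [add_comm (q (h.symm z, 0))]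
        exact this
      rw [hqv, h3, map_add, map_smul, smul_eq_mul, mul_comm]
  have hF' : IsFib A' (fun g z => α' (φ g) z)
      (fun g => lam' ((φ g : Eu (n + 1) ≃ᵃ[ℝ] Eu (n + 1)).linear v'))
      (fun g z => lam' ((φ g : Eu (n + 1) ≃ᵃ[ℝ] Eu (n + 1)) (q' (z, 0)))) := by
    rintro g ⟨z, t⟩
    change (π' ((φ g : Eu (n + 1) ≃ᵃ[ℝ] Eu (n + 1)) (q' (z, t))),
      lam' ((φ g : Eu (n + 1) ≃ᵃ[ℝ] Eu (n + 1)) (q' (z, t)))) = _
    refine Prod.ext ?_ ?_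
    · change π' ((φ g : Eu (n + 1) ≃ᵃ[ℝ] Eu (n + 1)) (q' (z, t))) = α' (φ g) z
      rw [hα', h1']
    · change lam' ((φ g : Eu (n + 1) ≃ᵃ[ℝ] Eu (n + 1)) (q' (z, t))) =
        lam' ((φ g : Eu (n + 1) ≃ᵃ[ℝ] Eu (n + 1)).linear v') * t +
          lam' ((φ g : Eu (n + 1) ≃ᵃ[ℝ] Eu (n + 1)) (q' (z, 0)))
      have h3 : (φ g : Eu (n + 1) ≃ᵃ[ℝ] Eu (n + 1)) (q' (z, 0) + t • v') =
          t • (φ g : Eu (n + 1) ≃ᵃ[ℝ] Eu (n + 1)).linear v' +
            (φ g : Eu (n + 1) ≃ᵃ[ℝ] Eu (n + 1)) (q' (z, 0)) := by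
        have := (φ g : Eu (n + 1) ≃ᵃ[ℝ] Eu (n + 1)).map_vadd (q' (z, 0)) (t • v')
        rw [map_smul, vadd_eq_add, vadd_eq_add] at this
        rw [add_comm (q' (z, 0))]
        exact this
      rw [hqv', h3, map_add, map_smul, smul_eq_mul, mul_comm]
  obtain ⟨u, w, hu, hw, huw, hwu, hue⟩ := fib_rigid hF hF' hA.conj hC.conj hA'.conj
  let U : Eu n × ℝ → Eu n × ℝ := fun y => (y.1, u y)
  let W : Eu n × ℝ → Eu n × ℝ := fun y => (y.1, w y)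
  have hU : ContDiff ℝ ∞ U := contDiff_fst.prodMk hu
  have hW : ContDiff ℝ ∞ W := contDiff_fst.prodMk hw
  have hUW : ∀ y, U (W y) = y := fun y => by
    change (y.1, u (y.1, w (y.1, y.2))) = y
    rw [huw]
  have hWU : ∀ y, W (U y) = y := fun y => by
    change (y.1, w (y.1, u (y.1, y.2))) = y
    rw [hwu]
  let f : Diffeomorph 𝓘(ℝ, Eu (n + 1)) 𝓘(ℝ, Eu (n + 1)) (Eu (n + 1)) (Eu (n + 1)) ∞ :=
    { toFun := fun x => q' (U (p₁ x))
      invFun := fun x => q₁ (W (p₂ x))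
      left_inv := fun x => by
        change q₁ (W (p₂ (q' (U (p₁ x))))) = x
        have : p₂ (q' (U (p₁ x))) = U (p₁ x) := hpq' _
        rw [this, hWU, e2]
      right_inv := fun x => by
        change q' (U (p₁ (q₁ (W (p₂ x))))) = x
        rw [e1, hUW]
        exact hqp' x
      contMDiff_toFun := contMDiff_iff_contDiff.mpr (hq'.comp (hU.comp hp₁))
      contMDiff_invFun := contMDiff_iff_contDiff.mpr (hq₁.comp (hW.comp hp₂)) }
  refine ⟨f, ?_, ?_⟩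
  · intro x
    change π' (q' (U (p₁ x))) = h (π x)
    rw [h1']
  · intro g x
    change q' (U (p₁ ((g : Eu (n + 1) ≃ᵃ[ℝ] Eu (n + 1)) x))) =
      (φ g : Eu (n + 1) ≃ᵃ[ℝ] Eu (n + 1)) (q' (U (p₁ x)))
    have h4 : p₁ ((g : Eu (n + 1) ≃ᵃ[ℝ] Eu (n + 1)) x) = A.f g (p₁ x) := by
      change _ = p₁ ((g : Eu (n + 1) ≃ᵃ[ℝ] Eu (n + 1)) (q₁ (p₁ x)))
      rw [e2]
    have h5 : U (A.f g (p₁ x)) = A'.f g (U (p₁ x)) := by
      rw [hF']
      change ((A.f g (p₁ x)).1, u (A.f g (p₁ x))) = _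
      rw [hue, hF]
    have h6 : q' (A'.f g (U (p₁ x))) = (φ g : Eu (n + 1) ≃ᵃ[ℝ] Eu (n + 1)) (q' (U (p₁ x))) := by
      change q' (p₂ ((φ g : Eu (n + 1) ≃ᵃ[ℝ] Eu (n + 1)) (q' (U (p₁ x))))) = _
      exact hqp' _
    rw [h4, h5, h6]

end

end Pool.Agent.AffRig
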