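import Pool.Agent.Lib.MP_27f33f_gt.Cone
import Pool.Agent.Lib.MP_27f33f_gt.MainA

/-!
# Topological openness of the cone of crystallographic lifts
-/

set_option autoImplicit false

namespace Pool.Agent.AffRig

open Filter Topology Set
open scoped ContDiff Manifold

noncomputable section

variable {H B : Type*} [Group H] [NormedAddCommGroup B] [NormedSpace ℝ B]

/-- Fibre derivatives of equivariant functions are invariant. -/
lemma fib_inv {α : SAct H B} {R : LRep H ℝ} {l d : H → B → ℝ} (hl : IsCocy α R l)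
    {w : B × ℝ → ℝ} (hw : ContDiff ℝ ∞ w)
    (hwe : ∀ g x, w ((liftAct hl).f g x) = R.r g (w x) + d g x.1) (g : H) (x : B × ℝ) :
    fderiv ℝ w ((liftAct hl).f g x) (0, 1) = fderiv ℝ w x (0, 1) := by
  obtain ⟨z, t⟩ := x
  have h1 := hasDerivAt_fib hw (α.f g z) (R.r g t + l g z)
  have h2 : HasDerivAt (fun r : ℝ => R.r g r + l g z) (R.r g 1) t := by
    have h3 : HasDerivAt (fun r : ℝ => R.r g 1 * r + l g z) (R.r g 1) t := by
      simpa using ((hasDerivAt_id t).const_mul (R.r g 1)).add_const (l g z)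
    have h4 : (fun r : ℝ => R.r g r + l g z) = fun r : ℝ => R.r g 1 * r + l g z := by
      funext r; rw [R.apply_eq g r]
    rw [h4]
    exact h3
  have h5 : HasDerivAt (fun r => w (α.f g z, R.r g r + l g z))
      (fderiv ℝ w (α.f g z, R.r g t + l g z) (0, 1) * R.r g 1) t :=
    HasDerivAt.comp (h₂ := fun s => w (α.f g z, s)) (h := fun r => R.r g r + l g z) t h1 h2
  have h6 : (fun r => w (α.f g z, R.r g r + l g z)) =
      fun r => R.r g 1 * w (z, r) + d g z := by
    funext r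
    have := hwe g (z, r)
    rw [R.apply_eq g (w (z, r))] at this
    exact this
  have h7 : HasDerivAt (fun r => R.r g 1 * w (z, r) + d g z)
      (R.r g 1 * fderiv ℝ w (z, t) (0, 1)) t :=
    ((hasDerivAt_fib hw z t).const_mul _).add_const _
  rw [h6] at h5
  have h8 := h5.unique h7
  rw [mul_comm] at h8
  exact mul_left_cancel₀ (R.ne_zero g) h8

/-- An equivariant function with small fibre derivative gives a positive fibre coordinate. -/
theorem posTo_of_small {α : SAct H B} {R : LRep H ℝ} {l d : H → B → ℝ} (hl : IsCocy α R l)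
    {w : B × ℝ → ℝ} (hw : ContDiff ℝ ∞ w)
    (hwe : ∀ g x, w ((liftAct hl).f g x) = R.r g (w x) + d g x.1)
    {K : Set (B × ℝ)} (hKc : ∀ x, ∃ g, (liftAct hl).f g x ∈ K)
    (hb : ∀ x ∈ K, |fderiv ℝ w x (0, 1)| ≤ 1 / 2) : PosTo hl (fun g z => l g z + d g z) := by
  have hbd : ∀ x, |fderiv ℝ w x (0, 1)| ≤ 1 / 2 := by
    intro x
    obtain ⟨g, hg⟩ := hKc x
    rw [← fib_inv hl hw hwe g x]
    exact hb _ hg
  have husm : ContDiff ℝ ∞ (fun x : B × ℝ => x.2 + w x) := contDiff_snd.add hw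
  have hfd : ∀ x, fderiv ℝ (fun x : B × ℝ => x.2 + w x) x (0, 1) =
      1 + fderiv ℝ w x (0, 1) := by
    intro x
    have h1 : HasFDerivAt (fun x : B × ℝ => x.2 + w x)
        (ContinuousLinearMap.snd ℝ B ℝ + fderiv ℝ w x) x :=
      hasFDerivAt_snd.add ((hw.differentiable (by simp) x).hasFDerivAt)
    rw [h1.fderiv]
    rfl
  have hge : ∀ x, 1 / 2 ≤ fderiv ℝ (fun x : B × ℝ => x.2 + w x) x (0, 1) := by
    intro x
    rw [hfd]
    linarith [neg_abs_le (fderiv ℝ w x (0, 1)), hbd x]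
  refine ⟨fun x => x.2 + w x, husm, fun x => lt_of_lt_of_le (by norm_num) (hge x), ?_, ?_⟩
  · intro z y
    have hmono : Monotone (fun t : ℝ => (t + w (z, t)) - 1 / 2 * t) := by
      have hder : ∀ t, HasDerivAt (fun t : ℝ => (t + w (z, t)) - 1 / 2 * t)
          (fderiv ℝ (fun x : B × ℝ => x.2 + w x) (z, t) (0, 1) - 1 / 2) t := by
        intro t
        have h1 := hasDerivAt_fib husm z t
        have h2 : HasDerivAt (fun t : ℝ => 1 / 2 * t) (1 / 2 : ℝ) t := by
          simpa using (hasDerivAt_id t).const_mul (1 / 2 : ℝ)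
        exact h1.sub h2
      refine monotone_of_deriv_nonneg (fun t => (hder t).differentiableAt) (fun t => ?_)
      rw [(hder t).deriv]
      linarith [hge (z, t)]
    have hcont2 : Continuous (fun t : ℝ => t + w (z, t)) := by
      have h1 := hw.continuous
      fun_prop
    let c0 : ℝ := w (z, 0)
    let T : ℝ := 2 * (|y| + |c0|)
    have hT : 0 ≤ T := by positivity
    refine mem_range_of_exists_le_of_exists_ge hcont2 ⟨-T, ?_⟩ ⟨T, ?_⟩
    · have h1 := hmono (show -T ≤ 0 by linarith)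
      have h2 : (-T + w (z, -T)) - 1 / 2 * -T ≤ (0 + w (z, 0)) - 1 / 2 * 0 := h1
      have h3 : w (z, 0) ≤ |c0| := le_abs_self c0
      have h4 : T = 2 * (|y| + |c0|) := rfl
      linarith [neg_abs_le y]
    · have h1 := hmono hT
      have h2 : (0 + w (z, 0)) - 1 / 2 * 0 ≤ (T + w (z, T)) - 1 / 2 * T := h1
      have h3 : -|c0| ≤ w (z, 0) := neg_abs_le c0
      have h4 : T = 2 * (|y| + |c0|) := rfl
      linarith [le_abs_self y]
  · intro g x
    change (R.r g x.2 + l g x.1) + w ((liftAct hl).f g x) =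
      R.r g (x.2 + w x) + (l g x.1 + d g x.1)
    rw [hwe, R.apply_eq g x.2, R.apply_eq g (w x), R.apply_eq g (x.2 + w x)]
    ring

variable [FiniteDimensional ℝ B]

/-- **Uniform stability**: finitely many group elements and a compact set decide. -/
theorem stab_unif {α : SAct H B} {R : LRep H ℝ} {l : H → B → ℝ} (hl : IsCocy α R l)
    (hA : PD (liftAct hl)) (hC : CC (liftAct hl)) :
    ∃ (S : Set H) (Z : Set B) (ε : ℝ), S.Finite ∧ IsCompact Z ∧ 0 < ε ∧
      ∀ d, IsCocy α R d → (∀ g ∈ S, ∀ z ∈ Z, |d g z| ≤ ε) →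
        PosTo hl (fun g z => l g z + d g z) := by
  obtain ⟨P⟩ := exists_part hA hC
  obtain ⟨K, hK, hKc⟩ := hC
  let φ : H → B × ℝ → ℝ := fun g x => P.w ((liftAct hl).f g x)
  have hφ : ∀ g, ContDiff ℝ ∞ (φ g) := fun g => P.sm.comp ((liftAct hl).sm g)
  have hloc : LocallyFinite fun g => closure (Function.support (φ g)) := P.loc.closure
  have hfin : {g | (closure (Function.support (φ g)) ∩ K).Nonempty}.Finite :=
    hloc.finite_nonempty_inter_compact hK
  let S₀ : Finset H := hfin.toFinset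
  have hS₀ : ∀ g x, x ∈ K → x ∈ closure (Function.support (φ g)) → g ∈ S₀ := by
    intro g x hx hxs
    exact hfin.mem_toFinset.mpr ⟨x, hxs, hx⟩
  have hcont : ∀ g, Continuous (fun x => |fderiv ℝ (φ g) x (0, 1)|) := fun g =>
    continuous_abs.comp (((hφ g).continuous_fderiv (by simp)).clm_apply continuous_const)
  have hM : ∀ g, ∃ M : ℝ, ∀ x ∈ K, |fderiv ℝ (φ g) x (0, 1)| ≤ M := by
    intro g
    obtain ⟨M, hM⟩ := hK.bddAbove_image (hcont g).continuousOn
    exact ⟨M, fun x hx => hM ⟨x, hx, rfl⟩⟩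
  choose M hM using hM
  let N : ℝ := ∑ g ∈ S₀, |M g|
  have hN : 0 ≤ N := Finset.sum_nonneg (fun g _ => abs_nonneg _)
  refine ⟨(fun g => g⁻¹) '' (S₀ : Set H), ⋃ g ∈ (S₀ : Set H), α.f g '' (Prod.fst '' K),
    (2 * (N + 1))⁻¹, S₀.finite_toSet.image _,
    S₀.finite_toSet.isCompact_biUnion (fun g _ =>
      (hK.image continuous_fst).image (α.cont g)), by positivity, fun d hd hsm => ?_⟩
  let C : VCoc (liftAct hl) ℝ :=
    { c := R.r
      d := fun g x => d g x.1
      cmul := R.mul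
      dmul := fun g h x => hd.2 g h x.1
      dsm := fun g => (hd.1 g).comp contDiff_fst }
  let w : B × ℝ → ℝ := vavg P C 0
  have hw : ContDiff ℝ ∞ w := vavg_smooth P C 0
  have hwe : ∀ g x, w ((liftAct hl).f g x) = R.r g (w x) + d g x.1 := vavg_equi P C 0
  refine posTo_of_small hl hw hwe hKc ?_
  rintro ⟨z, t⟩ hx
  -- near the point the section is a finite sum over the fixed finite set
  have hev : ∀ᶠ y in 𝓝 ((z, t) : B × ℝ), w y = ∑ g ∈ S₀, φ g y * d g⁻¹ (α.f g y.1) := by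
    filter_upwards [hloc.eventually_subset (fun g => isClosed_closure) ((z, t) : B × ℝ)]
      with y hy
    have h1 : w y = ∑ᶠ g, φ g y * d g⁻¹ (α.f g y.1) := by
      refine finsum_congr (fun g => ?_)
      change φ g y • (R.r g⁻¹ 0 + d g⁻¹ (α.f g y.1)) = _
      rw [map_zero, zero_add, smul_eq_mul]
    rw [h1]
    refine finsum_eq_sum_of_support_subset _ ?_
    intro g hg
    refine hS₀ g (z, t) hx (hy ?_)
    refine subset_closure ?_
    intro h0
    apply hg
    change φ g y * _ = 0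
    rw [h0, zero_mul]
  have hevt : ∀ᶠ s in 𝓝 t, w (z, s) = ∑ g ∈ S₀, φ g (z, s) * d g⁻¹ (α.f g z) := by
    have hc : Tendsto (fun s : ℝ => ((z, s) : B × ℝ)) (𝓝 t) (𝓝 (z, t)) :=
      (Continuous.prodMk_right z).tendsto t
    exact hc.eventually hev
  have hder : HasDerivAt (fun s => ∑ g ∈ S₀, φ g (z, s) * d g⁻¹ (α.f g z))
      (∑ g ∈ S₀, fderiv ℝ (φ g) (z, t) (0, 1) * d g⁻¹ (α.f g z)) t := by
    refine HasDerivAt.fun_sum (fun g _ => ?_)
    exact (hasDerivAt_fib (hφ g) z t).mul_const _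
  have hder2 : HasDerivAt (fun s => w (z, s))
      (∑ g ∈ S₀, fderiv ℝ (φ g) (z, t) (0, 1) * d g⁻¹ (α.f g z)) t :=
    hder.congr_of_eventuallyEq hevt
  rw [(hasDerivAt_fib hw z t).unique hder2]
  have hε : ∀ g ∈ S₀, |d g⁻¹ (α.f g z)| ≤ (2 * (N + 1))⁻¹ := by
    intro g hg
    refine hsm g⁻¹ ⟨g, hg, rfl⟩ _ ?_
    exact mem_iUnion₂.mpr ⟨g, hg, ⟨z, ⟨(z, t), hx, rfl⟩, rfl⟩⟩
  calc |∑ g ∈ S₀, fderiv ℝ (φ g) (z, t) (0, 1) * d g⁻¹ (α.f g z)|
      ≤ ∑ g ∈ S₀, |fderiv ℝ (φ g) (z, t) (0, 1) * d g⁻¹ (α.f g z)| :=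
        Finset.abs_sum_le_sum_abs _ _
    _ ≤ ∑ g ∈ S₀, |M g| * (2 * (N + 1))⁻¹ := by
        refine Finset.sum_le_sum (fun g hg => ?_)
        rw [abs_mul]
        exact mul_le_mul ((hM g _ hx).trans (le_abs_self _)) (hε g hg) (abs_nonneg _)
          (abs_nonneg _)
    _ = N * (2 * (N + 1))⁻¹ := (Finset.sum_mul _ _ _).symm
    _ ≤ 1 / 2 := by
        rw [mul_inv_le_iff₀ (by positivity)]
        linarith

end

end Pool.Agent.AffRig
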