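import Mathlib

/-!
# Fibrewise inversion of a smooth function with non-vanishing fibre derivative
-/

set_option autoImplicit false

namespace Pool.Agent.AffRig

open Filter Topology Set
open scoped ContDiff

noncomputable section

variable {B : Type*} [NormedAddCommGroup B] [NormedSpace ℝ B]

/-- The fibre derivative. -/
lemma hasDerivAt_fib {u : B × ℝ → ℝ} (hu : ContDiff ℝ ∞ u) (z : B) (t : ℝ) :
    HasDerivAt (fun r => u (z, r)) (fderiv ℝ u (z, t) (0, 1)) t := by
  have h1 : HasFDerivAt u (fderiv ℝ u (z, t)) (z, t) :=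
    (hu.differentiable (by simp)).differentiableAt.hasFDerivAt
  have h2 : HasDerivAt (fun r : ℝ => ((z, r) : B × ℝ)) ((0 : B), (1 : ℝ)) t :=
    (hasDerivAt_const t z).prodMk (hasDerivAt_id t)
  exact h1.comp_hasDerivAt t h2

/-- The invertible block triangular map. -/
def triEquiv (L : B × ℝ →L[ℝ] ℝ) (hc : L (0, 1) ≠ 0) : (B × ℝ) ≃L[ℝ] (B × ℝ) :=
  ContinuousLinearEquiv.equivOfInverse
    ((ContinuousLinearMap.fst ℝ B ℝ).prod L)
    ((ContinuousLinearMap.fst ℝ B ℝ).prod ((L (0, 1))⁻¹ •
      (ContinuousLinearMap.snd ℝ B ℝ - L.comp ((ContinuousLinearMap.inl ℝ B ℝ).comp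
        (ContinuousLinearMap.fst ℝ B ℝ)))))
    (by
      rintro ⟨z, t⟩
      have h : L (z, t) = L (z, 0) + t * L (0, 1) := by
        have : ((z, t) : B × ℝ) = (z, 0) + t • (0, 1) := by simp
        rw [this, map_add, map_smul, smul_eq_mul]
      simp only [ContinuousLinearMap.prod_apply, ContinuousLinearMap.coe_fst',
        _root_.smul_apply, _root_.sub_apply,
        ContinuousLinearMap.coe_snd', ContinuousLinearMap.comp_apply,
        ContinuousLinearMap.inl_apply, smul_eq_mul, h]
      congr 1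
      field_simp
      ring)
    (by
      rintro ⟨z, t⟩
      simp only [ContinuousLinearMap.prod_apply, ContinuousLinearMap.coe_fst',
        _root_.smul_apply, _root_.sub_apply,
        ContinuousLinearMap.coe_snd', ContinuousLinearMap.comp_apply,
        ContinuousLinearMap.inl_apply, smul_eq_mul]
      have h : ∀ s, L (z, s) = L (z, 0) + s * L (0, 1) := by
        intro s
        have : ((z, s) : B × ℝ) = (z, 0) + s • (0, 1) := by simp
        rw [this, map_add, map_smul, smul_eq_mul]
      rw [h]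
      congr 1
      field_simp
      ring)

/-- Fibrewise inversion. -/
theorem exists_fib_inverse [FiniteDimensional ℝ B] {u : B × ℝ → ℝ} (hu : ContDiff ℝ ∞ u)
    (hd : ∀ x, fderiv ℝ u x (0, 1) ≠ 0) (hs : ∀ z, Function.Surjective (fun t => u (z, t))) :
    ∃ v : B × ℝ → ℝ, ContDiff ℝ ∞ v ∧ (∀ z s, u (z, v (z, s)) = s) ∧
      ∀ z t, v (z, u (z, t)) = t := by
  let Φ : B × ℝ → B × ℝ := fun x => (x.1, u x)
  have hΦ : ContDiff ℝ ∞ Φ := contDiff_fst.prodMk hu
  have hinj0 : ∀ z, Function.Injective (fun t => u (z, t)) := by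
    have key : ∀ z t1 t2, t1 < t2 → u (z, t1) ≠ u (z, t2) := by
      intro z t1 t2 hlt he
      have hcont : ContinuousOn (fun t => u (z, t)) (Icc t1 t2) :=
        (hu.continuous.comp (by fun_prop)).continuousOn
      obtain ⟨c, -, hc⟩ := exists_hasDerivAt_eq_zero hlt hcont he
        (fun t _ => hasDerivAt_fib hu z t)
      exact hd _ hc
    intro z t1 t2 he
    rcases lt_trichotomy t1 t2 with h | h | h
    · exact absurd he (key z t1 t2 h)
    · exact h
    · exact absurd he.symm (key z t2 t1 h)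
  have hbij : Function.Bijective Φ := by
    constructor
    · rintro ⟨z, t⟩ ⟨z', t'⟩ h
      have h1 : z = z' := congrArg Prod.fst h
      subst h1
      have h2 : u (z, t) = u (z, t') := congrArg Prod.snd h
      rw [hinj0 z h2]
    · rintro ⟨z, s⟩
      obtain ⟨t, ht⟩ := hs z s
      exact ⟨(z, t), Prod.ext rfl ht⟩
  have hder : ∀ x, HasStrictFDerivAt Φ (triEquiv (fderiv ℝ u x) (hd x) : (B × ℝ) →L[ℝ] (B × ℝ)) x := by
    intro x
    have h1 : HasStrictFDerivAt u (fderiv ℝ u x) x := hu.contDiffAt.hasStrictFDerivAt (by simp)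
    exact (hasStrictFDerivAt_fst).prodMk h1
  have hopen : IsOpenMap Φ := by
    rw [isOpenMap_iff_nhds_le]
    intro x
    exact ((hder x).map_nhds_eq_of_equiv).ge
  let e : (B × ℝ) ≃ₜ (B × ℝ) :=
    (Equiv.ofBijective Φ hbij).toHomeomorphOfContinuousOpen hΦ.continuous hopen
  have he : ∀ x, e x = Φ x := fun x => rfl
  have hsm : ContDiff ℝ ∞ e.symm :=
    e.contDiff_symm (f₀' := fun x => triEquiv (fderiv ℝ u x) (hd x))
      (fun x => (hder x).hasFDerivAt) hΦ
  have hfst : ∀ y, (e.symm y).1 = y.1 := by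
    intro y
    have h1 : e (e.symm y) = y := e.apply_symm_apply y
    rw [he] at h1
    have h2 := congrArg Prod.fst h1
    exact h2
  have hsnd : ∀ y, u (e.symm y) = y.2 := by
    intro y
    have h1 : e (e.symm y) = y := e.apply_symm_apply y
    rw [he] at h1
    have h2 := congrArg Prod.snd h1
    exact h2
  refine ⟨fun y => (e.symm y).2, contDiff_snd.comp hsm, ?_, ?_⟩
  · intro z s
    have h2 : ((z, (e.symm (z, s)).2) : B × ℝ) = e.symm (z, s) := Prod.ext (hfst (z, s)).symm rfl
    change u (z, (e.symm (z, s)).2) = s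
    rw [h2, hsnd]
  · intro z t
    have h2 : e.symm (z, u (z, t)) = (z, t) := by
      rw [Homeomorph.symm_apply_eq]
      rfl
    change (e.symm (z, u (z, t))).2 = t
    rw [h2]

end

end Pool.Agent.AffRig
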