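import Pool.Agent.Lib.MP_27f33f_gt.Lift
import Pool.Agent.Lib.MP_27f33f_gt.Avg

/-!
# Transverse rigidity: immersions of leaf spaces, virtual affine intertwiners
-/

set_option autoImplicit false

namespace Pool.Agent.AffRig

open Filter Topology Set MeasureTheory
open scoped ContDiff Manifold

noncomputable section

section smooth

variable {n : ℕ} {Γ Γ' : Subgroup (Eu (n + 1) ≃ᵃ[ℝ] Eu (n + 1))}

/-- Smooth line fibrations: properness and lifting. -/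
theorem smooth_lift (hΓp : PDA Γ) (hΓc : CCA Γ) (hΓp' : PDA Γ') (hΓc' : CCA Γ') (φ : Γ ≃* Γ')
    (Ψ Ψ' : Diffeomorph 𝓘(ℝ, Eu (n + 1)) 𝓘(ℝ, Eu n × ℝ) (Eu (n + 1)) (Eu n × ℝ) ∞)
    (α : Γ → Eu n → Eu n) (α' : Γ' → Eu n → Eu n)
    (hα : ∀ (g : Γ) x, (Ψ ((g : Eu (n + 1) ≃ᵃ[ℝ] Eu (n + 1)) x)).1 = α g (Ψ x).1)
    (hα' : ∀ (g : Γ') x, (Ψ' ((g : Eu (n + 1) ≃ᵃ[ℝ] Eu (n + 1)) x)).1 = α' g (Ψ' x).1)
    (h : Eu n → Eu n) (hh : ContDiff ℝ ∞ h)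
    (he : ∀ (g : Γ) z, h (α g z) = α' (φ g) (h z)) :
    (∃ F : Eu (n + 1) → Eu (n + 1), ContDiff ℝ ∞ F ∧ (∀ x, (Ψ' (F x)).1 = h (Ψ x).1) ∧
      ∀ (g : Γ) x, F ((g : Eu (n + 1) ≃ᵃ[ℝ] Eu (n + 1)) x) =
          ((φ g : Γ') : Eu (n + 1) ≃ᵃ[ℝ] Eu (n + 1)) (F x)) ∧
    (∀ K : Set (Eu n), IsCompact K → IsCompact (h ⁻¹' K)) ∧
    ∀ r : Eu n → Eu n, ContDiff ℝ ∞ r → (∀ z, r (h z) = z) → (∀ z, h (r z) = z) →
      ∃ f : Diffeomorph 𝓘(ℝ, Eu (n + 1)) 𝓘(ℝ, Eu (n + 1)) (Eu (n + 1)) (Eu (n + 1)) ∞,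
        (∀ x, (Ψ' (f x)).1 = h (Ψ x).1) ∧
        ∀ (g : Γ) x, f ((g : Eu (n + 1) ≃ᵃ[ℝ] Eu (n + 1)) x) =
          ((φ g : Γ') : Eu (n + 1) ≃ᵃ[ℝ] Eu (n + 1)) (f x) := by
  let ρ : Γ →* (Eu (n + 1) ≃ᵃ[ℝ] Eu (n + 1)) := Γ.subtype
  let ρ' : Γ →* (Eu (n + 1) ≃ᵃ[ℝ] Eu (n + 1)) := Γ'.subtype.comp φ.toMonoidHom
  have hρi : Function.Injective ρ := Subtype.coe_injective
  have hρi' : Function.Injective ρ' := Subtype.coe_injective.comp φ.injective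
  have hA : PD (affAct ρ) := pd_affAct hρi hΓp (fun g => g.2)
  have hC : CC (affAct ρ) := cc_affAct hΓc (fun g hg => ⟨⟨g, hg⟩, rfl⟩)
  have hA' : PD (affAct ρ') := pd_affAct hρi' hΓp' (fun g => (φ g).2)
  have hC' : CC (affAct ρ') := cc_affAct hΓc' (fun g hg => ⟨φ.symm ⟨g, hg⟩, by
    change ((φ (φ.symm ⟨g, hg⟩) : Γ') : Eu (n + 1) ≃ᵃ[ℝ] Eu (n + 1)) = g
    rw [φ.apply_symm_apply]⟩)
  have hp : ContDiff ℝ ∞ Ψ := contMDiff_iff_contDiff.mp Ψ.contMDiff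
  have hq : ContDiff ℝ ∞ Ψ.symm := contMDiff_iff_contDiff.mp Ψ.symm.contMDiff
  have hp' : ContDiff ℝ ∞ Ψ' := contMDiff_iff_contDiff.mp Ψ'.contMDiff
  have hq' : ContDiff ℝ ∞ Ψ'.symm := contMDiff_iff_contDiff.mp Ψ'.symm.contMDiff
  have e1 : ∀ y, Ψ (Ψ.symm y) = y := fun y => Ψ.apply_symm_apply y
  have e2 : ∀ x, Ψ.symm (Ψ x) = x := fun x => Ψ.symm_apply_apply x
  have e1' : ∀ y, Ψ' (Ψ'.symm y) = y := fun y => Ψ'.apply_symm_apply y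
  have e2' : ∀ x, Ψ'.symm (Ψ' x) = x := fun x => Ψ'.symm_apply_apply x
  let A := (affAct ρ).conj Ψ Ψ.symm hp hq e1 e2
  let A' := (affAct ρ').conj Ψ' Ψ'.symm hp' hq' e1' e2'
  have hβ : ∀ g x, (A.f g x).1 = α g x.1 := by
    intro g x
    change (Ψ ((g : Eu (n + 1) ≃ᵃ[ℝ] Eu (n + 1)) (Ψ.symm x))).1 = α g x.1
    rw [hα, e1]
  have hβ' : ∀ g x, (A'.f g x).1 = (fun g z => α' (φ g) z) g x.1 := by
    intro g x
    change (Ψ' ((φ g : Eu (n + 1) ≃ᵃ[ℝ] Eu (n + 1)) (Ψ'.symm x))).1 = α' (φ g) x.1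
    rw [hα', e1']
  obtain ⟨u, w, hu, hw, huw, hwu, hue⟩ :=
    gen_lift hβ hβ' hA.conj hC.conj hA'.conj hC'.conj h hh he
  let U : Eu n × ℝ → Eu n × ℝ := fun y => (h y.1, u y)
  have hU : ContDiff ℝ ∞ U := (hh.comp contDiff_fst).prodMk hu
  have hcov : ∀ x, (Ψ' (Ψ'.symm (U (Ψ x)))).1 = h (Ψ x).1 := fun x => by rw [e1']
  have heqU : ∀ (g : Γ) x, Ψ'.symm (U (Ψ ((g : Eu (n + 1) ≃ᵃ[ℝ] Eu (n + 1)) x))) =
      (φ g : Eu (n + 1) ≃ᵃ[ℝ] Eu (n + 1)) (Ψ'.symm (U (Ψ x))) := by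
    intro g x
    have h4 : Ψ ((g : Eu (n + 1) ≃ᵃ[ℝ] Eu (n + 1)) x) = A.f g (Ψ x) := by
      change _ = Ψ ((g : Eu (n + 1) ≃ᵃ[ℝ] Eu (n + 1)) (Ψ.symm (Ψ x)))
      rw [e2]
    have h5 : U (A.f g (Ψ x)) = A'.f g (U (Ψ x)) := hue g (Ψ x)
    have h6 : Ψ'.symm (A'.f g (U (Ψ x))) =
        (φ g : Eu (n + 1) ≃ᵃ[ℝ] Eu (n + 1)) (Ψ'.symm (U (Ψ x))) := e2' _
    rw [h4, h5, h6]
  refine ⟨⟨fun x => Ψ'.symm (U (Ψ x)), hq'.comp (hU.comp hp), hcov, heqU⟩,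
    fun K hK => base_proper hC.conj hA'.conj hh hu huw hue hK, ?_⟩
  intro r hr hrh hhr
  let W : Eu n × ℝ → Eu n × ℝ := fun y => (r y.1, w (r y.1, y.2))
  have hrf : ContDiff ℝ ∞ (fun y : Eu n × ℝ => r y.1) := hr.comp contDiff_fst
  have hW : ContDiff ℝ ∞ W := hrf.prodMk (hw.comp (hrf.prodMk contDiff_snd))
  have hUW : ∀ y, U (W y) = y := fun y => by
    change (h (r y.1), u (r y.1, w (r y.1, y.2))) = y
    rw [huw, hhr]
  have hWU : ∀ y, W (U y) = y := fun y => by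
    change (r (h y.1), w (r (h y.1), u (y.1, y.2))) = y
    rw [hrh, hwu]
  let f : Diffeomorph 𝓘(ℝ, Eu (n + 1)) 𝓘(ℝ, Eu (n + 1)) (Eu (n + 1)) (Eu (n + 1)) ∞ :=
    { toFun := fun x => Ψ'.symm (U (Ψ x))
      invFun := fun x => Ψ.symm (W (Ψ' x))
      left_inv := fun x => by
        change Ψ.symm (W (Ψ' (Ψ'.symm (U (Ψ x))))) = x
        rw [e1', hWU, e2]
      right_inv := fun x => by
        change Ψ'.symm (U (Ψ (Ψ.symm (W (Ψ' x))))) = x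
        rw [e1, hUW, e2']
      contMDiff_toFun := contMDiff_iff_contDiff.mpr (hq'.comp (hU.comp hp))
      contMDiff_invFun := contMDiff_iff_contDiff.mpr (hq.comp (hW.comp hp')) }
  exact ⟨f, hcov, heqU⟩

/-- An injective derivative is invertible. -/
lemma exists_equiv_of_injective {m : ℕ} {L : Eu m →L[ℝ] Eu m} (hL : Function.Injective L) :
    ∃ e : Eu m ≃L[ℝ] Eu m, L = e := by
  refine ⟨(LinearEquiv.ofInjectiveEndo (L : Eu m →ₗ[ℝ] Eu m) hL).toContinuousLinearEquiv, ?_⟩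
  ext1 x
  rfl

/-- **Transverse rigidity for immersions of the leaf spaces.** -/
theorem smooth_rigid (hΓp : PDA Γ) (hΓc : CCA Γ) (hΓp' : PDA Γ') (hΓc' : CCA Γ') (φ : Γ ≃* Γ')
    (Ψ Ψ' : Diffeomorph 𝓘(ℝ, Eu (n + 1)) 𝓘(ℝ, Eu n × ℝ) (Eu (n + 1)) (Eu n × ℝ) ∞)
    (α : Γ → Eu n → Eu n) (α' : Γ' → Eu n → Eu n)
    (hα : ∀ (g : Γ) x, (Ψ ((g : Eu (n + 1) ≃ᵃ[ℝ] Eu (n + 1)) x)).1 = α g (Ψ x).1)
    (hα' : ∀ (g : Γ') x, (Ψ' ((g : Eu (n + 1) ≃ᵃ[ℝ] Eu (n + 1)) x)).1 = α' g (Ψ' x).1)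
    (h : Eu n → Eu n) (hh : ContDiff ℝ ∞ h) (hi : ∀ z, Function.Injective (fderiv ℝ h z))
    (he : ∀ (g : Γ) z, h (α g z) = α' (φ g) (h z)) :
    Function.Bijective h ∧
    ∃ f : Diffeomorph 𝓘(ℝ, Eu (n + 1)) 𝓘(ℝ, Eu (n + 1)) (Eu (n + 1)) (Eu (n + 1)) ∞,
      (∀ x, (Ψ' (f x)).1 = h (Ψ x).1) ∧
      ∀ (g : Γ) x, f ((g : Eu (n + 1) ≃ᵃ[ℝ] Eu (n + 1)) x) =
        ((φ g : Γ') : Eu (n + 1) ≃ᵃ[ℝ] Eu (n + 1)) (f x) := by
  obtain ⟨-, hpr, hli⟩ := smooth_lift hΓp hΓc hΓp' hΓc' φ Ψ Ψ' α α' hα hα' h hh he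
  obtain ⟨r, hr, h1, h2⟩ := exists_inverse_of_proper hh
    (fun x => exists_equiv_of_injective (hi x)) hpr
  exact ⟨⟨Function.LeftInverse.injective h1, Function.RightInverse.surjective h2⟩, hli r hr h1 h2⟩

end smooth

/-- Coordinates adapted to a surjective affine map onto codimension one. -/
theorem exists_coord_diffeo {n : ℕ} (π : Eu (n + 1) →ᵃ[ℝ] Eu n) (hπ : Function.Surjective π) :
    ∃ Ψ : Diffeomorph 𝓘(ℝ, Eu (n + 1)) 𝓘(ℝ, Eu n × ℝ) (Eu (n + 1)) (Eu n × ℝ) ∞,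
      ∀ x, (Ψ x).1 = π x := by
  obtain ⟨lam, q, v, hq, hpq, hqp, -⟩ := exists_coord π hπ
  have hπs : ContDiff ℝ ∞ π := contDiff_affineMap π
  have hlams : ContDiff ℝ ∞ lam := (LinearMap.toContinuousLinearMap lam).contDiff
  exact ⟨{ toFun := fun x => (π x, lam x)
           invFun := q
           left_inv := hqp
           right_inv := hpq
           contMDiff_toFun := contMDiff_iff_contDiff.mpr (hπs.prodMk hlams)
           contMDiff_invFun := contMDiff_iff_contDiff.mpr hq }, fun x => rfl⟩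

section affine

variable {m n : ℕ} {Γ Γ' : Subgroup (Eu m ≃ᵃ[ℝ] Eu m)}

/-- Affine fibrations with fibres of dimension at most one: properness and lifting. -/
theorem affine_lift (hmn : m ≤ n + 1) (hΓp : PDA Γ) (hΓc : CCA Γ) (hΓp' : PDA Γ') (hΓc' : CCA Γ')
    (φ : Γ ≃* Γ') (π π' : Eu m →ᵃ[ℝ] Eu n) (hπ : Function.Surjective π)
    (hπ' : Function.Surjective π') (α : Γ → Eu n → Eu n) (α' : Γ' → Eu n → Eu n)
    (hα : ∀ (g : Γ) x, π ((g : Eu m ≃ᵃ[ℝ] Eu m) x) = α g (π x))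
    (hα' : ∀ (g : Γ') x, π' ((g : Eu m ≃ᵃ[ℝ] Eu m) x) = α' g (π' x))
    (h : Eu n → Eu n) (hh : ContDiff ℝ ∞ h)
    (he : ∀ (g : Γ) z, h (α g z) = α' (φ g) (h z)) :
    (∃ F : Eu m → Eu m, ContDiff ℝ ∞ F ∧ (∀ x, π' (F x) = h (π x)) ∧
      ∀ (g : Γ) x, F ((g : Eu m ≃ᵃ[ℝ] Eu m) x) = ((φ g : Γ') : Eu m ≃ᵃ[ℝ] Eu m) (F x)) ∧
    (∀ K : Set (Eu n), IsCompact K → IsCompact (h ⁻¹' K)) ∧
    ∀ r : Eu n → Eu n, ContDiff ℝ ∞ r → (∀ z, r (h z) = z) → (∀ z, h (r z) = z) →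
      ∃ f : Diffeomorph 𝓘(ℝ, Eu m) 𝓘(ℝ, Eu m) (Eu m) (Eu m) ∞,
        (∀ x, π' (f x) = h (π x)) ∧
        ∀ (g : Γ) x, f ((g : Eu m ≃ᵃ[ℝ] Eu m) x) = ((φ g : Γ') : Eu m ≃ᵃ[ℝ] Eu m) (f x) := by
  have hlin : ∀ p : Eu m →ᵃ[ℝ] Eu n, Function.Surjective p → Function.Surjective p.linear :=
    fun p hp => (AffineMap.linear_surjective_iff p).mpr hp
  have hnm : n ≤ m := by
    have h1 := LinearMap.finrank_range_le π.linear
    rwa [LinearMap.range_eq_top.mpr (hlin π hπ), finrank_top, finrank_euclideanSpace_fin,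
      finrank_euclideanSpace_fin] at h1
  rcases Nat.lt_or_ge n m with hlt | hge
  · obtain rfl : m = n + 1 := by omega
    obtain ⟨Ψ, hΨ⟩ := exists_coord_diffeo π hπ
    obtain ⟨Ψ', hΨ'⟩ := exists_coord_diffeo π' hπ'
    obtain ⟨⟨F, hF1, hF2, hF3⟩, h1, h2⟩ := smooth_lift hΓp hΓc hΓp' hΓc' φ Ψ Ψ' α α'
      (fun g x => by rw [hΨ, hΨ, hα]) (fun g x => by rw [hΨ', hΨ', hα']) h hh he
    refine ⟨⟨F, hF1, fun x => ?_, hF3⟩, h1, fun r hr hrh hhr => ?_⟩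
    · have := hF2 x
      rwa [hΨ, hΨ'] at this
    obtain ⟨f, hf1, hf2⟩ := h2 r hr hrh hhr
    refine ⟨f, fun x => ?_, hf2⟩
    have := hf1 x
    rwa [hΨ, hΨ'] at this
  · obtain rfl : m = n := by omega
    have hfr : Module.finrank ℝ (Eu m) = Module.finrank ℝ (Eu m) := rfl
    have equivOf : ∀ p : Eu m →ᵃ[ℝ] Eu m, Function.Surjective p →
        ∃ s : Eu m →ᵃ[ℝ] Eu m, (∀ x, s (p x) = x) ∧ ∀ x, p (s x) = x := by
      intro p hp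
      have hinj : Function.Injective p := by
        have h1 : Function.Injective p.linear :=
          LinearMap.injective_iff_surjective.mpr (hlin p hp)
        exact (AffineMap.linear_injective_iff p).mp h1
      let e := AffineEquiv.ofBijective (φ := p) ⟨hinj, hp⟩
      refine ⟨(e.symm : Eu m →ᵃ[ℝ] Eu m), fun x => e.symm_apply_apply x,
        fun x => e.apply_symm_apply x⟩
    obtain ⟨s, hs1, hs2⟩ := equivOf π hπ
    obtain ⟨s', hs1', hs2'⟩ := equivOf π' hπ'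
    let ρ : Γ →* (Eu m ≃ᵃ[ℝ] Eu m) := Γ.subtype
    let ρ' : Γ →* (Eu m ≃ᵃ[ℝ] Eu m) := Γ'.subtype.comp φ.toMonoidHom
    have hρi' : Function.Injective ρ' := Subtype.coe_injective.comp φ.injective
    have hC : CC (affAct ρ) := cc_affAct hΓc (fun g hg => ⟨⟨g, hg⟩, rfl⟩)
    have hA' : PD (affAct ρ') := pd_affAct hρi' hΓp' (fun g => (φ g).2)
    have hπs : ContDiff ℝ ∞ π := contDiff_affineMap π
    have hπs' : ContDiff ℝ ∞ π' := contDiff_affineMap π'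
    have hss : ContDiff ℝ ∞ s := contDiff_affineMap s
    have hss' : ContDiff ℝ ∞ s' := contDiff_affineMap s'
    have heq : ∀ (g : Γ) x, s' (h (π ((g : Eu m ≃ᵃ[ℝ] Eu m) x))) =
        ((φ g : Γ') : Eu m ≃ᵃ[ℝ] Eu m) (s' (h (π x))) := by
      intro g x
      rw [hα, he]
      have h1 := hα' (φ g) (s' (h (π x)))
      rw [hs2'] at h1
      rw [← h1, hs1']
    refine ⟨⟨fun x => s' (h (π x)), hss'.comp (hh.comp hπs), fun x => hs2' _, heq⟩,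
      fun K hK => ?_, fun r hr hrh hhr => ?_⟩
    · have h1 : IsCompact ((fun x => s' (h (π x))) ⁻¹' (s' '' K)) :=
        proper_of_equivariant (A := affAct ρ) (A' := affAct ρ') hC hA'
          (hss'.continuous.comp (hh.continuous.comp hπs.continuous)) heq (hK.image hss'.continuous)
      have h2 : h ⁻¹' K = π '' ((fun x => s' (h (π x))) ⁻¹' (s' '' K)) := by
        ext z
        constructor
        · intro hz
          exact ⟨s z, ⟨h z, hz, by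
            change s' (h z) = s' (h (π (s z)))
            rw [hs2]⟩, hs2 z⟩
        · rintro ⟨x, ⟨y, hy, hxy⟩, rfl⟩
          have h3 : y = h (π x) := by
            have := congrArg π' hxy
            rwa [hs2', hs2'] at this
          change h (π x) ∈ K
          rw [← h3]
          exact hy
      rw [h2]
      exact h1.image hπs.continuous
    · refine ⟨{ toFun := fun x => s' (h (π x))
                invFun := fun x => s (r (π' x))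
                left_inv := fun x => by
                  change s (r (π' (s' (h (π x))))) = x
                  rw [hs2', hrh, hs1]
                right_inv := fun x => by
                  change s' (h (π (s (r (π' x))))) = x
                  rw [hs2, hhr, hs1']
                contMDiff_toFun := contMDiff_iff_contDiff.mpr (hss'.comp (hh.comp hπs))
                contMDiff_invFun := contMDiff_iff_contDiff.mpr (hss.comp (hr.comp hπs')) },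
        fun x => ?_, heq⟩
      exact hs2' _

/-- **Virtual affine intertwiners.** -/
theorem affine_rigid (hmn : m ≤ n + 1) (hΓp : PDA Γ) (hΓc : CCA Γ) (hΓp' : PDA Γ')
    (hΓc' : CCA Γ') (φ : Γ ≃* Γ') (π π' : Eu m →ᵃ[ℝ] Eu n) (hπ : Function.Surjective π)
    (hπ' : Function.Surjective π') (α : Γ →* (Eu n ≃ᵃ[ℝ] Eu n)) (α' : Γ' →* (Eu n ≃ᵃ[ℝ] Eu n))
    (hα : ∀ (g : Γ) x, π ((g : Eu m ≃ᵃ[ℝ] Eu m) x) = α g (π x))
    (hα' : ∀ (g : Γ') x, π' ((g : Eu m ≃ᵃ[ℝ] Eu m) x) = α' g (π' x))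
    (Γ₀ : Subgroup Γ) (hfin : Γ₀.FiniteIndex) (q₀ : Eu n →ᵃ[ℝ] Eu n)
    (he : ∀ g ∈ Γ₀, ∀ z, q₀ (α g z) = α' (φ g) (q₀ z)) :
    ∃ q : Eu n ≃ᵃ[ℝ] Eu n, (∀ (g : Γ) z, q (α g z) = α' (φ g) (q z)) ∧
      ∃ f : Diffeomorph 𝓘(ℝ, Eu m) 𝓘(ℝ, Eu m) (Eu m) (Eu m) ∞,
        (∀ x, π' (f x) = q (π x)) ∧
        ∀ (g : Γ) x, f ((g : Eu m ≃ᵃ[ℝ] Eu m) x) = ((φ g : Γ') : Eu m ≃ᵃ[ℝ] Eu m) (f x) := by
  have := hfin
  have : Fintype (Γ ⧸ Γ₀) := Fintype.ofFinite _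
  let α'' : Γ →* (Eu n ≃ᵃ[ℝ] Eu n) := α'.comp φ.toMonoidHom
  obtain ⟨b, hb⟩ := avgMap_affine (G₀ := Γ₀) (α := α) (α' := α'') q₀
  have hbe : ∀ (g : Γ) z, b (α g z) = α' (φ g) (b z) := by
    intro g z
    rw [← hb, ← hb]
    exact avgMap_equi (G₀ := Γ₀) (α := α) (α' := α'') (q₀ := q₀) he g z
  have hbs : ContDiff ℝ ∞ b := contDiff_affineMap b
  obtain ⟨-, h1, h2⟩ := affine_lift hmn hΓp hΓc hΓp' hΓc' φ π π' hπ hπ' (fun g => α g)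
    (fun g => α' g) hα hα' b hbs hbe
  obtain ⟨e, he1⟩ := affine_of_proper rfl h1
  refine ⟨e, fun g z => ?_, ?_⟩
  · rw [he1, he1, hbe]
  · obtain ⟨f, hf1, hf2⟩ := h2 e.symm (contDiff_affineMap (e.symm : Eu n →ᵃ[ℝ] Eu n))
      (fun z => by rw [← he1, e.symm_apply_apply]) (fun z => by rw [← he1, e.apply_symm_apply])
    exact ⟨f, fun x => by rw [hf1, he1], hf2⟩

end affine

end

end Pool.Agent.AffRig
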