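import Pool.Agent.Lib.MP_27f33f_gt.Theta

/-!
# Transverse rigidity for arbitrary smooth fibre preserving actions on `B × ℝ`
-/

set_option autoImplicit false

namespace Pool.Agent.AffRig

open Filter Topology Set MeasureTheory
open scoped ContDiff

noncomputable section

variable {G B : Type*} [Group G] [NormedAddCommGroup B] [NormedSpace ℝ B]

/-- The fibre derivative of the action. -/
def fd (A : SAct G (B × ℝ)) (g : G) (x : B × ℝ) : ℝ :=
  fderiv ℝ (fun y => (A.f g y).2) x (0, 1)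

lemma fd_smooth (A : SAct G (B × ℝ)) (g : G) : ContDiff ℝ ∞ (fd A g) := by
  have h1 : ContDiff ℝ ∞ (fun y => (A.f g y).2) := contDiff_snd.comp (A.sm g)
  exact (h1.fderiv_right (m := ∞) (by simp)).clm_apply contDiff_const

lemma hasDerivAt_fd (A : SAct G (B × ℝ)) (g : G) (z : B) (t : ℝ) :
    HasDerivAt (fun r => (A.f g (z, r)).2) (fd A g (z, t)) t :=
  hasDerivAt_fib (u := fun y => (A.f g y).2) (contDiff_snd.comp (A.sm g)) z t

section basic

variable {A : SAct G (B × ℝ)} {β : G → B → B}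

lemma fd_mul (hβ : ∀ g x, (A.f g x).1 = β g x.1) (g h : G) (x : B × ℝ) :
    fd A (g * h) x = fd A g (A.f h x) * fd A h x := by
  obtain ⟨z, t⟩ := x
  have h1 := hasDerivAt_fd A (g * h) z t
  have h2 : HasDerivAt (fun r => (A.f (g * h) (z, r)).2) (fd A g (A.f h (z, t)) * fd A h (z, t)) t := by
    have e1 : (fun r => (A.f (g * h) (z, r)).2) =
        (fun s => (A.f g (β h z, s)).2) ∘ fun r => (A.f h (z, r)).2 := by
      funext r
      rw [A.mul]
      have : A.f h (z, r) = (β h z, (A.f h (z, r)).2) := Prod.ext (hβ h (z, r)) rfl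
      rw [this]
      rfl
    rw [e1]
    have e2 : A.f h (z, t) = (β h z, (A.f h (z, t)).2) := Prod.ext (hβ h (z, t)) rfl
    have h3 := hasDerivAt_fd A g (β h z) ((A.f h (z, t)).2)
    rw [← e2] at h3
    exact h3.comp t (hasDerivAt_fd A h z t)
  exact h1.unique h2

lemma fd_one (x : B × ℝ) : fd A 1 x = 1 := by
  obtain ⟨z, t⟩ := x
  have h1 := hasDerivAt_fd A 1 z t
  have h2 : HasDerivAt (fun r => (A.f 1 (z, r)).2) 1 t := by
    have : (fun r => (A.f 1 (z, r)).2) = fun r => r := by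
      funext r; rw [A.one]
    rw [this]
    exact hasDerivAt_id t
  exact h1.unique h2

lemma fd_ne (hβ : ∀ g x, (A.f g x).1 = β g x.1) (g : G) (x : B × ℝ) : fd A g x ≠ 0 := by
  intro h0
  have := fd_mul hβ g⁻¹ g x
  rw [inv_mul_cancel, fd_one, h0, mul_zero] at this
  exact one_ne_zero this

end basic

/-- The sign of the fibre derivative is constant. -/
lemma exists_sign {A : SAct G (B × ℝ)} {β : G → B → B} (hβ : ∀ g x, (A.f g x).1 = β g x.1) :
    ∃ e : G → ℝ, (∀ g, e g = 1 ∨ e g = -1) ∧ ∀ g x, fd A g x * |fd A g x|⁻¹ = e g := by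
  have key : ∀ g, ∃ e : ℝ, (e = 1 ∨ e = -1) ∧ ∀ x, fd A g x * |fd A g x|⁻¹ = e := by
    intro g
    have hc : Continuous (fun x => fd A g x * |fd A g x|⁻¹) := by
      have h1 := (fd_smooth A g).continuous
      exact h1.mul (h1.abs.inv₀ (fun x => abs_ne_zero.mpr (fd_ne hβ g x)))
    have hsq : EqOn ((fun x => fd A g x * |fd A g x|⁻¹) ^ 2) 1 univ := by
      intro x _
      have h2 := fd_ne hβ g x
      change (fd A g x * |fd A g x|⁻¹) ^ 2 = 1
      rw [mul_pow, inv_pow, sq_abs]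
      exact mul_inv_cancel₀ (pow_ne_zero 2 h2)
    rcases isPreconnected_univ.eq_one_or_eq_neg_one_of_sq_eq hc.continuousOn hsq with h | h
    · exact ⟨1, Or.inl rfl, fun x => h (mem_univ x)⟩
    · exact ⟨-1, Or.inr rfl, fun x => h (mem_univ x)⟩
  choose e he1 he2 using key
  exact ⟨e, he1, he2⟩

variable [FiniteDimensional ℝ B]

/-- Straightening of an arbitrary fibre preserving action. -/
theorem exists_straight' {A : SAct G (B × ℝ)} {β : G → B → B}
    (hβ : ∀ g x, (A.f g x).1 = β g x.1) (hA : PD A) (hC : CC A) :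
    ∃ θ v : B × ℝ → ℝ, ∃ e : G → ℝ, ∃ l' : G → B → ℝ,
      ContDiff ℝ ∞ θ ∧ ContDiff ℝ ∞ v ∧ (∀ z s, θ (z, v (z, s)) = s) ∧
      (∀ z t, v (z, θ (z, t)) = t) ∧ (∀ g, e g = 1 ∨ e g = -1) ∧
      ∀ g x, θ (A.f g x) = e g * θ x + l' g x.1 := by
  obtain ⟨P⟩ := exists_part hA hC
  obtain ⟨K, hK, hKc⟩ := hC
  have hne := fd_ne hβ
  obtain ⟨e, he, hef⟩ := exists_sign hβ
  have hfs : ∀ x, (Function.support fun g => P.w (A.f g x)).Finite := fun x => by
    refine (P.loc.point_finite x).subset ?_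
    intro g hg
    exact hg
  let ρ : B × ℝ → ℝ := fun x => ∑ᶠ g, P.w (A.f g x) * |fd A g x|
  have hρs : ContDiff ℝ ∞ ρ := by
    refine contDiff_finsum_loc (fun g => ?_) ?_
    · refine (P.sm.comp (A.sm g)).mul ?_
      rw [contDiff_iff_contDiffAt]
      intro x
      exact (contDiffAt_abs (hne g x)).comp x (fd_smooth A g).contDiffAt
    · refine P.loc.subset ?_
      intro g x hx hx2
      apply hx
      have : P.w (A.f g x) = 0 := hx2
      change P.w (A.f g x) * _ = 0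
      rw [this, zero_mul]
  have hρe : ∀ h x, ρ (A.f h x) = |fd A h x|⁻¹ * ρ x := by
    intro h x
    have e1 : ρ (A.f h x) = ∑ᶠ k, |fd A h x|⁻¹ * (P.w (A.f k x) * |fd A k x|) := by
      change ∑ᶠ g, P.w (A.f g (A.f h x)) * |fd A g (A.f h x)| = _
      rw [← finsum_comp_equiv (Equiv.mulRight h)
        (f := fun k => |fd A h x|⁻¹ * (P.w (A.f k x) * |fd A k x|))]
      apply finsum_congr
      intro g
      change P.w (A.f g (A.f h x)) * |fd A g (A.f h x)| =
        |fd A h x|⁻¹ * (P.w (A.f (g * h) x) * |fd A (g * h) x|)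
      rw [A.mul, fd_mul hβ, abs_mul]
      have h2 : |fd A h x| ≠ 0 := abs_ne_zero.mpr (hne h x)
      field_simp
    rw [e1, ← mul_finsum]
  have hρp : ∀ x, 0 < ρ x := by
    intro x
    have hex : ∃ g, P.w (A.f g x) ≠ 0 := by
      by_contra hcon
      push Not at hcon
      have h1 := P.sum x
      rw [finsum_congr hcon, finsum_zero] at h1
      exact zero_ne_one h1
    obtain ⟨g, hg⟩ := hex
    refine finsum_pos (fun k => mul_nonneg (P.nn _) (abs_nonneg _)) ⟨g, ?_⟩ ?_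
    · exact mul_pos (lt_of_le_of_ne (P.nn _) (Ne.symm hg)) (abs_pos.mpr (hne g x))
    · refine (hfs x).subset ?_
      intro k hk hk2
      apply hk
      have : P.w (A.f k x) = 0 := hk2
      change P.w (A.f k x) * _ = 0
      rw [this, zero_mul]
  have hint : ∀ z p q, IntervalIntegrable (fun r => ρ (z, r)) volume p q := fun z p q =>
    (hρs.continuous.comp (by fun_prop : Continuous fun r : ℝ => (z, r))).intervalIntegrable p q
  let θ : B × ℝ → ℝ := prim ρ
  have hθs : ContDiff ℝ ∞ θ := contDiff_prim hρs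
  have hθd : ∀ x, fderiv ℝ θ x (0, 1) ≠ 0 := by
    rintro ⟨z, t⟩
    have h1 := hasDerivAt_fib hθs z t
    have h2 := hasDerivAt_prim hρs.continuous z t
    rw [h1.unique h2]
    exact (hρp _).ne'
  have hdiff : ∀ z p q, θ (z, q) - θ (z, p) = ∫ r in p..q, ρ (z, r) := fun z p q => by
    change (∫ r in (0 : ℝ)..q, ρ (z, r)) - (∫ r in (0 : ℝ)..p, ρ (z, r)) = _
    rw [intervalIntegral.integral_interval_sub_left (hint _ _ _) (hint _ _ _)]
  have hpt : ∀ g z t, A.f g (z, t) = (β g z, (A.f g (z, t)).2) := fun g z t =>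
    Prod.ext (hβ g (z, t)) rfl
  have hequi : ∀ g z p q, θ (A.f g (z, q)) - θ (A.f g (z, p)) = e g * (θ (z, q) - θ (z, p)) := by
    intro g z p q
    have hd : ∀ t, HasDerivAt (fun r => θ (A.f g (z, r)) - e g * θ (z, r)) 0 t := by
      intro t
      have h1 : HasDerivAt (fun r => θ (A.f g (z, r)))
          (ρ (A.f g (z, t)) * fd A g (z, t)) t := by
        have e1 : (fun r => θ (A.f g (z, r))) = (fun s => θ (β g z, s)) ∘
            fun r => (A.f g (z, r)).2 := by
          funext r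
          change θ (A.f g (z, r)) = θ (β g z, (A.f g (z, r)).2)
          rw [← hpt]
        rw [e1]
        have h2 := hasDerivAt_prim hρs.continuous (β g z) ((A.f g (z, t)).2)
        rw [← hpt] at h2
        exact h2.comp t (hasDerivAt_fd A g z t)
      have h3 := (hasDerivAt_prim hρs.continuous z t).const_mul (e g)
      have h4 := h1.sub h3
      have h5 : ρ (A.f g (z, t)) * fd A g (z, t) - e g * ρ (z, t) = 0 := by
        rw [hρe, ← hef g (z, t)]
        ring
      rw [h5] at h4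
      exact h4
    have hconst : (fun r => θ (A.f g (z, r)) - e g * θ (z, r)) q =
        (fun r => θ (A.f g (z, r)) - e g * θ (z, r)) p :=
      is_const_of_deriv_eq_zero (fun t => (hd t).differentiableAt) (fun t => (hd t).deriv) q p
    have h6 : θ (A.f g (z, q)) - e g * θ (z, q) = θ (A.f g (z, p)) - e g * θ (z, p) := hconst
    linarith
  have hKne : K.Nonempty := by
    obtain ⟨g, hg⟩ := hKc 0
    exact ⟨_, hg⟩
  obtain ⟨δ, hδ, hδ1, hδ2⟩ : ∃ δ : ℝ, 0 < δ ∧ (∀ x ∈ K, δ ≤ θ (x.1, x.2 + 1) - θ x) ∧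
      ∀ x ∈ K, δ ≤ θ x - θ (x.1, x.2 - 1) := by
    have hc1 : Continuous fun x : B × ℝ => θ (x.1, x.2 + 1) - θ x := by
      have := hθs.continuous
      fun_prop
    have hc2 : Continuous fun x : B × ℝ => θ x - θ (x.1, x.2 - 1) := by
      have := hθs.continuous
      fun_prop
    have hp : ∀ z p q, p < q → 0 < θ (z, q) - θ (z, p) := fun z p q hpq => by
      rw [hdiff]
      exact intervalIntegral.intervalIntegral_pos_of_pos (hint _ _ _) (fun _ => hρp _) hpq
    obtain ⟨x1, hx1, hm1⟩ := hK.exists_isMinOn hKne hc1.continuousOn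
    obtain ⟨x2, hx2, hm2⟩ := hK.exists_isMinOn hKne hc2.continuousOn
    refine ⟨min (θ (x1.1, x1.2 + 1) - θ x1) (θ x2 - θ (x2.1, x2.2 - 1)), lt_min ?_ ?_, ?_, ?_⟩
    · exact hp x1.1 x1.2 (x1.2 + 1) (by linarith)
    · exact hp x2.1 (x2.2 - 1) x2.2 (by linarith)
    · intro x hx
      exact (min_le_left _ _).trans (hm1 hx)
    · intro x hx
      exact (min_le_right _ _).trans (hm2 hx)
  have hback : ∀ g z s, ∃ t, A.f g (z, t) = (β g z, s) := by
    intro g z s
    have h1 : (A.f g⁻¹ (β g z, s)).1 = z := by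
      rw [hβ]
      have h2 := A.inv_f g (z, 0)
      have h3 : (A.f g⁻¹ (A.f g (z, 0))).1 = z := by rw [h2]
      rw [hβ, hβ] at h3
      exact h3
    refine ⟨(A.f g⁻¹ (β g z, s)).2, ?_⟩
    have h4 : (z, (A.f g⁻¹ (β g z, s)).2) = A.f g⁻¹ (β g z, s) := Prod.ext h1.symm rfl
    rw [h4, A.f_inv]
  have hstep : ∀ z t, (∃ t', θ (z, t) + δ ≤ θ (z, t')) ∧ ∃ t', θ (z, t') ≤ θ (z, t) - δ := by
    intro z t
    obtain ⟨g, hg⟩ := hKc (z, t)
    have h1 := hδ1 _ hg
    have h2 := hδ2 _ hg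
    obtain ⟨tp, htp⟩ := hback g z ((A.f g (z, t)).2 + 1)
    obtain ⟨tm, htm⟩ := hback g z ((A.f g (z, t)).2 - 1)
    have e1 : ((A.f g (z, t)).1, (A.f g (z, t)).2 + 1) = A.f g (z, tp) := by
      rw [htp, hβ]
    have e2 : ((A.f g (z, t)).1, (A.f g (z, t)).2 - 1) = A.f g (z, tm) := by
      rw [htm, hβ]
    rw [e1, hequi] at h1
    rw [e2, hequi] at h2
    rcases he g with h | h
    · rw [h] at h1 h2
      exact ⟨⟨tp, by linarith⟩, ⟨tm, by linarith⟩⟩
    · rw [h] at h1 h2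
      exact ⟨⟨tm, by linarith⟩, ⟨tp, by linarith⟩⟩
  have hup : ∀ z (n : ℕ), ∃ t, n * δ ≤ θ (z, t) := by
    intro z n
    induction n with
    | zero => exact ⟨0, by change ((0 : ℕ) : ℝ) * δ ≤ ∫ r in (0 : ℝ)..0, ρ (z, r); simp⟩
    | succ n ih =>
      obtain ⟨t, ht⟩ := ih
      obtain ⟨t', ht'⟩ := (hstep z t).1
      exact ⟨t', by push_cast; linarith⟩
  have hdn : ∀ z (n : ℕ), ∃ t, θ (z, t) ≤ -(n * δ) := by
    intro z n
    induction n with
    | zero => exact ⟨0, by change ∫ r in (0 : ℝ)..0, ρ (z, r) ≤ -(((0 : ℕ) : ℝ) * δ); simp⟩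
    | succ n ih =>
      obtain ⟨t, ht⟩ := ih
      obtain ⟨t', ht'⟩ := (hstep z t).2
      exact ⟨t', by push_cast; linarith⟩
  have hsurj : ∀ z, Function.Surjective (fun t => θ (z, t)) := by
    intro z s
    obtain ⟨n, hn⟩ := exists_nat_ge (|s| / δ)
    rw [div_le_iff₀ hδ] at hn
    obtain ⟨t1, ht1⟩ := hup z n
    obtain ⟨t2, ht2⟩ := hdn z n
    have hcont : Continuous (fun t : ℝ => θ (z, t)) := hθs.continuous.comp (by fun_prop)
    exact mem_range_of_exists_le_of_exists_ge hcont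
      ⟨t2, ht2.trans (by linarith [neg_abs_le s])⟩ ⟨t1, (le_abs_self s).trans (hn.trans ht1)⟩
  obtain ⟨v, hv, hv1, hv2⟩ := exists_fib_inverse hθs hθd hsurj
  refine ⟨θ, v, e, fun g z => θ (A.f g (z, 0)), hθs, hv, hv1, hv2, he, ?_⟩
  rintro g ⟨z, t⟩
  have h1 := hequi g z 0 t
  have h0 : θ (z, 0) = 0 := by
    change (∫ r in (0 : ℝ)..0, ρ (z, r)) = 0
    simp
  rw [h0, sub_zero] at h1
  change θ (A.f g (z, t)) = e g * θ (z, t) + θ (A.f g (z, 0))
  linarith

/-- A fibrewise change of coordinates. -/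
structure FibIso (B : Type*) [NormedAddCommGroup B] [NormedSpace ℝ B] where
  /-- forward -/
  p : B × ℝ → B × ℝ
  /-- backward -/
  q : B × ℝ → B × ℝ
  hp : ContDiff ℝ ∞ p
  hq : ContDiff ℝ ∞ q
  hpq : ∀ y, p (q y) = y
  hqp : ∀ y, q (p y) = y
  fp : ∀ y, (p y).1 = y.1
  fq : ∀ y, (q y).1 = y.1

/-- A straightened conjugate. -/
theorem exists_straight_conj {A : SAct G (B × ℝ)} {β : G → B → B}
    (hβ : ∀ g x, (A.f g x).1 = β g x.1) (hA : PD A) (hC : CC A) :
    ∃ (I : FibIso B) (e : G → ℝ) (l : G → B → ℝ), (∀ g, e g = 1 ∨ e g = -1) ∧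
      IsFib (A.conj I.p I.q I.hp I.hq I.hpq I.hqp) β e l := by
  obtain ⟨θ, w, e, l', hθ, hw, hθw, hwθ, he, hθe⟩ := exists_straight' hβ hA hC
  refine ⟨⟨fun x => (x.1, θ x), fun x => (x.1, w x), contDiff_fst.prodMk hθ,
    contDiff_fst.prodMk hw, fun y => ?_, fun y => ?_, fun _ => rfl, fun _ => rfl⟩, e, l', he, ?_⟩
  · change (y.1, θ (y.1, w y)) = y
    rw [hθw y.1 y.2]
  · change (y.1, w (y.1, θ y)) = y
    rw [hwθ y.1 y.2]
  · intro g y
    have h1 : θ (A.f g (y.1, w y)) = e g * y.2 + l' g y.1 := by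
      rw [hθe]
      change e g * θ (y.1, w (y.1, y.2)) + l' g y.1 = _
      rw [hθw]
    change ((A.f g (y.1, w y)).1, θ (A.f g (y.1, w y))) = _
    rw [h1, hβ]

/-- **Transverse rigidity for smooth fibre preserving actions**: two properly discontinuous
cocompact smooth actions on `B × ℝ` covering the same (arbitrary) action on `B` are conjugate by a
fibre preserving diffeomorphism over the identity of `B`. -/
theorem gen_rigid {A A' : SAct G (B × ℝ)} {β : G → B → B}
    (hβ : ∀ g x, (A.f g x).1 = β g x.1) (hβ' : ∀ g x, (A'.f g x).1 = β g x.1)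
    (hA : PD A) (hC : CC A) (hA' : PD A') (hC' : CC A') :
    ∃ I : FibIso B, ∀ g x, I.p (A.f g x) = A'.f g (I.p x) := by
  obtain ⟨I, e, l, he, hF⟩ := exists_straight_conj hβ hA hC
  obtain ⟨I', e', l', he', hF'⟩ := exists_straight_conj hβ' hA' hC'
  obtain ⟨u, hu, hud, hus, hue⟩ := line_core hF hF' he hA.conj hC.conj hA'.conj
  obtain ⟨v, hv, h1, h2⟩ := exists_fib_inverse hu hud hus
  let U : B × ℝ → B × ℝ := fun y => (y.1, u y)
  let V : B × ℝ → B × ℝ := fun y => (y.1, v y)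
  have hU : ContDiff ℝ ∞ U := contDiff_fst.prodMk hu
  have hV : ContDiff ℝ ∞ V := contDiff_fst.prodMk hv
  have hUV : ∀ y, U (V y) = y := fun y => by
    change (y.1, u (y.1, v (y.1, y.2))) = y
    rw [h1]
  have hVU : ∀ y, V (U y) = y := fun y => by
    change (y.1, v (y.1, u (y.1, y.2))) = y
    rw [h2]
  refine ⟨⟨fun x => I'.q (U (I.p x)), fun x => I.q (V (I'.p x)), I'.hq.comp (hU.comp I.hp),
    I.hq.comp (hV.comp I'.hp), fun y => ?_, fun y => ?_, fun y => ?_, fun y => ?_⟩, ?_⟩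
  · change I'.q (U (I.p (I.q (V (I'.p y))))) = y
    rw [I.hpq, hUV, I'.hqp]
  · change I.q (V (I'.p (I'.q (U (I.p y))))) = y
    rw [I'.hpq, hVU, I.hqp]
  · change (I'.q (U (I.p y))).1 = y.1
    rw [I'.fq]
    change (I.p y).1 = y.1
    rw [I.fp]
  · change (I.q (V (I'.p y))).1 = y.1
    rw [I.fq]
    change (I'.p y).1 = y.1
    rw [I'.fp]
  · intro g x
    change I'.q (U (I.p (A.f g x))) = A'.f g (I'.q (U (I.p x)))
    have h3 : I.p (A.f g x) = (A.conj I.p I.q I.hp I.hq I.hpq I.hqp).f g (I.p x) := by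
      change _ = I.p (A.f g (I.q (I.p x)))
      rw [I.hqp]
    have h4 : U ((A.conj I.p I.q I.hp I.hq I.hpq I.hqp).f g (I.p x)) =
        (A'.conj I'.p I'.q I'.hp I'.hq I'.hpq I'.hqp).f g (U (I.p x)) := by
      rw [hF']
      change (((A.conj I.p I.q I.hp I.hq I.hpq I.hqp).f g (I.p x)).1,
        u ((A.conj I.p I.q I.hp I.hq I.hpq I.hqp).f g (I.p x))) = _
      rw [hue, hF]
    rw [h3, h4]
    change I'.q (I'.p (A'.f g (I'.q (U (I.p x))))) = _
    rw [I'.hqp]

end

end Pool.Agent.AffRig
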