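import Pool.Agent.Lib.MP_27f33f_gt.FinalA

/-!
# The lifting theorem for actions given by homomorphisms into the affine group
-/

set_option autoImplicit false

namespace Pool.Agent.AffRig

open Filter Topology Set MeasureTheory
open scoped ContDiff Manifold

noncomputable section

variable {G : Type*} [Group G]

/-- Line fibrations given by smooth coordinates `p`, `q`. -/
theorem hom_smooth_lift {n : ℕ} {ρ ρ' : G →* (Eu (n + 1) ≃ᵃ[ℝ] Eu (n + 1))}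
    (hA : PD (affAct ρ)) (hC : CC (affAct ρ)) (hA' : PD (affAct ρ')) (hC' : CC (affAct ρ'))
    (Ψ Ψ' : Diffeomorph 𝓘(ℝ, Eu (n + 1)) 𝓘(ℝ, Eu n × ℝ) (Eu (n + 1)) (Eu n × ℝ) ∞)
    (β β' : G → Eu n → Eu n)
    (hα : ∀ (g : G) x, (Ψ (ρ g x)).1 = β g (Ψ x).1)
    (hα' : ∀ (g : G) x, (Ψ' (ρ' g x)).1 = β' g (Ψ' x).1)
    (h : Eu n → Eu n) (hh : ContDiff ℝ ∞ h)
    (he : ∀ (g : G) z, h (β g z) = β' g (h z)) :
    (∃ F : Eu (n + 1) → Eu (n + 1), ContDiff ℝ ∞ F ∧ (∀ x, (Ψ' (F x)).1 = h (Ψ x).1) ∧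
      ∀ (g : G) x, F (ρ g x) = ρ' g (F x)) ∧
    (∀ K : Set (Eu n), IsCompact K → IsCompact (h ⁻¹' K)) ∧
    ∀ r : Eu n → Eu n, ContDiff ℝ ∞ r → (∀ z, r (h z) = z) → (∀ z, h (r z) = z) →
      ∃ F R : Eu (n + 1) → Eu (n + 1), ContDiff ℝ ∞ F ∧ ContDiff ℝ ∞ R ∧
        (∀ x, R (F x) = x) ∧ (∀ x, F (R x) = x) ∧
        (∀ x, (Ψ' (F x)).1 = h (Ψ x).1) ∧ ∀ (g : G) x, F (ρ g x) = ρ' g (F x) := by
  have hp : ContDiff ℝ ∞ Ψ := contMDiff_iff_contDiff.mp Ψ.contMDiff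
  have hq : ContDiff ℝ ∞ Ψ.symm := contMDiff_iff_contDiff.mp Ψ.symm.contMDiff
  have hp' : ContDiff ℝ ∞ Ψ' := contMDiff_iff_contDiff.mp Ψ'.contMDiff
  have hq' : ContDiff ℝ ∞ Ψ'.symm := contMDiff_iff_contDiff.mp Ψ'.symm.contMDiff
  have e1 : ∀ y, Ψ (Ψ.symm y) = y := fun y => Ψ.apply_symm_apply y
  have e2 : ∀ x, Ψ.symm (Ψ x) = x := fun x => Ψ.symm_apply_apply x
  have e1' : ∀ y, Ψ' (Ψ'.symm y) = y := fun y => Ψ'.apply_symm_apply y
  have e2' : ∀ x, Ψ'.symm (Ψ' x) = x := fun x => Ψ'.symm_apply_apply x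
  let A := (affAct ρ).conj Ψ Ψ.symm hp hq e1 e2
  let A' := (affAct ρ').conj Ψ' Ψ'.symm hp' hq' e1' e2'
  have hβ : ∀ g x, (A.f g x).1 = β g x.1 := by
    intro g x
    change (Ψ (ρ g (Ψ.symm x))).1 = β g x.1
    rw [hα, e1]
  have hβ' : ∀ g x, (A'.f g x).1 = β' g x.1 := by
    intro g x
    change (Ψ' (ρ' g (Ψ'.symm x))).1 = β' g x.1
    rw [hα', e1']
  obtain ⟨u, w, hu, hw, huw, hwu, hue⟩ :=
    gen_lift hβ hβ' hA.conj hC.conj hA'.conj hC'.conj h hh he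
  let U : Eu n × ℝ → Eu n × ℝ := fun y => (h y.1, u y)
  have hU : ContDiff ℝ ∞ U := (hh.comp contDiff_fst).prodMk hu
  have hcov : ∀ x, (Ψ' (Ψ'.symm (U (Ψ x)))).1 = h (Ψ x).1 := fun x => by rw [e1']
  have heqU : ∀ (g : G) x, Ψ'.symm (U (Ψ (ρ g x))) = ρ' g (Ψ'.symm (U (Ψ x))) := by
    intro g x
    have h4 : Ψ (ρ g x) = A.f g (Ψ x) := by
      change _ = Ψ (ρ g (Ψ.symm (Ψ x)))
      rw [e2]
    have h5 : U (A.f g (Ψ x)) = A'.f g (U (Ψ x)) := hue g (Ψ x)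
    have h6 : Ψ'.symm (A'.f g (U (Ψ x))) = ρ' g (Ψ'.symm (U (Ψ x))) := e2' _
    rw [h4, h5, h6]
  refine ⟨⟨fun x => Ψ'.symm (U (Ψ x)), hq'.comp (hU.comp hp), hcov, heqU⟩,
    fun K hK => base_proper hC.conj hA'.conj hh hu huw hue hK, ?_⟩
  intro r hr hrh hhr
  let W : Eu n × ℝ → Eu n × ℝ := fun y => (r y.1, w (r y.1, y.2))
  have hrf : ContDiff ℝ ∞ (fun y : Eu n × ℝ => r y.1) := hr.comp contDiff_fst
  have hW : ContDiff ℝ ∞ W := hrf.prodMk (hw.comp (hrf.prodMk contDiff_snd))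
  have hUW : ∀ y, U (W y) = y := fun y => by
    change (h (r y.1), u (r y.1, w (r y.1, y.2))) = y
    rw [huw, hhr]
  have hWU : ∀ y, W (U y) = y := fun y => by
    change (r (h y.1), w (r (h y.1), u (y.1, y.2))) = y
    rw [hrh, hwu]
  refine ⟨fun x => Ψ'.symm (U (Ψ x)), fun x => Ψ.symm (W (Ψ' x)), hq'.comp (hU.comp hp),
    hq.comp (hW.comp hp'), fun x => ?_, fun x => ?_, hcov, heqU⟩
  · change Ψ.symm (W (Ψ' (Ψ'.symm (U (Ψ x))))) = x
    rw [e1', hWU, e2]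
  · change Ψ'.symm (U (Ψ (Ψ.symm (W (Ψ' x))))) = x
    rw [e1, hUW, e2']

/-- Affine fibrations with fibres of dimension at most one. -/
theorem hom_affine_lift {m n : ℕ} (hmn : m ≤ n + 1) {ρ ρ' : G →* (Eu m ≃ᵃ[ℝ] Eu m)}
    (hA : PD (affAct ρ)) (hC : CC (affAct ρ)) (hA' : PD (affAct ρ')) (hC' : CC (affAct ρ'))
    (π π' : Eu m →ᵃ[ℝ] Eu n) (hπ : Function.Surjective π)
    (hπ' : Function.Surjective π') (β β' : G → Eu n → Eu n)
    (hα : ∀ (g : G) x, π (ρ g x) = β g (π x))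
    (hα' : ∀ (g : G) x, π' (ρ' g x) = β' g (π' x))
    (h : Eu n → Eu n) (hh : ContDiff ℝ ∞ h)
    (he : ∀ (g : G) z, h (β g z) = β' g (h z)) :
    (∃ F : Eu m → Eu m, ContDiff ℝ ∞ F ∧ (∀ x, π' (F x) = h (π x)) ∧
      ∀ (g : G) x, F (ρ g x) = ρ' g (F x)) ∧
    (∀ K : Set (Eu n), IsCompact K → IsCompact (h ⁻¹' K)) ∧
    ∀ r : Eu n → Eu n, ContDiff ℝ ∞ r → (∀ z, r (h z) = z) → (∀ z, h (r z) = z) →
      ∃ F R : Eu m → Eu m, ContDiff ℝ ∞ F ∧ ContDiff ℝ ∞ R ∧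
        (∀ x, R (F x) = x) ∧ (∀ x, F (R x) = x) ∧
        (∀ x, π' (F x) = h (π x)) ∧ ∀ (g : G) x, F (ρ g x) = ρ' g (F x) := by
  have hlin : ∀ p : Eu m →ᵃ[ℝ] Eu n, Function.Surjective p → Function.Surjective p.linear :=
    fun p hp => (AffineMap.linear_surjective_iff p).mpr hp
  have hnm : n ≤ m := by
    have h1 := LinearMap.finrank_range_le π.linear
    rwa [LinearMap.range_eq_top.mpr (hlin π hπ), finrank_top, finrank_euclideanSpace_fin,
      finrank_euclideanSpace_fin] at h1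
  rcases Nat.lt_or_ge n m with hlt | hge
  · obtain rfl : m = n + 1 := by omega
    obtain ⟨Ψ, hΨ⟩ := exists_coord_diffeo π hπ
    obtain ⟨Ψ', hΨ'⟩ := exists_coord_diffeo π' hπ'
    obtain ⟨⟨F, hF1, hF2, hF3⟩, h1, h2⟩ := hom_smooth_lift hA hC hA' hC' Ψ Ψ' β β'
      (fun g x => by rw [hΨ, hΨ, hα]) (fun g x => by rw [hΨ', hΨ', hα']) h hh he
    refine ⟨⟨F, hF1, fun x => ?_, hF3⟩, h1, fun r hr hrh hhr => ?_⟩
    · have := hF2 x
      rwa [hΨ, hΨ'] at this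
    obtain ⟨F, R, hF, hR, hRF, hFR, hf1, hf2⟩ := h2 r hr hrh hhr
    refine ⟨F, R, hF, hR, hRF, hFR, fun x => ?_, hf2⟩
    have := hf1 x
    rwa [hΨ, hΨ'] at this
  · obtain rfl : m = n := by omega
    have equivOf : ∀ p : Eu m →ᵃ[ℝ] Eu m, Function.Surjective p →
        ∃ s : Eu m →ᵃ[ℝ] Eu m, (∀ x, s (p x) = x) ∧ ∀ x, p (s x) = x := by
      intro p hp
      have hinj : Function.Injective p := by
        have h1 : Function.Injective p.linear :=
          LinearMap.injective_iff_surjective.mpr (hlin p hp)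
        exact (AffineMap.linear_injective_iff p).mp h1
      let e := AffineEquiv.ofBijective (φ := p) ⟨hinj, hp⟩
      refine ⟨(e.symm : Eu m →ᵃ[ℝ] Eu m), fun x => e.symm_apply_apply x,
        fun x => e.apply_symm_apply x⟩
    obtain ⟨s, hs1, hs2⟩ := equivOf π hπ
    obtain ⟨s', hs1', hs2'⟩ := equivOf π' hπ'
    have hπs : ContDiff ℝ ∞ π := contDiff_affineMap π
    have hπs' : ContDiff ℝ ∞ π' := contDiff_affineMap π'
    have hss : ContDiff ℝ ∞ s := contDiff_affineMap s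
    have hss' : ContDiff ℝ ∞ s' := contDiff_affineMap s'
    have heq : ∀ (g : G) x, s' (h (π (ρ g x))) = ρ' g (s' (h (π x))) := by
      intro g x
      rw [hα, he]
      have h1 := hα' g (s' (h (π x)))
      rw [hs2'] at h1
      rw [← h1, hs1']
    refine ⟨⟨fun x => s' (h (π x)), hss'.comp (hh.comp hπs), fun x => hs2' _, heq⟩,
      fun K hK => ?_, fun r hr hrh hhr => ?_⟩
    · have h1 : IsCompact ((fun x => s' (h (π x))) ⁻¹' (s' '' K)) :=
        proper_of_equivariant (A := affAct ρ) (A' := affAct ρ') hC hA'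
          (hss'.continuous.comp (hh.continuous.comp hπs.continuous)) heq (hK.image hss'.continuous)
      have h2 : h ⁻¹' K = π '' ((fun x => s' (h (π x))) ⁻¹' (s' '' K)) := by
        ext z
        constructor
        · intro hz
          exact ⟨s z, ⟨h z, hz, by
            change s' (h z) = s' (h (π (s z)))
            rw [hs2]⟩, hs2 z⟩
        · rintro ⟨x, ⟨y, hy, hxy⟩, rfl⟩
          have h3 : y = h (π x) := by
            have := congrArg π' hxy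
            rwa [hs2', hs2'] at this
          change h (π x) ∈ K
          rw [← h3]
          exact hy
      rw [h2]
      exact h1.image hπs.continuous
    · refine ⟨fun x => s' (h (π x)), fun x => s (r (π' x)), hss'.comp (hh.comp hπs),
        hss.comp (hr.comp hπs'), fun x => ?_, fun x => ?_, fun x => hs2' _, heq⟩
      · change s (r (π' (s' (h (π x))))) = x
        rw [hs2', hrh, hs1]
      · change s' (h (π (s (r (π' x))))) = x
        rw [hs2, hhr, hs1']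

end

end Pool.Agent.AffRig
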