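import Pool.Agent.Lib.MP_27f33f_gt.Poly

/-!
# The Jacobian determinant of an equivariant polynomial map
-/

set_option autoImplicit false

namespace Pool.Agent.AffRig

open Filter Topology Set MeasureTheory
open scoped ContDiff Manifold

noncomputable section

variable {m : ℕ}

lemma hasFDerivAt_affine (a : Eu m →ᵃ[ℝ] Eu m) (z : Eu m) :
    HasFDerivAt a (LinearMap.toContinuousLinearMap a.linear) z := by
  have h : (a : Eu m → Eu m) = fun x => LinearMap.toContinuousLinearMap a.linear x + a 0 := by
    funext x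
    exact congrFun a.decomp x
  rw [h]
  exact (LinearMap.toContinuousLinearMap a.linear).hasFDerivAt.add_const (a 0)

/-- Transformation of the Jacobian determinant of an equivariant map. -/
theorem jac_equi {q : Eu m → Eu m} (hq : ContDiff ℝ ∞ q) {a a' : Eu m →ᵃ[ℝ] Eu m}
    (h : ∀ z, q (a z) = a' (q z)) (z : Eu m) :
    (fderiv ℝ q (a z)).det * LinearMap.det a.linear =
      LinearMap.det a'.linear * (fderiv ℝ q z).det := by
  have hd : ∀ x, HasFDerivAt q (fderiv ℝ q x) x := fun x =>
    (hq.differentiable (by simp) x).hasFDerivAt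
  have h1 : HasFDerivAt (fun x => q (a x))
      ((fderiv ℝ q (a z)).comp (LinearMap.toContinuousLinearMap a.linear)) z :=
    (hd (a z)).comp z (hasFDerivAt_affine a z)
  have h2 : HasFDerivAt (fun x => a' (q x))
      ((LinearMap.toContinuousLinearMap a'.linear).comp (fderiv ℝ q z)) z :=
    (hasFDerivAt_affine a' (q z)).comp z (hd z)
  have h3 : (fun x => q (a x)) = fun x => a' (q x) := funext h
  rw [h3] at h1
  have h4 := h1.unique h2
  have h5 := congrArg (fun L : Eu m →L[ℝ] Eu m => LinearMap.det (L : Eu m →ₗ[ℝ] Eu m)) h4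
  have h6 : LinearMap.det (((fderiv ℝ q (a z)).comp
      (LinearMap.toContinuousLinearMap a.linear) : Eu m →L[ℝ] Eu m) : Eu m →ₗ[ℝ] Eu m) =
      (fderiv ℝ q (a z)).det * LinearMap.det a.linear := by
    exact LinearMap.det_comp _ _
  have h7 : LinearMap.det (((LinearMap.toContinuousLinearMap a'.linear).comp
      (fderiv ℝ q z) : Eu m →L[ℝ] Eu m) : Eu m →ₗ[ℝ] Eu m) =
      LinearMap.det a'.linear * (fderiv ℝ q z).det := by
    exact LinearMap.det_comp _ _
  rw [← h6, ← h7]
  exact h5

/-- The Jacobian determinant of a surjective equivariant polynomial map, over a cocompact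
family of affine maps, with equal absolute determinants, is a nonzero constant. -/
theorem jac_const {H : Type*} {q : Eu m → Eu m} (hq : IsPolyMap q) (hs : Function.Surjective q)
    {α α' : H → Eu m →ᵃ[ℝ] Eu m} (hcc : ∃ K : Set (Eu m), IsCompact K ∧ ∀ z, ∃ g, α g z ∈ K)
    (he : ∀ g z, q (α g z) = α' g (q z))
    (hdet : ∀ g, |LinearMap.det (α g).linear| = |LinearMap.det (α' g).linear|)
    (hne : ∀ g, LinearMap.det (α g).linear ≠ 0) :
    ∃ c : ℝ, c ≠ 0 ∧ ∀ z, (fderiv ℝ q z).det = c := by
  have hqs := hq.contDiff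
  obtain ⟨K, hK, hKc⟩ := hcc
  have hcont : Continuous (fun z => |(fderiv ℝ q z).det|) := by
    refine continuous_abs.comp (ContinuousLinearMap.continuous_det.comp ?_)
    exact hqs.continuous_fderiv (by simp)
  obtain ⟨C, hC⟩ := hK.bddAbove_image hcont.continuousOn
  have hb : ∀ z, |(fderiv ℝ q z).det| ≤ C := by
    intro z
    obtain ⟨g, hg⟩ := hKc z
    have h1 := jac_equi hqs (he g) z
    have h2 : |(fderiv ℝ q (α g z)).det| = |(fderiv ℝ q z).det| := by
      have h3 := congrArg abs h1
      rw [abs_mul, abs_mul, ← hdet g, mul_comm] at h3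
      exact mul_left_cancel₀ (abs_ne_zero.mpr (hne g)) h3
    rw [← h2]
    exact hC ⟨_, hg, rfl⟩
  obtain ⟨z0, hz0⟩ := exists_det_ne_zero hqs hs
  refine ⟨(fderiv ℝ q 0).det, ?_, fun z => hq.det_const hb z⟩
  rw [← hq.det_const hb z0]
  exact hz0

/-- A nonzero determinant gives an injective derivative. -/
lemma injective_of_det_ne {L : Eu m →L[ℝ] Eu m} (h : L.det ≠ 0) : Function.Injective L := by
  have h1 : IsUnit (LinearMap.det (L : Eu m →ₗ[ℝ] Eu m)) := isUnit_iff_ne_zero.mpr h
  have h2 := (LinearMap.isUnit_iff_isUnit_det _).mpr h1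
  have h3 := (LinearMap.isUnit_iff_ker_eq_bot _).mp h2
  exact LinearMap.ker_eq_bot.mp h3

/-- If the Jacobian determinant is a nonzero constant, the absolute determinants agree. -/
lemma det_eq_of_jac_const {q : Eu m → Eu m} (hq : ContDiff ℝ ∞ q) {c : ℝ} (hc : c ≠ 0)
    (hcon : ∀ z, (fderiv ℝ q z).det = c) {a a' : Eu m →ᵃ[ℝ] Eu m}
    (h : ∀ z, q (a z) = a' (q z)) : LinearMap.det a.linear = LinearMap.det a'.linear := by
  have h1 := jac_equi hq h 0
  rw [hcon, hcon, mul_comm] at h1
  exact mul_right_cancel₀ hc h1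

/-- Product of two polynomial functions equal to a nonzero constant: the first is constant. -/
lemma IsPolyFun.const_of_mul {f g : Eu m → ℝ} (hf : IsPolyFun f) (hg : IsPolyFun g) {c : ℝ}
    (hc : c ≠ 0) (h : ∀ z, f z * g z = c) (z : Eu m) : f z = f 0 := by
  obtain ⟨P, hP⟩ := hf
  obtain ⟨Q, hQ⟩ := hg
  have key : ∀ P : MvPolynomial (Fin m) ℝ, ∀ t : ℝ,
      Polynomial.eval t (MvPolynomial.aeval
        (fun j => Polynomial.C (z j) * Polynomial.X) P) =
      MvPolynomial.eval (fun j => (t • z) j) P := by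
    intro P t
    induction P using MvPolynomial.induction_on with
    | C a => simp
    | add p q hp hq => rw [map_add, map_add, Polynomial.eval_add, hp, hq]
    | mul_X p i hp =>
      rw [map_mul, map_mul, Polynomial.eval_mul, hp, MvPolynomial.aeval_X,
        MvPolynomial.eval_X, Polynomial.eval_mul, Polynomial.eval_C, Polynomial.eval_X]
      congr 1
      change z i * t = t * z i
      ring
  let A : Polynomial ℝ := MvPolynomial.aeval (fun j => Polynomial.C (z j) * Polynomial.X) P
  let B : Polynomial ℝ := MvPolynomial.aeval (fun j => Polynomial.C (z j) * Polynomial.X) Q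
  have hAB : A * B = Polynomial.C c := by
    apply Polynomial.funext
    intro t
    rw [Polynomial.eval_mul, Polynomial.eval_C, key, key, ← hP, ← hQ, h]
  have hu : IsUnit A := by
    refine IsUnit.of_mul_eq_one (B * Polynomial.C c⁻¹) ?_
    rw [← mul_assoc, hAB, ← Polynomial.C_mul, mul_inv_cancel₀ hc, Polynomial.C_1]
  obtain ⟨r, -, hr⟩ := Polynomial.isUnit_iff.mp hu
  have h1 := key P 1
  have h0 := key P 0
  change Polynomial.eval 1 A = _ at h1
  change Polynomial.eval 0 A = _ at h0
  rw [← hr, Polynomial.eval_C, ← hP] at h1 h0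
  rw [one_smul] at h1
  rw [zero_smul] at h0
  rw [← h1, ← h0]

end

end Pool.Agent.AffRig
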