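import Mathlib

/-!
# A proper smooth map between normed spaces with invertible derivative is a diffeomorphism
-/

set_option autoImplicit false

namespace Pool.Agent.AffRig

open Filter Topology Set
open scoped ContDiff

noncomputable section

variable {E F : Type*} [NormedAddCommGroup E] [NormedSpace ℝ E]
  [NormedAddCommGroup F] [NormedSpace ℝ F]

/-- A closed local homeomorphism with compact fibres onto a simply connected space is bijective. -/
theorem bijective_of_proper_localHomeo {q : E → F} (hl : IsLocalHomeomorph q)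
    (hp : IsProperMap q) : Function.Bijective q := by
  have hfin : ∀ y ∈ (univ : Set F), (q ⁻¹' {y}).Finite := by
    intro y _
    have h1 : IsCompact (q ⁻¹' {y}) := hp.isCompact_preimage isCompact_singleton
    refine h1.finite ?_
    refine IsLocalHomeomorphOn.isDiscrete_of_image (f := q)
      (hl.isLocalHomeomorphOn.mono (subset_univ _)) ?_
    refine (Set.Subsingleton.isDiscrete ?_)
    exact (subsingleton_singleton (a := y)).anti (image_preimage_subset q {y})
  have hcov : IsCoveringMap q := by
    have := hp.isClosedMap.isCoveringMapOn_of_isLocalHomeomorphOn hfin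
      (hl.isLocalHomeomorphOn.mono (subset_univ _))
    rwa [← isCoveringMap_iff_isCoveringMapOn_univ] at this
  have hsurj : Function.Surjective q := by
    have hcl : IsClopen (range q) := ⟨hp.isClosedMap.isClosed_range, hl.isOpenMap.isOpen_range⟩
    rcases isClopen_iff.mp hcl with h | h
    · exact absurd h (range_nonempty _).ne_empty
    · exact range_eq_univ.mp h
  obtain ⟨s, ⟨hs0, hs⟩, -⟩ := hcov.existsUnique_continuousMap_lifts (ContinuousMap.id F) (q 0)
    (0 : E) rfl
  have hcomp : (fun x => s (q x)) = id := by
    refine hcov.eq_of_comp_eq (s.continuous.comp hp.continuous) continuous_id ?_ 0 ?_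
    · funext x
      exact congrFun hs (q x)
    · exact hs0
  refine ⟨fun x y hxy => ?_, hsurj⟩
  have h1 := congrFun hcomp x
  have h2 := congrFun hcomp y
  simp only [id] at h1 h2
  rw [← h1, ← h2, hxy]

/-- A proper smooth map with invertible derivative has a smooth inverse. -/
theorem exists_inverse_of_proper [CompleteSpace E] [ProperSpace F] {q : E → F}
    (hq : ContDiff ℝ ∞ q)
    (hd : ∀ x, ∃ L : E ≃L[ℝ] F, fderiv ℝ q x = L)
    (hp : ∀ K : Set F, IsCompact K → IsCompact (q ⁻¹' K)) :
    ∃ r : F → E, ContDiff ℝ ∞ r ∧ (∀ x, r (q x) = x) ∧ ∀ y, q (r y) = y := by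
  choose L hL using hd
  have hst : ∀ x, HasStrictFDerivAt q (L x : E →L[ℝ] F) x := by
    intro x
    rw [← hL]
    exact hq.contDiffAt.hasStrictFDerivAt (by simp)
  have hl : IsLocalHomeomorph q := by
    refine IsLocalHomeomorph.mk q (fun x => ⟨(hst x).toOpenPartialHomeomorph q, ?_, ?_⟩)
    · exact (hst x).mem_toOpenPartialHomeomorph_source
    · exact fun y _ => rfl
  have hprop : IsProperMap q := by
    rw [isProperMap_iff_isCompact_preimage]
    exact ⟨hq.continuous, fun K hK => hp K hK⟩
  have hbij := bijective_of_proper_localHomeo hl hprop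
  let e : E ≃ₜ F := (Equiv.ofBijective q hbij).toHomeomorphOfContinuousOpen hq.continuous hl.isOpenMap
  refine ⟨e.symm, e.contDiff_symm (f₀' := L) (fun x => (hst x).hasFDerivAt) hq, ?_, ?_⟩
  · intro x
    exact e.symm_apply_apply x
  · intro y
    exact e.apply_symm_apply y

/-- A proper affine map between spaces of the same finite dimension is an equivalence. -/
theorem affine_of_proper [FiniteDimensional ℝ E] [FiniteDimensional ℝ F]
    (hdim : Module.finrank ℝ E = Module.finrank ℝ F) {q : E →ᵃ[ℝ] F}
    (hp : ∀ K : Set F, IsCompact K → IsCompact (q ⁻¹' K)) :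
    ∃ e : E ≃ᵃ[ℝ] F, ∀ x, e x = q x := by
  have hinj : Function.Injective q.linear := by
    rw [← LinearMap.ker_eq_bot, LinearMap.ker_eq_bot']
    intro v hv
    by_contra hne
    have hmem : ∀ t : ℝ, t • v ∈ q ⁻¹' {q 0} := by
      intro t
      rw [mem_preimage, mem_singleton_iff]
      have := congrFun q.decomp (t • v)
      simp only [Pi.add_apply] at this
      rw [this, map_smul, hv, smul_zero, zero_add]
    have hb := (hp {q 0} isCompact_singleton).isBounded
    obtain ⟨R, hR⟩ := hb.subset_closedBall (0 : E)
    have hv0 : 0 < ‖v‖ := norm_pos_iff.mpr hne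
    have h1 := hR (hmem ((|R| + 1) / ‖v‖))
    rw [mem_closedBall_zero_iff, norm_smul, Real.norm_eq_abs, abs_div, abs_norm,
      div_mul_cancel₀ _ hv0.ne', abs_of_pos (by positivity)] at h1
    linarith [le_abs_self R]
  let e0 : E ≃ₗ[ℝ] F := LinearMap.linearEquivOfInjective q.linear hinj hdim
  have he0 : ∀ x, e0 x = q.linear x := fun x => rfl
  refine ⟨⟨(e0.toEquiv.trans (Equiv.addRight (q 0))), e0, ?_⟩, ?_⟩
  · intro p v
    change e0 (v +ᵥ p) + q 0 = e0 v +ᵥ (e0 p + q 0)
    rw [vadd_eq_add, vadd_eq_add, map_add, add_assoc]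
  · intro x
    change e0 x + q 0 = q x
    have := congrFun q.decomp x
    simp only [Pi.add_apply] at this
    rw [this, he0]

end

end Pool.Agent.AffRig
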