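import Pool.Agent.Lib.MP_27f33f_gt.Gen
import Pool.Agent.Lib.MP_27f33f_gt.PLoc

/-!
# Lifting smooth equivariant maps of the leaf spaces
-/

set_option autoImplicit false

namespace Pool.Agent.AffRig

open Filter Topology Set MeasureTheory
open scoped ContDiff

noncomputable section

variable {G B B' : Type*} [Group G] [NormedAddCommGroup B] [NormedSpace ℝ B]
  [NormedAddCommGroup B'] [NormedSpace ℝ B']

lemma base_smooth {A : SAct G (B × ℝ)} {β : G → B → B} (hβ : ∀ g x, (A.f g x).1 = β g x.1)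
    (g : G) : ContDiff ℝ ∞ (β g) := by
  have : β g = fun z => (A.f g (z, 0)).1 := by
    funext z
    rw [hβ]
  rw [this]
  exact contDiff_fst.comp ((A.sm g).comp (contDiff_id.prodMk contDiff_const))

lemma base_one {A : SAct G (B × ℝ)} {β : G → B → B} (hβ : ∀ g x, (A.f g x).1 = β g x.1)
    (z : B) : β 1 z = z := by
  have h1 := hβ 1 (z, 0)
  rw [A.one] at h1
  exact h1.symm

lemma base_mul {A : SAct G (B × ℝ)} {β : G → B → B} (hβ : ∀ g x, (A.f g x).1 = β g x.1)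
    (g h : G) (z : B) : β (g * h) z = β g (β h z) := by
  have h1 := hβ (g * h) (z, 0)
  rw [A.mul, hβ, hβ] at h1
  exact h1.symm

/-- Pull back of a fibrewise affine action along an equivariant map of the bases. -/
def pullAct (A : SAct G (B × ℝ)) (A' : SAct G (B' × ℝ)) {β : G → B → B} {β' : G → B' → B'}
    {e : G → ℝ} {l : G → B' → ℝ} (hβ : ∀ g x, (A.f g x).1 = β g x.1) (hF : IsFib A' β' e l)
    (q : B → B') (hq : ContDiff ℝ ∞ q) (hqe : ∀ g z, q (β g z) = β' g (q z)) :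
    SAct G (B × ℝ) where
  f := fun g x => (β g x.1, e g * x.2 + l g (q x.1))
  one := fun x => by
    refine Prod.ext (base_one hβ x.1) ?_
    change e 1 * x.2 + l 1 (q x.1) = x.2
    rw [hF.smul_one.1, hF.smul_one.2.1, one_mul, add_zero]
  mul := fun g h x => by
    refine Prod.ext (base_mul hβ g h x.1) ?_
    change e (g * h) * x.2 + l (g * h) (q x.1) =
      e g * (e h * x.2 + l h (q x.1)) + l g (q (β h x.1))
    rw [hF.amul, hF.lmul, hqe]
    ring
  sm := fun g => by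
    refine ((base_smooth hβ g).comp contDiff_fst).prodMk ?_
    exact (contDiff_const.mul contDiff_snd).add ((hF.lsm g).comp (hq.comp contDiff_fst))

lemma pd_of_map {X Y : Type*} [NormedAddCommGroup X] [NormedSpace ℝ X] [NormedAddCommGroup Y]
    [NormedSpace ℝ Y] {A : SAct G X} {A' : SAct G Y} (hA' : PD A') {f : X → Y}
    (hf : Continuous f) (he : ∀ g x, f (A.f g x) = A'.f g (f x)) : PD A := by
  intro K hK
  refine (hA' (f '' K) (hK.image hf)).subset ?_
  rintro g ⟨y, ⟨x, hx, rfl⟩, hy⟩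
  exact ⟨f (A.f g x), ⟨f x, ⟨x, hx, rfl⟩, (he g x).symm⟩, ⟨_, hy, rfl⟩⟩

variable [FiniteDimensional ℝ B] [FiniteDimensional ℝ B']

/-- Lifting of an arbitrary smooth equivariant map of the bases to an equivariant map which is a
diffeomorphism on each fibre. -/
theorem gen_lift {A : SAct G (B × ℝ)} {A' : SAct G (B' × ℝ)} {β : G → B → B} {β' : G → B' → B'}
    (hβ : ∀ g x, (A.f g x).1 = β g x.1) (hβ' : ∀ g x, (A'.f g x).1 = β' g x.1)
    (hA : PD A) (hC : CC A) (hA' : PD A') (hC' : CC A')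
    (q : B → B') (hq : ContDiff ℝ ∞ q) (hqe : ∀ g z, q (β g z) = β' g (q z)) :
    ∃ u w : B × ℝ → ℝ, ContDiff ℝ ∞ u ∧ ContDiff ℝ ∞ w ∧ (∀ z s, u (z, w (z, s)) = s) ∧
      (∀ z t, w (z, u (z, t)) = t) ∧
      ∀ g x, (q (A.f g x).1, u (A.f g x)) = A'.f g (q x.1, u x) := by
  obtain ⟨I, e, l, he, hF⟩ := exists_straight_conj hβ hA hC
  obtain ⟨I', e', l', he', hF'⟩ := exists_straight_conj hβ' hA' hC'
  have hβ₁ : ∀ g x, ((A.conj I.p I.q I.hp I.hq I.hpq I.hqp).f g x).1 = β g x.1 := fun g x => by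
    rw [hF]
  let A'' := pullAct (A.conj I.p I.q I.hp I.hq I.hpq I.hqp) _ hβ₁ hF' q hq hqe
  have hF'' : IsFib A'' β e' (fun g z => l' g (q z)) := fun g x => rfl
  have hA'' : PD A'' := by
    refine pd_of_map (A' := A'.conj I'.p I'.q I'.hp I'.hq I'.hpq I'.hqp) hA'.conj
      (f := fun x : B × ℝ => (q x.1, x.2))
      ((hq.continuous.comp continuous_fst).prodMk continuous_snd) ?_
    intro g x
    rw [hF'']
    change (q (β g x.1), e' g * x.2 + l' g (q x.1)) = _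
    rw [hF', hqe]
  obtain ⟨u, hu, hud, hus, hue⟩ := line_core hF hF'' he hA.conj hC.conj hA''
  obtain ⟨v, hv, h1, h2⟩ := exists_fib_inverse hu hud hus
  have hI'q : ∀ z s, I'.q (z, s) = (z, (I'.q (z, s)).2) := fun z s =>
    Prod.ext (I'.fq (z, s)) rfl
  have hI'p : ∀ z s, I'.p (z, s) = (z, (I'.p (z, s)).2) := fun z s =>
    Prod.ext (I'.fp (z, s)) rfl
  have hIq : ∀ z s, I.q (z, s) = (z, (I.q (z, s)).2) := fun z s => Prod.ext (I.fq (z, s)) rfl
  have hIp : ∀ z s, I.p (z, s) = (z, (I.p (z, s)).2) := fun z s => Prod.ext (I.fp (z, s)) rfl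
  have hqf : ContDiff ℝ ∞ (fun x : B × ℝ => q x.1) := hq.comp contDiff_fst
  refine ⟨fun x => (I'.q (q x.1, u (I.p x))).2, fun x => (I.q (x.1, v (x.1, (I'.p (q x.1, x.2)).2))).2,
    ?_, ?_, ?_, ?_, ?_⟩
  · exact contDiff_snd.comp (I'.hq.comp (hqf.prodMk (hu.comp I.hp)))
  · exact contDiff_snd.comp (I.hq.comp (contDiff_fst.prodMk (hv.comp (contDiff_fst.prodMk
      (contDiff_snd.comp (I'.hp.comp (hqf.prodMk contDiff_snd)))))))
  · intro z s
    change (I'.q (q z, u (I.p (z, (I.q (z, v (z, (I'.p (q z, s)).2))).2)))).2 = s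
    rw [← hIq, I.hpq, h1, ← hI'p, I'.hqp]
  · intro z t
    change (I.q (z, v (z, (I'.p (q z, (I'.q (q z, u (I.p (z, t)))).2)).2))).2 = t
    rw [← hI'q, I'.hpq]
    change (I.q (z, v (z, u (I.p (z, t))))).2 = t
    rw [hIp, h2, ← hIp, I.hqp]
  · intro g x
    have h3 : I.p (A.f g x) = (A.conj I.p I.q I.hp I.hq I.hpq I.hqp).f g (I.p x) := by
      change _ = I.p (A.f g (I.q (I.p x)))
      rw [I.hqp]
    have h4 : (I.p x).1 = x.1 := I.fp x
    have h5 : (q (A.f g x).1, u (I.p (A.f g x))) =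
        (A'.conj I'.p I'.q I'.hp I'.hq I'.hpq I'.hqp).f g (q x.1, u (I.p x)) := by
      rw [hF', h3, hue, hβ, hqe, h4]
    have h6 : (q (A.f g x).1, (I'.q (q (A.f g x).1, u (I.p (A.f g x)))).2) =
        I'.q (q (A.f g x).1, u (I.p (A.f g x))) := (hI'q _ _).symm
    change (q (A.f g x).1, (I'.q (q (A.f g x).1, u (I.p (A.f g x)))).2) =
      A'.f g (q x.1, (I'.q (q x.1, u (I.p x))).2)
    rw [h6, h5, ← hI'q]
    change I'.q (I'.p (A'.f g (I'.q (q x.1, u (I.p x))))) = _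
    rw [I'.hqp]

/-- The map of the bases is proper. -/
theorem base_proper {A : SAct G (B × ℝ)} {A' : SAct G (B' × ℝ)}
    (hC : CC A) (hA' : PD A')
    {q : B → B'} (hq : ContDiff ℝ ∞ q) {u w : B × ℝ → ℝ} (hu : ContDiff ℝ ∞ u)
    (huw : ∀ z s, u (z, w (z, s)) = s)
    (hue : ∀ g x, (q (A.f g x).1, u (A.f g x)) = A'.f g (q x.1, u x))
    {K : Set B'} (hK : IsCompact K) : IsCompact (q ⁻¹' K) := by
  have h1 : IsCompact ((fun x : B × ℝ => (q x.1, u x)) ⁻¹' (K ×ˢ {(0 : ℝ)})) :=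
    proper_of_equivariant hC hA' ((hq.continuous.comp continuous_fst).prodMk hu.continuous)
      hue (hK.prod isCompact_singleton)
  have h2 : q ⁻¹' K = Prod.fst '' ((fun x : B × ℝ => (q x.1, u x)) ⁻¹' (K ×ˢ {(0 : ℝ)})) := by
    ext z
    constructor
    · intro hz
      refine ⟨(z, w (z, 0)), ⟨hz, ?_⟩, rfl⟩
      change u (z, w (z, 0)) ∈ ({0} : Set ℝ)
      rw [huw]
      rfl
    · rintro ⟨x, hx, rfl⟩
      exact hx.1
  rw [h2]
  exact h1.image continuous_fst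

end

end Pool.Agent.AffRig
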