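import Pool.Agent.Lib.MP_27f33f_gt.ParInt
import Pool.Agent.Lib.MP_27f33f_gt.Act
import Pool.Agent.Lib.MP_27f33f_gt.Fib

/-!
# The averaging argument for a source action by isometries of the fibre line
-/

set_option autoImplicit false

namespace Pool.Agent.AffRig

open Filter Topology Set MeasureTheory
open scoped ContDiff

noncomputable section

variable {G B : Type*} [Group G] [NormedAddCommGroup B] [NormedSpace ℝ B]

/-- Actions fibred over a common base action, affine on the fibre line. -/
def IsFib (A : SAct G (B × ℝ)) (β : G → B → B) (a : G → ℝ) (l : G → B → ℝ) : Prop :=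
  ∀ g x, A.f g x = (β g x.1, a g * x.2 + l g x.1)

section facts

variable {A : SAct G (B × ℝ)} {β : G → B → B} {a : G → ℝ} {l : G → B → ℝ}

lemma IsFib.smul_one (h : IsFib A β a l) : a 1 = 1 ∧ (∀ z, l 1 z = 0) ∧ ∀ z, β 1 z = z := by
  have h1 : ∀ z s, a 1 * s + l 1 z = s := fun z s => by
    have := A.one (z, s)
    rw [h 1 (z, s)] at this
    exact congrArg Prod.snd this
  have h2 : ∀ z, l 1 z = 0 := fun z => by simpa using h1 z 0
  refine ⟨?_, h2, ?_⟩
  · have := h1 0 1
    rw [h2] at this
    linarith
  · intro z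
    have := A.one (z, 0)
    rw [h 1 (z, 0)] at this
    exact congrArg Prod.fst this

lemma IsFib.amul (h : IsFib A β a l) (g k : G) : a (g * k) = a g * a k := by
  have h1 : ∀ s, a (g * k) * s + l (g * k) 0 = a g * (a k * s + l k 0) + l g (β k 0) := fun s => by
    have := A.mul g k (0, s)
    rw [h (g * k), h k, h g] at this
    exact congrArg Prod.snd this
  have h2 := h1 0
  have h3 := h1 1
  linarith

lemma IsFib.lmul (h : IsFib A β a l) (g k : G) (z : B) :
    l (g * k) z = a g * l k z + l g (β k z) := by
  have h1 : ∀ s, a (g * k) * s + l (g * k) z = a g * (a k * s + l k z) + l g (β k z) := fun s => by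
    have := A.mul g k (z, s)
    rw [h (g * k), h k, h g] at this
    exact congrArg Prod.snd this
  have h2 := h1 0
  linarith

lemma IsFib.lsm (h : IsFib A β a l) (g : G) : ContDiff ℝ ∞ (l g) := by
  have : l g = fun z => (A.f g (z, 0)).2 := by
    funext z
    rw [h]
    simp
  rw [this]
  exact contDiff_snd.comp ((A.sm g).comp (contDiff_id.prodMk contDiff_const))

lemma IsFib.ane (h : IsFib A β a l) (g : G) : a g ≠ 0 := by
  intro h0
  have := h.amul g g⁻¹
  rw [mul_inv_cancel, h.smul_one.1, h0, zero_mul] at this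
  exact one_ne_zero this

/-- The cocycle of a fibred action, over another action with the same base. -/
def IsFib.coc (h : IsFib A β a l) (A₀ : SAct G (B × ℝ)) (h₀ : ∀ g x, (A₀.f g x).1 = β g x.1) :
    Coc A₀ where
  c := a
  d := fun g x => l g x.1
  c1 := h.smul_one.1
  cmul := h.amul
  d1 := fun x => h.smul_one.2.1 x.1
  dmul := fun g k x => by rw [h₀, h.lmul]
  dsm := fun g => (h.lsm g).comp contDiff_fst

end facts

/-- Properness implies that the fibre functions are onto. -/
theorem fib_surj {u : B × ℝ → ℝ} (hu : ContDiff ℝ ∞ u) (hd : ∀ x, fderiv ℝ u x (0, 1) ≠ 0)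
    (hp : ∀ L : Set (B × ℝ), IsCompact L → IsCompact ((fun x : B × ℝ => (x.1, u x)) ⁻¹' L))
    (z : B) : Function.Surjective (fun t => u (z, t)) := by
  have hcu : Continuous (fun t : ℝ => u (z, t)) := hu.continuous.comp (by fun_prop)
  have hprop : IsProperMap (fun t : ℝ => u (z, t)) := by
    rw [isProperMap_iff_isCompact_preimage]
    refine ⟨hcu, fun K hK => ?_⟩
    have h1 := hp ({z} ×ˢ K) (isCompact_singleton.prod hK)
    have hemb : IsClosedEmbedding (fun t : ℝ => ((z, t) : B × ℝ)) :=
      ⟨isEmbedding_prodMkRight z, by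
        have : range (fun t : ℝ => ((z, t) : B × ℝ)) = {z} ×ˢ univ := by
          ext x
          simp only [mem_range, mem_prod, mem_singleton_iff, mem_univ, and_true]
          constructor
          · rintro ⟨t, rfl⟩; rfl
          · intro h; exact ⟨x.2, by rw [← h]⟩
        rw [this]
        exact isClosed_singleton.prod isClosed_univ⟩
    have h2 := hemb.isCompact_preimage h1
    convert h2 using 1
    ext t
    simp
  have hclosed : IsClosed (range (fun t : ℝ => u (z, t))) := hprop.isClosedMap.isClosed_range
  have hsm : ContDiff ℝ ∞ (fun t : ℝ => u (z, t)) := hu.comp (contDiff_const.prodMk contDiff_id)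
  have hopen : IsOpen (range (fun t : ℝ => u (z, t))) := by
    have hst : ∀ t, HasStrictDerivAt (fun t : ℝ => u (z, t)) (fderiv ℝ u (z, t) (0, 1)) t := by
      intro t
      exact hsm.contDiffAt.hasStrictDerivAt' (hasDerivAt_fib hu z t) (by simp)
    exact (isOpenMap_of_hasStrictDerivAt hst (fun t => hd _)).isOpen_range
  have hcl : IsClopen (range (fun t : ℝ => u (z, t))) := ⟨hclosed, hopen⟩
  rcases isClopen_iff.mp hcl with h | h
  · exact absurd h (range_nonempty _).ne_empty
  · exact range_eq_univ.mp h

variable [FiniteDimensional ℝ B]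

/-- The averaging argument when the source acts on the fibre line by `t ↦ ± t + l`. -/
theorem line_core {A A' : SAct G (B × ℝ)} {β : G → B → B} {e : G → ℝ} {l : G → B → ℝ}
    {b : G → ℝ} {m : G → B → ℝ} (hF : IsFib A β e l) (hF' : IsFib A' β b m)
    (he : ∀ g, e g = 1 ∨ e g = -1) (hA : PD A) (hC : CC A) (hA' : PD A') :
    ∃ u : B × ℝ → ℝ, ContDiff ℝ ∞ u ∧ (∀ x, fderiv ℝ u x (0, 1) ≠ 0) ∧
      (∀ z, Function.Surjective (fun t => u (z, t))) ∧
      ∀ g x, u (A.f g x) = b g * u x + m g x.1 := by
  obtain ⟨P⟩ := exists_part hA hC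
  have hC' := hC
  obtain ⟨K, hK, hKc⟩ := hC
  let C : Coc A := hF'.coc A (fun g x => by rw [hF])
  let F : B × ℝ → ℝ := sec P C 0
  have hFs : ContDiff ℝ ∞ F := sec_smooth P C 0
  have hFe : ∀ g x, F (A.f g x) = b g * F x + m g x.1 := sec_equi P C 0
  have equi : ∀ u : B × ℝ → ℝ, (∀ g x, u (A.f g x) = b g * u x + m g x.1) →
      ∀ g x, (fun x : B × ℝ => (x.1, u x)) (A.f g x) =
        A'.f g ((fun x : B × ℝ => (x.1, u x)) x) := by
    intro u hu g x
    change ((A.f g x).1, u (A.f g x)) = A'.f g (x.1, u x)
    rw [hu, hF', hF]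
  have hfc : Continuous (fun x : B × ℝ => (x.1, F x)) := continuous_fst.prodMk hFs.continuous
  have hcomp : IsCompact ((fun x : B × ℝ => (x.1, F x)) ⁻¹' ((fun x : B × ℝ => (x.1, F x)) '' K)) :=
    proper_of_equivariant hC' hA' hfc (equi F hFe) (hK.image hfc)
  obtain ⟨R, hR⟩ := hcomp.isBounded.subset_closedBall (0 : B × ℝ)
  have hR2 : ∀ x, (x.1, F x) ∈ (fun x : B × ℝ => (x.1, F x)) '' K → |x.2| ≤ R := by
    intro x hx
    have h1 := hR (show x ∈ (fun x : B × ℝ => (x.1, F x)) ⁻¹' _ from hx)
    rw [mem_closedBall_zero_iff] at h1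
    exact (norm_snd_le x).trans h1
  have hne : ∀ z t T, 2 * R < |T| → F (z, t + T) ≠ F (z, t) := by
    intro z t T hT hEq
    obtain ⟨g, hg⟩ := hKc (z, t)
    have h1 : |(A.f g (z, t)).2| ≤ R := hR2 _ ⟨_, hg, rfl⟩
    have h2 : |(A.f g (z, t + T)).2| ≤ R := by
      apply hR2
      refine ⟨_, hg, ?_⟩
      change ((A.f g (z, t)).1, F (A.f g (z, t))) = ((A.f g (z, t + T)).1, F (A.f g (z, t + T)))
      rw [hFe, hFe, hF, hF, hEq]
    rw [hF] at h1 h2
    change |e g * t + l g z| ≤ R at h1
    change |e g * (t + T) + l g z| ≤ R at h2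
    have h3 : |e g * T| ≤ 2 * R := by
      have : e g * T = (e g * (t + T) + l g z) - (e g * t + l g z) := by ring
      rw [this]
      calc _ ≤ |e g * (t + T) + l g z| + |e g * t + l g z| := abs_sub _ _
        _ ≤ 2 * R := by linarith
    have h4 : |e g * T| = |T| := by
      rw [abs_mul]
      rcases he g with h | h <;> rw [h] <;> simp
    linarith
  obtain ⟨T, hT0, hT⟩ : ∃ T : ℝ, 0 < T ∧ 2 * R < 2 * T :=
    ⟨|R| + 1, by positivity, by linarith [le_abs_self R]⟩
  let u : B × ℝ → ℝ := fun x => (2 * T)⁻¹ * (prim F (x.1, x.2 + T) - prim F (x.1, x.2 - T))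
  have hus : ContDiff ℝ ∞ u := by
    refine contDiff_const.mul (ContDiff.sub ?_ ?_)
    · exact (contDiff_prim hFs).comp (contDiff_fst.prodMk (contDiff_snd.add contDiff_const))
    · exact (contDiff_prim hFs).comp (contDiff_fst.prodMk (contDiff_snd.sub contDiff_const))
  have hud : ∀ x, fderiv ℝ u x (0, 1) ≠ 0 := by
    rintro ⟨z, t⟩
    have h1 := hasDerivAt_fib hus z t
    have h2 : HasDerivAt (fun r => u (z, r)) ((2 * T)⁻¹ * (F (z, t + T) - F (z, t - T))) t := by
      have h3 : HasDerivAt (fun r => prim F (z, r + T)) (F (z, t + T)) t := by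
        have := (hasDerivAt_prim hFs.continuous z (t + T)).comp_add_const t T
        simpa using this
      have h4 : HasDerivAt (fun r => prim F (z, r - T)) (F (z, t - T)) t := by
        have := (hasDerivAt_prim hFs.continuous z (t - T)).comp_sub_const t T
        simpa using this
      exact (h3.sub h4).const_mul _
    rw [h1.unique h2]
    refine mul_ne_zero (by positivity) ?_
    rw [sub_ne_zero]
    have h5 := hne z (t - T) (2 * T) (by rw [abs_of_pos (by positivity)]; exact hT)
    rwa [show t - T + 2 * T = t + T by ring] at h5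
  have huI : ∀ z t, u (z, t) = (2 * T)⁻¹ * ∫ s in (-T)..T, F (z, t + s) := by
    intro z t
    have hint : ∀ p q : ℝ, IntervalIntegrable (fun r => F (z, r)) volume p q := fun p q =>
      (hFs.continuous.comp (by fun_prop : Continuous fun r : ℝ => (z, r))).intervalIntegrable p q
    change (2 * T)⁻¹ * ((∫ r in (0 : ℝ)..(t + T), F (z, r)) - ∫ r in (0 : ℝ)..(t - T), F (z, r)) = _
    rw [intervalIntegral.integral_interval_sub_left (hint _ _) (hint _ _)]
    congr 1
    have := intervalIntegral.integral_comp_add_left (a := -T) (b := T) (fun r => F (z, r)) t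
    rw [this, sub_eq_add_neg]
  have hue : ∀ g x, u (A.f g x) = b g * u x + m g x.1 := by
    rintro g ⟨z, t⟩
    have hint : IntervalIntegrable (fun s => F (z, t + s)) volume (-T) T :=
      (hFs.continuous.comp (by fun_prop : Continuous fun s : ℝ => (z, t + s))).intervalIntegrable _ _
    have hsum : (∫ s in (-T)..T, (b g * F (z, t + s) + m g z)) =
        b g * (∫ s in (-T)..T, F (z, t + s)) + 2 * T * m g z := by
      rw [intervalIntegral.integral_add (hint.const_mul _) intervalIntegrable_const,
        intervalIntegral.integral_const_mul, intervalIntegral.integral_const, smul_eq_mul]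
      ring
    have hmain : (∫ s in (-T)..T, F (β g z, e g * t + l g z + s)) =
        ∫ s in (-T)..T, (b g * F (z, t + s) + m g z) := by
      rcases he g with h | h
      · congr 1
        funext s
        have := hFe g (z, t + s)
        rw [hF, h] at this
        rw [h, ← this]
        congr 2
        change 1 * t + l g z + s = 1 * (t + s) + l g z
        ring
      · have h1 : (fun s => F (β g z, e g * t + l g z + s)) =
            fun s => (fun s' => b g * F (z, t + s') + m g z) (-s) := by
          funext s
          have := hFe g (z, t + -s)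
          rw [hF, h] at this
          change F (β g z, e g * t + l g z + s) = b g * F (z, t + -s) + m g z
          rw [h, ← this]
          congr 2
          change -1 * t + l g z + s = -1 * (t + -s) + l g z
          ring
        rw [h1, intervalIntegral.integral_comp_neg (fun s' => b g * F (z, t + s') + m g z), neg_neg]
    rw [hF]
    change u (β g z, e g * t + l g z) = b g * u (z, t) + m g z
    rw [huI, huI, hmain, hsum]
    field_simp
  refine ⟨u, hus, hud, ?_, hue⟩
  refine fib_surj hus hud ?_
  intro L hL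
  exact proper_of_equivariant hC' hA' (continuous_fst.prodMk hus.continuous) (equi u hue) hL

end

end Pool.Agent.AffRig
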