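import Pool.Agent.Lib.MP_27f33f_gt.Seif3
import Pool.Agent.Lib.MP_27f33f_gt.Coarse
import Pool.Agent.Lib.MP_27f33f_gt.Jac

/-!
# Coarse virtual polynomial intertwiners of the transverse actions
-/

set_option autoImplicit false

namespace Pool.Agent.AffRig

open Filter Topology Set MeasureTheory
open scoped ContDiff Manifold

noncomputable section

section avg

variable {n : ℕ} {G : Type*} [Group G] {G₀ : Subgroup G} {α α' : G →* (Eu n ≃ᵃ[ℝ] Eu n)}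

/-- The average of a polynomial map is a polynomial map. -/
theorem avgMap_poly [Fintype (G ⧸ G₀)] {q₀ : Eu n → Eu n} (hq : IsPolyMap q₀) :
    IsPolyMap (avgMap G₀ α α' q₀) := by
  have h1 : avgMap G₀ α α' q₀ = fun z => (Fintype.card (G ⧸ G₀) : ℝ)⁻¹ •
      (fun z => ∑ c ∈ (Finset.univ : Finset (G ⧸ G₀)), transp α α' q₀ (Quotient.out c) z) z := rfl
  rw [h1]
  refine IsPolyMap.const_smul _ (IsPolyMap.sum _ (fun c _ => ?_))
  have h2 : transp α α' q₀ (Quotient.out c) = fun z =>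
      ((α' (Quotient.out c) : Eu n ≃ᵃ[ℝ] Eu n) : Eu n →ᵃ[ℝ] Eu n)
        (q₀ (((α (Quotient.out c)⁻¹ : Eu n ≃ᵃ[ℝ] Eu n) : Eu n →ᵃ[ℝ] Eu n) z)) := rfl
  rw [h2]
  exact (IsPolyMap.of_affine _).comp (hq.comp (IsPolyMap.of_affine _))

/-- From a coarse virtual polynomial intertwiner to an exact polynomial intertwiner. -/
theorem exists_exact (hfin : G₀.FiniteIndex) {q₀ p : Eu n → Eu n}
    (he : ∀ g ∈ G₀, ∀ z, q₀ (α g z) = α' g (q₀ z)) (hp : IsPolyMap p) {C : ℝ}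
    (hC : ∀ z, ‖q₀ z - p z‖ ≤ C) :
    ∃ q : Eu n → Eu n, IsPolyMap q ∧ (∀ g z, q (α g z) = α' g (q z)) ∧
      ((∃ a : Eu n →ᵃ[ℝ] Eu n, ∀ z, p z = a z) → ∃ a : Eu n →ᵃ[ℝ] Eu n, ∀ z, q z = a z) := by
  have := hfin
  have : Fintype (G ⧸ G₀) := Fintype.ofFinite _
  obtain ⟨b, hb⟩ := coarse_to_exact (H := G₀) (α.comp G₀.subtype) (α'.comp G₀.subtype)
    (q := q₀) (p := p) (fun g z => he g g.2 z) hp hC
  have hpb : IsPolyMap (fun z => p z + b) := hp.add (IsPolyMap.const b)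
  refine ⟨avgMap G₀ α α' (fun z => p z + b), avgMap_poly hpb, fun g z => ?_, ?_⟩
  · exact avgMap_equi (fun g hg z => hb ⟨g, hg⟩ z) g z
  · rintro ⟨a, ha⟩
    let a' : Eu n →ᵃ[ℝ] Eu n := a + AffineMap.const ℝ (Eu n) b
    have h1 : (fun z => p z + b) = a' := by
      funext z
      rw [ha]
      rfl
    rw [h1]
    exact avgMap_affine a'

end avg

lemma det_linear_ne {n : ℕ} (a : Eu n ≃ᵃ[ℝ] Eu n) :
    LinearMap.det (a : Eu n →ᵃ[ℝ] Eu n).linear ≠ 0 := by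
  have h1 : IsUnit (LinearMap.det ((a.linear : Eu n ≃ₗ[ℝ] Eu n) : Eu n →ₗ[ℝ] Eu n)) :=
    LinearEquiv.isUnit_det' a.linear
  exact h1.ne_zero

/-- Equality of absolute determinants extends from a finite index subgroup. -/
lemma abs_det_extend {n : ℕ} {G : Type*} [Group G] {G₀ : Subgroup G}
    {α α' : G →* (Eu n ≃ᵃ[ℝ] Eu n)} (hfin : G₀.FiniteIndex)
    (h : ∀ g ∈ G₀, |LinearMap.det ((α g).linear : Eu n →ₗ[ℝ] Eu n)| =
      |LinearMap.det ((α' g).linear : Eu n →ₗ[ℝ] Eu n)|) (g : G) :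
    |LinearMap.det ((α g).linear : Eu n →ₗ[ℝ] Eu n)| =
      |LinearMap.det ((α' g).linear : Eu n →ₗ[ℝ] Eu n)| := by
  have hpow : ∀ (β : G →* (Eu n ≃ᵃ[ℝ] Eu n)) (k : ℕ),
      LinearMap.det ((β (g ^ k)).linear : Eu n →ₗ[ℝ] Eu n) =
        LinearMap.det ((β g).linear : Eu n →ₗ[ℝ] Eu n) ^ k := by
    intro β k
    induction k with
    | zero =>
      rw [pow_zero, pow_zero, map_one]
      exact LinearMap.det_id
    | succ k ih =>
      rw [pow_succ, pow_succ, map_mul, ← ih]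
      exact LinearMap.det_comp _ _
  obtain ⟨k, hk, -, hmem⟩ := Subgroup.exists_pow_mem_of_index_ne_zero hfin.index_ne_zero g
  have h1 := h _ hmem
  rw [hpow, hpow, abs_pow, abs_pow] at h1
  exact (pow_left_inj₀ (abs_nonneg _) (abs_nonneg _) hk.ne').mp h1

/-- **Main theorem**, homomorphism form. -/
theorem main_LP {G : Type*} [Group G] {m n : ℕ} {ρ ρ' : G →* (Eu m ≃ᵃ[ℝ] Eu m)}
    {T : Subgroup G} (hN : T.Normal)
    (hA : PD (affAct ρ)) (hC : CC (affAct ρ)) (hA' : PD (affAct ρ')) (hC' : CC (affAct ρ'))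
    (hT : TransBy ρ T) (hT' : TransBy ρ' T)
    (π π' : Eu m →ᵃ[ℝ] Eu n) (hπ : Function.Surjective π) (hπ' : Function.Surjective π')
    (hTπ : ∀ t ∈ T, π.linear (ρ t 0) = 0) (hTπ' : ∀ t ∈ T, π'.linear (ρ' t 0) = 0)
    (hdim : m ≤ n + 1 + Module.finrank ℝ (tspan ρ T))
    (α α' : G →* (Eu n ≃ᵃ[ℝ] Eu n))
    (hα : ∀ (g : G) x, π (ρ g x) = α g (π x))
    (hα' : ∀ (g : G) x, π' (ρ' g x) = α' g (π' x))
    {G₀ : Subgroup G} (hfin : G₀.FiniteIndex) {q₀ p : Eu n → Eu n}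
    (he : ∀ g ∈ G₀, ∀ z, q₀ (α g z) = α' g (q₀ z)) (hp : IsPolyMap p) {C : ℝ}
    (hC0 : ∀ z, ‖q₀ z - p z‖ ≤ C)
    (halt : (∃ a : Eu n →ᵃ[ℝ] Eu n, ∀ z, p z = a z) ∨
      (∀ g ∈ G₀, |LinearMap.det ((α g).linear : Eu n →ₗ[ℝ] Eu n)| =
        |LinearMap.det ((α' g).linear : Eu n →ₗ[ℝ] Eu n)|) ∨
      (∃ G₁ : Subgroup G, G₁.FiniteIndex ∧ ∃ r₀ s : Eu n → Eu n,
        (∀ g ∈ G₁, ∀ z, r₀ (α' g z) = α g (r₀ z)) ∧ IsPolyMap s ∧
          ∃ C' : ℝ, ∀ z, ‖r₀ z - s z‖ ≤ C')) :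
    ∃ q r : Eu n → Eu n, IsPolyMap q ∧ ContDiff ℝ ∞ r ∧ (∀ z, r (q z) = z) ∧
      (∀ z, q (r z) = z) ∧ (∀ g z, q (α g z) = α' g (q z)) ∧
      ∃ F R : Eu m → Eu m, ContDiff ℝ ∞ F ∧ ContDiff ℝ ∞ R ∧
        (∀ x, R (F x) = x) ∧ (∀ x, F (R x) = x) ∧
        (∀ x, π' (F x) = q (π x)) ∧ ∀ (g : G) x, F (ρ g x) = ρ' g (F x) := by
  obtain ⟨q, hqp, hqe, hqa⟩ := exists_exact hfin he hp hC0
  have hqs := hqp.contDiff
  obtain ⟨hsurj, hprop, hlift⟩ := lift_T hN hA hC hA' hC' hT hT' π π' hπ hπ' hTπ hTπ' hdim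
    (fun g => α g) (fun g => α' g) hα hα' q hqs hqe
  have hcc : ∃ K : Set (Eu n), IsCompact K ∧ ∀ z, ∃ g : G, α g z ∈ K := by
    obtain ⟨K, hK, hKc⟩ := hC
    refine ⟨π '' K, hK.image (contDiff_affineMap π).continuous, fun z => ?_⟩
    obtain ⟨x, rfl⟩ := hπ z
    obtain ⟨g, hg⟩ := hKc x
    exact ⟨g, ⟨_, hg, hα g x⟩⟩
  have hinv : ∃ r : Eu n → Eu n, ContDiff ℝ ∞ r ∧ (∀ x, r (q x) = x) ∧ ∀ y, q (r y) = y := by
    rcases halt with h | h | h
    · obtain ⟨a, ha⟩ := hqa h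
      have hqa' : q = a := funext ha
      obtain ⟨e, he1⟩ := affine_of_proper (q := a) rfl (by rw [← hqa']; exact hprop)
      refine ⟨e.symm, contDiff_affineMap (e.symm : Eu n →ᵃ[ℝ] Eu n), fun z => ?_, fun z => ?_⟩
      · rw [ha, ← he1, e.symm_apply_apply]
      · rw [ha, ← he1, e.apply_symm_apply]
    · obtain ⟨c, hc, hcon⟩ := jac_const (α := fun g => ((α g : Eu n ≃ᵃ[ℝ] Eu n) : Eu n →ᵃ[ℝ] Eu n))
        (α' := fun g => ((α' g : Eu n ≃ᵃ[ℝ] Eu n) : Eu n →ᵃ[ℝ] Eu n)) hqp hsurj hcc hqe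
        (abs_det_extend hfin h) (fun g => det_linear_ne (α g))
      exact exists_inverse_of_proper hqs (fun x => exists_equiv_of_injective
        (injective_of_det_ne (by rw [hcon]; exact hc))) hprop
    · obtain ⟨G₁, hfin₁, r₀, s, hr₀, hs, C', hC₁⟩ := h
      obtain ⟨r, hrp, hre, -⟩ := exists_exact hfin₁ hr₀ hs hC₁
      have hrs := hrp.contDiff
      have hsurj2 : Function.Surjective r := by
        have hfr : Module.finrank ℝ (tspan ρ T) = Module.finrank ℝ (tspan ρ' T) := by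
          obtain ⟨P⟩ := exists_part hA hC
          obtain ⟨P'⟩ := exists_part hA' hC'
          obtain ⟨ι, hι⟩ := exists_iota hT hT' (vsec_smooth P ρ' 0).continuous
            (fun g x => vsec_equi P ρ' 0 g x)
          obtain ⟨κ, hκ⟩ := exists_iota hT' hT (vsec_smooth P' ρ 0).continuous
            (fun g x => vsec_equi P' ρ 0 g x)
          exact le_antisymm (finrank_tspan_le hι hκ) (finrank_tspan_le hκ hι)
        exact (lift_T hN hA' hC' hA hC hT' hT π' π hπ' hπ hTπ' hTπ (by rw [← hfr]; exact hdim)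
          (fun g => α' g) (fun g => α g) hα' hα r hrs hre).1
      have hcomp : IsPolyMap (fun z => r (q z)) := hrp.comp hqp
      obtain ⟨c, hc, hcon⟩ := jac_const (q := fun z => r (q z))
        (α := fun g => ((α g : Eu n ≃ᵃ[ℝ] Eu n) : Eu n →ᵃ[ℝ] Eu n))
        (α' := fun g => ((α g : Eu n ≃ᵃ[ℝ] Eu n) : Eu n →ᵃ[ℝ] Eu n)) hcomp
        (hsurj2.comp hsurj) hcc (fun g z => by
          change r (q (α g z)) = α g (r (q z))
          rw [hqe, hre]) (fun _ => rfl) (fun g => det_linear_ne (α g))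
      refine exists_inverse_of_proper hqs (fun x => exists_equiv_of_injective
        (injective_of_det_ne ?_)) hprop
      intro h0
      have h1 : HasFDerivAt (fun z => r (q z)) ((fderiv ℝ r (q x)).comp (fderiv ℝ q x)) x :=
        ((hrs.differentiable (by simp) (q x)).hasFDerivAt).comp x
          ((hqs.differentiable (by simp) x).hasFDerivAt)
      have h2 := hcon x
      rw [h1.fderiv] at h2
      have h3 : ((fderiv ℝ r (q x)).comp (fderiv ℝ q x)).det =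
          (fderiv ℝ r (q x)).det * (fderiv ℝ q x).det := LinearMap.det_comp _ _
      rw [h3, h0, mul_zero] at h2
      exact hc h2.symm
  obtain ⟨r, hr, h1, h2⟩ := hinv
  exact ⟨q, r, hqp, hr, h1, h2, hqe, hlift r hr h1 h2⟩

end

end Pool.Agent.AffRig
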