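import Pool.Agent.Lib.MP_27f33f_gt.Seif3

/-!
# Smooth line fibrations modulo compact directions, immersions of the leaf spaces
-/

set_option autoImplicit false

namespace Pool.Agent.AffRig

open Filter Topology Set MeasureTheory
open scoped ContDiff Manifold

noncomputable section

variable {G : Type*} [Group G] {m n : ℕ}

/-- **Smooth transverse rigidity**, homomorphism form. -/
theorem main_smooth {ρ ρ' : G →* (Eu m ≃ᵃ[ℝ] Eu m)} {T : Subgroup G} (hN : T.Normal)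
    (hA : PD (affAct ρ)) (hC : CC (affAct ρ)) (hA' : PD (affAct ρ')) (hC' : CC (affAct ρ'))
    (hT : TransBy ρ T) (hT' : TransBy ρ' T)
    (p p' : Eu m →ₗ[ℝ] Eu (n + 1)) (hp : Function.Surjective p) (hp' : Function.Surjective p')
    (hker : ∀ x, p x = 0 ↔ x ∈ tspan ρ T) (hker' : ∀ x, p' x = 0 ↔ x ∈ tspan ρ' T)
    (Ψ Ψ' : Diffeomorph 𝓘(ℝ, Eu (n + 1)) 𝓘(ℝ, Eu n × ℝ) (Eu (n + 1)) (Eu n × ℝ) ∞)
    (β β' : G → Eu n → Eu n)
    (hα : ∀ (g : G) x, (Ψ (p (ρ g x))).1 = β g (Ψ (p x)).1)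
    (hα' : ∀ (g : G) x, (Ψ' (p' (ρ' g x))).1 = β' g (Ψ' (p' x)).1)
    (h : Eu n → Eu n) (hh : ContDiff ℝ ∞ h) (hi : ∀ z, Function.Injective (fderiv ℝ h z))
    (he : ∀ (g : G) z, h (β g z) = β' g (h z)) :
    Function.Bijective h ∧
      ∃ F R : Eu m → Eu m, ContDiff ℝ ∞ F ∧ ContDiff ℝ ∞ R ∧
        (∀ x, R (F x) = x) ∧ (∀ x, F (R x) = x) ∧
        (∀ x, (Ψ' (p' (F x))).1 = h (Ψ (p x)).1) ∧ ∀ (g : G) x, F (ρ g x) = ρ' g (F x) := by
  have := hN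
  obtain ⟨P⟩ := exists_part hA hC
  obtain ⟨P'⟩ := exists_part hA' hC'
  obtain ⟨ι, hι⟩ := exists_iota hT hT' (vsec_smooth P ρ' 0).continuous
    (fun g x => vsec_equi P ρ' 0 g x)
  obtain ⟨κ, hκ⟩ := exists_iota hT' hT (vsec_smooth P' ρ 0).continuous
    (fun g x => vsec_equi P' ρ 0 g x)
  obtain ⟨σ, hσ⟩ := LinearMap.exists_rightInverse_of_surjective p (LinearMap.range_eq_top.mpr hp)
  obtain ⟨σ', hσ'⟩ := LinearMap.exists_rightInverse_of_surjective p'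
    (LinearMap.range_eq_top.mpr hp')
  let Q : QData ρ T (n + 1) := ⟨p, σ, fun y => congrArg (fun L => L y) hσ, hker, hT⟩
  let Q' : QData ρ' T (n + 1) := ⟨p', σ', fun y => congrArg (fun L => L y) hσ', hker', hT'⟩
  have hb : ∀ (q : G ⧸ T) y, (Ψ (Q.hom q y)).1 = β (Quotient.out q) (Ψ y).1 := by
    intro q y
    have h1 : (QuotientGroup.mk (Quotient.out q) : G ⧸ T) = q := Quotient.out_eq q
    conv_lhs => rw [← h1, Q.hom_mk']
    change (Ψ (p (ρ (Quotient.out q) (σ y)))).1 = _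
    rw [hα]
    have h2 : p (σ y) = y := Q.pσ y
    rw [h2]
  have hb' : ∀ (q : G ⧸ T) y, (Ψ' (Q'.hom q y)).1 = β' (Quotient.out q) (Ψ' y).1 := by
    intro q y
    have h1 : (QuotientGroup.mk (Quotient.out q) : G ⧸ T) = q := Quotient.out_eq q
    conv_lhs => rw [← h1, Q'.hom_mk']
    change (Ψ' (p' (ρ' (Quotient.out q) (σ' y)))).1 = _
    rw [hα']
    have h2 : p' (σ' y) = y := Q'.pσ y
    rw [h2]
  obtain ⟨-, hprop, hlift⟩ := hom_smooth_lift (G := G ⧸ T)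
    (Q.pd hA) (Q.cc hC) (Q'.pd hA') (Q'.cc hC') Ψ Ψ'
    (fun q => β (Quotient.out q)) (fun q => β' (Quotient.out q)) hb hb' h hh
    (fun q z => he _ z)
  obtain ⟨r, hr, hrh, hhr⟩ := exists_inverse_of_proper hh
    (fun x => exists_equiv_of_injective (hi x)) hprop
  refine ⟨⟨Function.LeftInverse.injective hrh, Function.RightInverse.surjective hhr⟩, ?_⟩
  obtain ⟨F₂, R₂, hF₂, hR₂, hRF, hFR, hF₂p, hF₂e⟩ := hlift r hr hrh hhr
  obtain ⟨F, R, hF, hR, h1, h2, h3, h4⟩ := exists_diffeo_T Q Q' hι hκ (Q.pd hA) (Q.cc hC)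
    hF₂ hR₂ hRF hFR hF₂e
  refine ⟨F, R, hF, hR, h1, h2, fun x => ?_, h4⟩
  have h5 : p' (F x) = F₂ (p x) := h3 x
  rw [h5, hF₂p]

end

end Pool.Agent.AffRig
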