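import Mathlib

/-!
# Smoothness of the fibrewise primitive of a smooth function
-/

set_option autoImplicit false

namespace Pool.Agent.AffRig

open MeasureTheory Filter Topology Set
open scoped ContDiff

noncomputable section

/-- A parametric integral over `[0,1]` of a smooth function is smooth. -/
theorem contDiff_param {P : Type*} [NormedAddCommGroup P] [NormedSpace ℝ P]
    {H : P → ℝ → ℝ} (hH : ContDiff ℝ ∞ (Function.uncurry H)) :
    ContDiff ℝ ∞ (fun p => ∫ s in (0 : ℝ)..1, H p s) := by
  let χ : ContDiffBump (0 : ℝ) := ⟨1, 2, by norm_num, by norm_num⟩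
  let f : ℝ → ℝ := (Ioc (0 : ℝ) 1).indicator (fun _ => (1 : ℝ))
  let g : P → ℝ → ℝ := fun p x => χ x • H p (-x)
  have hf : LocallyIntegrable f volume := by
    have h1 : Integrable f volume := by
      refine (integrable_indicator_iff measurableSet_Ioc).mpr ?_
      exact integrableOn_const (by simp)
    exact h1.locallyIntegrable
  have hg : ContDiffOn ℝ ((⊤ : ℕ∞) : WithTop ℕ∞) (Function.uncurry g)
      ((univ : Set P) ×ˢ (univ : Set ℝ)) := by
    have h2 : ContDiff ℝ ∞ (fun q : P × ℝ => χ q.2) := χ.contDiff.comp contDiff_snd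
    have h3 : ContDiff ℝ ∞ (fun q : P × ℝ => Function.uncurry H (q.1, -q.2)) :=
      hH.comp (contDiff_fst.prodMk contDiff_snd.neg)
    exact (h2.smul h3).contDiffOn
  have key := contDiffOn_convolution_right_with_param_comp (μ := (volume : Measure ℝ))
    (ContinuousLinearMap.lsmul ℝ ℝ : ℝ →L[ℝ] ℝ →L[ℝ] ℝ) (s := univ) (v := fun _ : P => (0 : ℝ))
    (f := f) (g := g) (n := ⊤) (k := Metric.closedBall 0 2)
    contDiffOn_const isOpen_univ (isCompact_closedBall _ _)
    (fun p x _ hx => by
      have : χ x = 0 := χ.zero_of_le_dist (by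
        rw [Metric.mem_closedBall, not_le] at hx
        exact hx.le)
      change χ x • H p (-x) = 0
      rw [this, zero_smul]) hf hg
  rw [contDiffOn_univ] at key
  have e : (fun p => ∫ s in (0 : ℝ)..1, H p s) = fun x => (MeasureTheory.convolution f (g x)
      (ContinuousLinearMap.lsmul ℝ ℝ : ℝ →L[ℝ] ℝ →L[ℝ] ℝ) volume) 0 := by
    funext p
    unfold MeasureTheory.convolution
    rw [intervalIntegral.integral_of_le zero_le_one, ← integral_indicator measurableSet_Ioc]
    congr 1
    funext t
    by_cases ht : t ∈ Ioc (0 : ℝ) 1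
    · have h1 : f t = 1 := by simp only [f]; rw [indicator_of_mem ht]
      have h2 : χ (0 - t) = 1 := χ.one_of_mem_closedBall (by
        rw [Metric.mem_closedBall, dist_zero_right, Real.norm_eq_abs, zero_sub, abs_neg]
        exact abs_le.mpr ⟨by linarith [ht.1], ht.2⟩)
      rw [indicator_of_mem ht, h1]
      change H p t = (1 : ℝ) • (χ (0 - t) • H p (-(0 - t)))
      rw [h2, one_smul, one_smul]
      congr 1
      ring
    · have h1 : f t = 0 := by simp only [f]; rw [indicator_of_notMem ht]
      rw [indicator_of_notMem ht, h1]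
      change (0 : ℝ) = (0 : ℝ) • (χ (0 - t) • H p (-(0 - t)))
      rw [zero_smul]
  rw [e]
  exact key

/-- The fibrewise primitive. -/
def prim {B : Type*} (F : B × ℝ → ℝ) (x : B × ℝ) : ℝ := ∫ r in (0 : ℝ)..x.2, F (x.1, r)

theorem contDiff_prim {B : Type*} [NormedAddCommGroup B] [NormedSpace ℝ B] {F : B × ℝ → ℝ}
    (hF : ContDiff ℝ ∞ F) : ContDiff ℝ ∞ (prim F) := by
  have h1 : prim F = fun x : B × ℝ => x.2 * ∫ s in (0 : ℝ)..1, F (x.1, x.2 * s) := by
    funext x
    unfold prim
    have := intervalIntegral.mul_integral_comp_mul_left (a := (0 : ℝ)) (b := 1)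
      (f := fun r => F (x.1, r)) (c := x.2)
    rw [this]
    simp
  rw [h1]
  refine contDiff_snd.mul ?_
  apply contDiff_param (H := fun (x : B × ℝ) s => F (x.1, x.2 * s))
  exact hF.comp (((contDiff_fst.comp contDiff_fst)).prodMk
    ((contDiff_snd.comp contDiff_fst).mul contDiff_snd))

theorem hasDerivAt_prim {B : Type*} [NormedAddCommGroup B] [NormedSpace ℝ B] {F : B × ℝ → ℝ}
    (hF : Continuous F) (z : B) (t : ℝ) : HasDerivAt (fun r => prim F (z, r)) (F (z, t)) t := by
  have hc : Continuous (fun r => F (z, r)) := hF.comp (by fun_prop)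
  exact hc.integral_hasStrictDerivAt 0 t |>.hasDerivAt

end

end Pool.Agent.AffRig
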