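import Pool.Agent.Lib.MP_27f33f_gt.MainA

/-!
# Polynomial maps of Euclidean spaces
-/

set_option autoImplicit false

namespace Pool.Agent.AffRig

open Filter Topology Set MeasureTheory
open scoped ContDiff Manifold

noncomputable section

/-- Polynomial functions on Euclidean space. -/
def IsPolyFun {n : ℕ} (f : Eu n → ℝ) : Prop :=
  ∃ P : MvPolynomial (Fin n) ℝ, ∀ z : Eu n, f z = MvPolynomial.eval (fun j => z j) P

/-- Polynomial maps between Euclidean spaces. -/
def IsPolyMap {n k : ℕ} (q : Eu n → Eu k) : Prop :=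
  ∃ P : Fin k → MvPolynomial (Fin n) ℝ, ∀ z i, q z i = MvPolynomial.eval (fun j => z j) (P i)

lemma isPolyMap_iff {n k : ℕ} {q : Eu n → Eu k} :
    IsPolyMap q ↔ ∀ i, IsPolyFun (fun z => q z i) := by
  constructor
  · rintro ⟨P, hP⟩ i
    exact ⟨P i, fun z => hP z i⟩
  · intro h
    choose P hP using h
    exact ⟨P, fun z i => hP i z⟩

namespace IsPolyFun

variable {n : ℕ} {f g : Eu n → ℝ}

lemma const (c : ℝ) : IsPolyFun (fun _ : Eu n => c) :=
  ⟨MvPolynomial.C c, fun z => by simp⟩

lemma coord (i : Fin n) : IsPolyFun (fun z : Eu n => z i) :=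
  ⟨MvPolynomial.X i, fun z => by simp⟩

lemma add (hf : IsPolyFun f) (hg : IsPolyFun g) : IsPolyFun (fun z => f z + g z) := by
  obtain ⟨P, hP⟩ := hf
  obtain ⟨Q, hQ⟩ := hg
  exact ⟨P + Q, fun z => by rw [map_add, ← hP, ← hQ]⟩

lemma mul (hf : IsPolyFun f) (hg : IsPolyFun g) : IsPolyFun (fun z => f z * g z) := by
  obtain ⟨P, hP⟩ := hf
  obtain ⟨Q, hQ⟩ := hg
  exact ⟨P * Q, fun z => by rw [map_mul, ← hP, ← hQ]⟩

lemma const_mul (c : ℝ) (hf : IsPolyFun f) : IsPolyFun (fun z => c * f z) :=
  (const c).mul hf

lemma sum {ι : Type*} (s : Finset ι) {F : ι → Eu n → ℝ} (h : ∀ i ∈ s, IsPolyFun (F i)) :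
    IsPolyFun (fun z => ∑ i ∈ s, F i z) := by
  classical
  induction s using Finset.induction_on with
  | empty => simpa using const (n := n) 0
  | insert a s ha ih =>
    have h1 : (fun z => ∑ i ∈ insert a s, F i z) = fun z => F a z + ∑ i ∈ s, F i z := by
      funext z
      rw [Finset.sum_insert ha]
    rw [h1]
    exact (h a (Finset.mem_insert_self a s)).add
      (ih (fun i hi => h i (Finset.mem_insert_of_mem hi)))

lemma prod {ι : Type*} (s : Finset ι) {F : ι → Eu n → ℝ} (h : ∀ i ∈ s, IsPolyFun (F i)) :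
    IsPolyFun (fun z => ∏ i ∈ s, F i z) := by
  classical
  induction s using Finset.induction_on with
  | empty => simpa using const (n := n) 1
  | insert a s ha ih =>
    have h1 : (fun z => ∏ i ∈ insert a s, F i z) = fun z => F a z * ∏ i ∈ s, F i z := by
      funext z
      rw [Finset.prod_insert ha]
    rw [h1]
    exact (h a (Finset.mem_insert_self a s)).mul
      (ih (fun i hi => h i (Finset.mem_insert_of_mem hi)))

/-- Composition with a polynomial map. -/
lemma comp {k : ℕ} {f : Eu k → ℝ} (hf : IsPolyFun f) {q : Eu n → Eu k} (hq : IsPolyMap q) :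
    IsPolyFun (fun z => f (q z)) := by
  obtain ⟨P, hP⟩ := hf
  obtain ⟨Q, hQ⟩ := hq
  refine ⟨MvPolynomial.aeval Q P, fun z => ?_⟩
  have key : ∀ P : MvPolynomial (Fin k) ℝ,
      MvPolynomial.eval (fun j => z j) (MvPolynomial.aeval Q P) =
        MvPolynomial.eval (fun i => MvPolynomial.eval (fun j => z j) (Q i)) P := by
    intro P
    induction P using MvPolynomial.induction_on with
    | C a => simp
    | add p q hp hq => rw [map_add, map_add, map_add, hp, hq]
    | mul_X p i hp => rw [map_mul, map_mul, map_mul, hp, MvPolynomial.aeval_X, MvPolynomial.eval_X]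
  rw [key]
  change f (q z) = _
  rw [hP]
  congr 2
  funext i
  exact hQ z i

lemma contDiff (hf : IsPolyFun f) : ContDiff ℝ ∞ f := by
  obtain ⟨P, hP⟩ := hf
  have h1 : f = fun z : Eu n => MvPolynomial.eval (fun j => z j) P := funext hP
  rw [h1]
  clear hP h1
  induction P using MvPolynomial.induction_on with
  | C a => simpa using contDiff_const
  | add p q hp hq =>
    have : (fun z : Eu n => MvPolynomial.eval (fun j => z j) (p + q)) =
        fun z : Eu n => MvPolynomial.eval (fun j => z j) p + MvPolynomial.eval (fun j => z j) q := by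
      funext z; rw [map_add]
    rw [this]
    exact hp.add hq
  | mul_X p i hp =>
    have : (fun z : Eu n => MvPolynomial.eval (fun j => z j) (p * MvPolynomial.X i)) =
        fun z : Eu n => MvPolynomial.eval (fun j => z j) p * z i := by
      funext z; rw [map_mul, MvPolynomial.eval_X]
    rw [this]
    exact hp.mul (by fun_prop)

/-- Directional derivatives of polynomial functions are polynomial. -/
lemma deriv (hf : IsPolyFun f) (v : Eu n) : IsPolyFun (fun z => fderiv ℝ f z v) := by
  obtain ⟨P, hP⟩ := hf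
  have h1 : f = fun z : Eu n => MvPolynomial.eval (fun j => z j) P := funext hP
  rw [h1]
  clear hP h1
  induction P using MvPolynomial.induction_on with
  | C a =>
    have : (fun z : Eu n => fderiv ℝ (fun z : Eu n => MvPolynomial.eval (fun j => z j)
        (MvPolynomial.C a)) z v) = fun _ => 0 := by
      funext z
      simp
    rw [this]
    exact const 0
  | add p q hp hq =>
    have hpc : ContDiff ℝ ∞ (fun z : Eu n => MvPolynomial.eval (fun j => z j) p) :=
      contDiff ⟨p, fun _ => rfl⟩
    have hqc : ContDiff ℝ ∞ (fun z : Eu n => MvPolynomial.eval (fun j => z j) q) :=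
      contDiff ⟨q, fun _ => rfl⟩
    have : (fun z : Eu n => fderiv ℝ (fun z : Eu n => MvPolynomial.eval (fun j => z j) (p + q)) z v)
        = fun z : Eu n => fderiv ℝ (fun z : Eu n => MvPolynomial.eval (fun j => z j) p) z v +
          fderiv ℝ (fun z : Eu n => MvPolynomial.eval (fun j => z j) q) z v := by
      funext z
      have h2 : (fun z : Eu n => MvPolynomial.eval (fun j => z j) (p + q)) =
        fun z : Eu n => MvPolynomial.eval (fun j => z j) p +
          MvPolynomial.eval (fun j => z j) q := by
        funext z; rw [map_add]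
      rw [h2, fderiv_fun_add (hpc.differentiable (by simp) z) (hqc.differentiable (by simp) z)]
      rfl
    rw [this]
    exact hp.add hq
  | mul_X p i hp =>
    have hpc : ContDiff ℝ ∞ (fun z : Eu n => MvPolynomial.eval (fun j => z j) p) :=
      contDiff ⟨p, fun _ => rfl⟩
    have hi : ContDiff ℝ ∞ (fun z : Eu n => z i) := contDiff (coord i)
    have hi2 : ∀ z : Eu n, fderiv ℝ (fun z : Eu n => z i) z v = v i := by
      intro z
      have : HasFDerivAt (fun z : Eu n => z i) (EuclideanSpace.proj i : Eu n →L[ℝ] ℝ) z :=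
        (EuclideanSpace.proj i : Eu n →L[ℝ] ℝ).hasFDerivAt
      rw [this.fderiv]
      rfl
    have : (fun z : Eu n => fderiv ℝ (fun z : Eu n => MvPolynomial.eval (fun j => z j)
        (p * MvPolynomial.X i)) z v) =
        fun z : Eu n => MvPolynomial.eval (fun j => z j) p * v i +
          z i * fderiv ℝ (fun z : Eu n => MvPolynomial.eval (fun j => z j) p) z v := by
      funext z
      have h2 : (fun z : Eu n => MvPolynomial.eval (fun j => z j) (p * MvPolynomial.X i)) =
        fun z : Eu n => MvPolynomial.eval (fun j => z j) p * z i := by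
        funext z; rw [map_mul, MvPolynomial.eval_X]
      rw [h2, fderiv_fun_mul (hpc.differentiable (by simp) z) (hi.differentiable (by simp) z)]
      simp [hi2]
    rw [this]
    have hpp : IsPolyFun (fun z : Eu n => MvPolynomial.eval (fun j => z j) p) :=
      ⟨p, fun _ => rfl⟩
    exact (hpp.mul (const _)).add ((coord i).mul hp)

/-- A bounded polynomial function is constant. -/
lemma const_of_bounded (hf : IsPolyFun f) {C : ℝ} (hC : ∀ z, |f z| ≤ C) (z : Eu n) :
    f z = f 0 := by
  obtain ⟨P, hP⟩ := hf
  let Q : Polynomial ℝ := MvPolynomial.aeval (fun j => Polynomial.C (z j) * Polynomial.X) P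
  have hQ : ∀ t : ℝ, Q.eval t = f (t • z) := by
    intro t
    have key : ∀ P : MvPolynomial (Fin n) ℝ,
        Polynomial.eval t (MvPolynomial.aeval
          (fun j => Polynomial.C (z j) * Polynomial.X) P) =
        MvPolynomial.eval (fun j => (t • z) j) P := by
      intro P
      induction P using MvPolynomial.induction_on with
      | C a => simp
      | add p q hp hq => rw [map_add, map_add, Polynomial.eval_add, hp, hq]
      | mul_X p i hp =>
        rw [map_mul, map_mul, Polynomial.eval_mul, hp, MvPolynomial.aeval_X,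
          MvPolynomial.eval_X, Polynomial.eval_mul, Polynomial.eval_C, Polynomial.eval_X]
        congr 1
        change z i * t = t * z i
        ring
    rw [hP]
    exact key P
  have h1 : Q.degree ≤ 0 := by
    rw [← Polynomial.isBoundedUnder_abs_atTop_iff]
    refine ⟨C, ?_⟩
    rw [Filter.eventually_map]
    exact Filter.Eventually.of_forall (fun t => by rw [hQ]; exact hC _)
  rw [Polynomial.degree_le_zero_iff] at h1
  have h2 := hQ 1
  have h3 := hQ 0
  rw [h1, Polynomial.eval_C] at h2 h3
  rw [one_smul] at h2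
  rw [zero_smul] at h3
  rw [← h2, ← h3]

end IsPolyFun

namespace IsPolyMap

variable {n k l : ℕ} {p q : Eu n → Eu k}

lemma contDiff (hq : IsPolyMap q) : ContDiff ℝ ∞ q := by
  rw [contDiff_euclidean]
  exact fun i => (isPolyMap_iff.mp hq i).contDiff

lemma add (hp : IsPolyMap p) (hq : IsPolyMap q) : IsPolyMap (fun z => p z + q z) := by
  rw [isPolyMap_iff] at hp hq ⊢
  exact fun i => (hp i).add (hq i)

lemma const_smul (c : ℝ) (hq : IsPolyMap q) : IsPolyMap (fun z => c • q z) := by
  rw [isPolyMap_iff] at hq ⊢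
  exact fun i => (hq i).const_mul c

lemma const (c : Eu k) : IsPolyMap (fun _ : Eu n => c) :=
  isPolyMap_iff.mpr (fun _ => IsPolyFun.const _)

lemma sum {ι : Type*} (s : Finset ι) {F : ι → Eu n → Eu k} (h : ∀ i ∈ s, IsPolyMap (F i)) :
    IsPolyMap (fun z => ∑ i ∈ s, F i z) := by
  rw [isPolyMap_iff]
  intro i
  have h1 : (fun z => (∑ j ∈ s, F j z) i) = fun z => ∑ j ∈ s, F j z i := by
    funext z
    exact map_sum (EuclideanSpace.proj i : Eu k →L[ℝ] ℝ) _ _
  rw [h1]
  exact IsPolyFun.sum s (fun j hj => isPolyMap_iff.mp (h j hj) i)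

lemma comp {q : Eu k → Eu l} (hq : IsPolyMap q) (hp : IsPolyMap p) :
    IsPolyMap (fun z => q (p z)) := by
  rw [isPolyMap_iff] at hq ⊢
  exact fun i => (hq i).comp hp

/-- Affine maps are polynomial. -/
lemma of_affine (a : Eu n →ᵃ[ℝ] Eu k) : IsPolyMap a := by
  rw [isPolyMap_iff]
  intro i
  have h1 : (fun z : Eu n => a z i) = fun z : Eu n =>
      (∑ j ∈ (Finset.univ : Finset (Fin n)), a.linear (EuclideanSpace.single j (1 : ℝ)) i * z j) +
        a 0 i := by
    funext z
    have h2 : z = ∑ j : Fin n, z j • EuclideanSpace.single j (1 : ℝ) := by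
      have := (EuclideanSpace.basisFun (Fin n) ℝ).sum_repr z
      simpa using this.symm
    have h3 : a z = a.linear z + a 0 := congrFun a.decomp z
    have h4 : a.linear z = ∑ j : Fin n, z j • a.linear (EuclideanSpace.single j (1 : ℝ)) := by
      conv_lhs => rw [h2]
      rw [map_sum]
      exact Finset.sum_congr rfl (fun j _ => map_smul _ _ _)
    rw [h3]
    change a.linear z i + a 0 i = _
    rw [h4]
    congr 1
    have h5 := map_sum (EuclideanSpace.proj i : Eu k →L[ℝ] ℝ)
      (fun j => z j • a.linear (EuclideanSpace.single j (1 : ℝ))) Finset.univ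
    refine h5.trans (Finset.sum_congr rfl (fun j _ => ?_))
    change z j * a.linear (EuclideanSpace.single j (1 : ℝ)) i = _
    ring
  rw [h1]
  exact (IsPolyFun.sum _ (fun j _ => (IsPolyFun.coord j).const_mul _)).add (IsPolyFun.const _)

/-- The Jacobian determinant of a polynomial map is a polynomial function. -/
lemma det {q : Eu n → Eu n} (hq : IsPolyMap q) :
    IsPolyFun (fun z => (fderiv ℝ q z).det) := by
  let b := (EuclideanSpace.basisFun (Fin n) ℝ).toBasis
  have h1 : (fun z => (fderiv ℝ q z).det) = fun z =>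
      ∑ σ ∈ (Finset.univ : Finset (Equiv.Perm (Fin n))),
        ((Equiv.Perm.sign σ : ℤ) : ℝ) *
          ∏ i ∈ (Finset.univ : Finset (Fin n)),
            fderiv ℝ (fun y => q y (σ i)) z (EuclideanSpace.single i (1 : ℝ)) := by
    funext z
    change LinearMap.det (fderiv ℝ q z : Eu n →ₗ[ℝ] Eu n) = _
    rw [← LinearMap.det_toMatrix b, Matrix.det_apply']
    refine Finset.sum_congr rfl (fun σ _ => ?_)
    congr 1
    refine Finset.prod_congr rfl (fun i _ => ?_)
    rw [LinearMap.toMatrix_apply]
    have h2 : HasFDerivAt (fun y => q y (σ i))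
        ((EuclideanSpace.proj (σ i) : Eu n →L[ℝ] ℝ).comp (fderiv ℝ q z)) z :=
      (EuclideanSpace.proj (σ i) : Eu n →L[ℝ] ℝ).hasFDerivAt.comp z
        ((hq.contDiff.differentiable (by simp) z).hasFDerivAt)
    rw [h2.fderiv]
    simp [b]
  rw [h1]
  refine IsPolyFun.sum _ (fun σ _ => IsPolyFun.const_mul _ (IsPolyFun.prod _ (fun i _ => ?_)))
  exact (isPolyMap_iff.mp hq (σ i)).deriv _

/-- A polynomial map with bounded Jacobian determinant has constant Jacobian determinant. -/
theorem det_const {q : Eu n → Eu n} (hq : IsPolyMap q) {C : ℝ}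
    (hC : ∀ z, |(fderiv ℝ q z).det| ≤ C) (z : Eu n) :
    (fderiv ℝ q z).det = (fderiv ℝ q 0).det :=
  hq.det.const_of_bounded hC z

end IsPolyMap

/-- A surjective smooth self-map has a point with nonzero Jacobian determinant. -/
theorem exists_det_ne_zero {n : ℕ} {q : Eu n → Eu n} (hq : ContDiff ℝ ∞ q)
    (hs : Function.Surjective q) : ∃ z, (fderiv ℝ q z).det ≠ 0 := by
  by_contra hcon
  push Not at hcon
  have h1 : (volume : Measure (Eu n)) (q '' univ) = 0 :=
    addHaar_image_eq_zero_of_det_fderivWithin_eq_zero volume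
      (fun x _ => ((hq.differentiable (by simp) x).hasFDerivAt).hasFDerivWithinAt)
      (fun x _ => hcon x)
  rw [image_univ, hs.range_eq] at h1
  exact (isOpen_univ.measure_pos (volume : Measure (Eu n)) univ_nonempty).ne' h1

end

end Pool.Agent.AffRig
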