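import Mathlib

/-!
# Proper local diffeomorphisms of a finite dimensional vector space are bijective
-/

set_option autoImplicit false

namespace Pool.Agent.AffRig

open Filter Topology Set
open scoped ContDiff Manifold

noncomputable section

variable {E : Type*} [NormedAddCommGroup E] [NormedSpace ℝ E] [FiniteDimensional ℝ E]

/-- A continuous linear self-map with nonzero determinant, as an equivalence. -/
theorem exists_equiv_of_det_ne {E : Type*} [NormedAddCommGroup E] [NormedSpace ℝ E]
    [FiniteDimensional ℝ E] (L : E →L[ℝ] E) (hL : Function.Injective L) :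
    ∃ e : E ≃L[ℝ] E, (e : E →L[ℝ] E) = L := by
  refine ⟨(LinearEquiv.ofInjectiveEndo (L : E →ₗ[ℝ] E) hL).toContinuousLinearEquiv, ?_⟩
  ext x
  rfl

/-- A smooth proper map with injective derivative everywhere is a bijection. -/
theorem bijective_of_proper_localDiffeo {f : E → E} (hf : ContDiff ℝ ∞ f)
    (hd : ∀ x, Function.Injective (fderiv ℝ f x))
    (hp : ∀ L : Set E, IsCompact L → IsCompact (f ⁻¹' L)) : Function.Bijective f := by
  have hlh : ∀ x, ∃ φ : OpenPartialHomeomorph E E, x ∈ φ.source ∧ f = φ := by
    intro x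
    obtain ⟨e, he⟩ := exists_equiv_of_det_ne _ (hd x)
    have hst : HasStrictFDerivAt f (e : E →L[ℝ] E) x := by
      rw [he]
      exact hf.contDiffAt.hasStrictFDerivAt (by simp)
    exact ⟨hst.toOpenPartialHomeomorph f, hst.mem_toOpenPartialHomeomorph_source, rfl⟩
  have hloc : IsLocalHomeomorph f := IsLocalHomeomorph.mk f (fun x => by
    obtain ⟨φ, h1, h2⟩ := hlh x
    exact ⟨φ, h1, fun y _ => by rw [h2]⟩)
  have hprop : IsProperMap f := by
    rw [isProperMap_iff_isCompact_preimage]
    exact ⟨hf.continuous, fun K hK => hp K hK⟩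
  have hfin : ∀ x ∈ (univ : Set E), (f ⁻¹' {x}).Finite := by
    intro x _
    have hc : IsCompact (f ⁻¹' {x}) := hp _ isCompact_singleton
    refine hc.finite (IsDiscrete.of_openPartialHomeomorph f subset_rfl (fun e _ => ?_))
    obtain ⟨φ, h1, h2⟩ := hlh e
    exact ⟨φ, h1, h2.symm⟩
  have hcov : IsCoveringMap f := by
    rw [isCoveringMap_iff_isCoveringMapOn_univ]
    refine hprop.isClosedMap.isCoveringMapOn_of_isLocalHomeomorphOn hfin ?_
    simpa [← isLocalHomeomorph_iff_isLocalHomeomorphOn_univ] using hloc
  have hsurj : Function.Surjective f := by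
    have hcl : IsClopen (range f) := ⟨hprop.isClosedMap.isClosed_range, hloc.isOpenMap.isOpen_range⟩
    rcases isClopen_iff.mp hcl with h | h
    · exact absurd h (range_nonempty _).ne_empty
    · exact range_eq_univ.mp h
  refine ⟨?_, hsurj⟩
  obtain ⟨F, ⟨hF0, hFf⟩, -⟩ := hcov.existsUnique_continuousMap_lifts (ContinuousMap.id E) (f 0) 0 rfl
  have h1 : (F : E → E) ∘ f = id := by
    refine hcov.eq_of_comp_eq (F.continuous.comp hf.continuous) continuous_id ?_ 0 ?_
    · funext x
      have := congrFun hFf (f x)
      exact this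
    · exact hF0
  exact Function.LeftInverse.injective (g := F) (fun x => congrFun h1 x)

/-- A smooth proper map with injective derivative everywhere is a diffeomorphism. -/
theorem exists_diffeo_of_proper_localDiffeo {f : E → E} (hf : ContDiff ℝ ∞ f)
    (hd : ∀ x, Function.Injective (fderiv ℝ f x))
    (hp : ∀ L : Set E, IsCompact L → IsCompact (f ⁻¹' L)) :
    ∃ F : Diffeomorph 𝓘(ℝ, E) 𝓘(ℝ, E) E E ∞, ∀ x, F x = f x := by
  have hb := bijective_of_proper_localDiffeo hf hd hp
  choose e he using fun x => exists_equiv_of_det_ne _ (hd x)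
  have hst : ∀ x, HasStrictFDerivAt f (e x : E →L[ℝ] E) x := fun x => by
    rw [he]
    exact hf.contDiffAt.hasStrictFDerivAt (by simp)
  have hopen : IsOpenMap f := isOpenMap_of_hasStrictFDerivAt_equiv hst
  let H : E ≃ₜ E := (Equiv.ofBijective f hb).toHomeomorphOfContinuousOpen hf.continuous hopen
  have hH : ∀ x, H x = f x := fun _ => rfl
  have hsymm : ContDiff ℝ ∞ H.symm :=
    H.contDiff_symm (f₀' := e) (fun x => (hst x).hasFDerivAt) hf
  exact ⟨{ toFun := f
           invFun := H.symm
           left_inv := fun x => H.symm_apply_apply x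
           right_inv := fun x => H.apply_symm_apply x
           contMDiff_toFun := contMDiff_iff_contDiff.mpr hf
           contMDiff_invFun := contMDiff_iff_contDiff.mpr hsymm }, fun _ => rfl⟩

end

end Pool.Agent.AffRig
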