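import Pool.Agent.Lib.MP_27f33f_gt.MainA
import Pool.Agent.Lib.BrouwerThm.Basic

/-!
# Equivariant continuous maps between affine crystallographic actions are onto
-/

set_option autoImplicit false

namespace Pool.Agent.AffRig

open Filter Topology Set MeasureTheory
open scoped ContDiff Manifold

noncomputable section

/-- The averaged equivariant map into an affine space. -/
def vsec {G X : Type*} [Group G] [NormedAddCommGroup X] [NormedSpace ℝ X] {n : ℕ}
    {A : SAct G X} (P : Part A) (ρ : G →* (Eu n ≃ᵃ[ℝ] Eu n)) (y : Eu n) (x : X) : Eu n :=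
  ∑ᶠ g, P.w (A.f g x) • ρ g⁻¹ y

lemma affEquiv_decomp {n : ℕ} (g : Eu n ≃ᵃ[ℝ] Eu n) (x : Eu n) : g x = g.linear x + g 0 := by
  have := congrFun ((g : Eu n →ᵃ[ℝ] Eu n).decomp) x
  exact this

section vsec

variable {G X : Type*} [Group G] [NormedAddCommGroup X] [NormedSpace ℝ X] {n : ℕ}
    {A : SAct G X} (P : Part A) (ρ : G →* (Eu n ≃ᵃ[ℝ] Eu n)) (y : Eu n)

theorem vsec_smooth : ContDiff ℝ ∞ (vsec P ρ y) := by
  refine contDiff_finsum_loc (fun g => ?_) ?_
  · exact (P.sm.comp (A.sm g)).smul contDiff_const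
  · refine P.loc.subset ?_
    intro g x hx hx2
    apply hx
    have : P.w (A.f g x) = 0 := hx2
    change P.w (A.f g x) • _ = 0
    rw [this, zero_smul]

theorem vsec_equi (h : G) (x : X) : vsec P ρ y (A.f h x) = ρ h (vsec P ρ y x) := by
  have hfs : (Function.support fun g => P.w (A.f g x)).Finite := by
    refine (P.loc.point_finite x).subset ?_
    intro g hg
    exact hg
  have e1 : vsec P ρ y (A.f h x) =
      ∑ᶠ k, (P.w (A.f k x) • (ρ h).linear (ρ k⁻¹ y) + P.w (A.f k x) • ρ h 0) := by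
    unfold vsec
    rw [← finsum_comp_equiv (Equiv.mulRight h)
      (f := fun k => (P.w (A.f k x) • (ρ h).linear (ρ k⁻¹ y) + P.w (A.f k x) • ρ h 0))]
    apply finsum_congr
    intro g
    change P.w (A.f g (A.f h x)) • ρ g⁻¹ y =
      (P.w (A.f (g * h) x) • (ρ h).linear (ρ (g * h)⁻¹ y) + P.w (A.f (g * h) x) • ρ h 0)
    rw [A.mul g h x, ← smul_add, ← affEquiv_decomp]
    congr 1
    have e2 : g⁻¹ = h * (g * h)⁻¹ := by group
    have e3 : ρ g⁻¹ = ρ h * ρ (g * h)⁻¹ := by rw [← map_mul, ← e2]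
    rw [e3]
    rfl
  have hf1 : (Function.support fun k => P.w (A.f k x) • (ρ h).linear (ρ k⁻¹ y)).Finite :=
    hfs.subset (by
      intro k hk hk2
      apply hk
      have : P.w (A.f k x) = 0 := hk2
      change P.w (A.f k x) • _ = 0
      rw [this, zero_smul])
  have hf2 : (Function.support fun k => P.w (A.f k x) • ρ h 0).Finite :=
    hfs.subset (by
      intro k hk hk2
      apply hk
      have : P.w (A.f k x) = 0 := hk2
      change P.w (A.f k x) • _ = 0
      rw [this, zero_smul])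
  have hf3 : (Function.support fun k => P.w (A.f k x) • ρ k⁻¹ y).Finite :=
    hfs.subset (by
      intro k hk hk2
      apply hk
      have : P.w (A.f k x) = 0 := hk2
      change P.w (A.f k x) • _ = 0
      rw [this, zero_smul])
  rw [e1, finsum_add_distrib hf1 hf2, ← finsum_smul, P.sum, one_smul,
    affEquiv_decomp (ρ h) (vsec P ρ y x)]
  congr 1
  unfold vsec
  have h3 := (((ρ h).linear : Eu n →ₗ[ℝ] Eu n).toAddMonoidHom).map_finsum hf3
  have h4 : ∀ k, P.w (A.f k x) • (ρ h).linear (ρ k⁻¹ y) =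
      (ρ h).linear (P.w (A.f k x) • ρ k⁻¹ y) := fun k => (map_smul _ _ _).symm
  rw [finsum_congr h4]
  exact h3.symm

end vsec

/-- **Equivariant maps are onto** (no retraction theorem). -/
theorem surj_equi {n : ℕ} {H : Type*} [Group H] {ρ ρ' : H →* (Eu n ≃ᵃ[ℝ] Eu n)}
    (hA' : PD (affAct ρ')) (hC' : CC (affAct ρ'))
    {f : Eu n → Eu n} (hf : Continuous f) (he : ∀ g x, f (ρ g x) = ρ' g (f x)) :
    Function.Surjective f := by
  obtain ⟨P⟩ := exists_part hA' hC'
  obtain ⟨K, hK, hKc⟩ := hC'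
  let h : Eu n → Eu n := vsec P ρ 0
  have hh : Continuous h := (vsec_smooth P ρ 0).continuous
  have hhe : ∀ g y, h (ρ' g y) = ρ g (h y) := vsec_equi P ρ 0
  let F : Eu n → Eu n := fun y => f (h y)
  have hF : Continuous F := hf.comp hh
  have hFe : ∀ g y, F (ρ' g y) = ρ' g (F y) := fun g y => by
    change f (h (ρ' g y)) = ρ' g (f (h y))
    rw [hhe, he]
  let Φ : ℝ × Eu n → Eu n := fun s => AffineMap.lineMap s.2 (F s.2) s.1
  have hΦ : Continuous Φ := by
    have : Φ = fun s : ℝ × Eu n => s.1 • (F s.2 - s.2) + s.2 := by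
      funext s
      exact AffineMap.lineMap_apply_module' _ _ _
    rw [this]
    fun_prop
  intro p
  let L : Set (Eu n) := Φ '' (Icc (0 : ℝ) 1 ×ˢ K)
  have hL : IsCompact L := (isCompact_Icc.prod hK).image hΦ
  have hfin := hA'.two hL (isCompact_singleton (x := p))
  have hcomp : IsCompact (⋃ g ∈ {g | ((affAct ρ').f g '' L ∩ {p}).Nonempty},
      (affAct ρ').f g '' K) :=
    hfin.isCompact_biUnion (fun g _ => hK.image ((affAct ρ').cont g))
  obtain ⟨R, hR⟩ := hcomp.isBounded.subset_closedBall (0 : Eu n)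
  have hkey : ∀ t ∈ Icc (0 : ℝ) 1, ∀ y, Φ (t, y) = p → ‖y‖ ≤ R := by
    intro t ht y hy
    obtain ⟨g, hg⟩ := hKc y
    have h1 : Φ (t, ρ' g y) = ρ' g (Φ (t, y)) := by
      change AffineMap.lineMap (ρ' g y) (F (ρ' g y)) t = ρ' g (AffineMap.lineMap y (F y) t)
      rw [hFe, AffineEquiv.apply_lineMap]
    have h2 : y = ρ' g⁻¹ (ρ' g y) := ((affAct ρ').inv_f g y).symm
    have h3 : y ∈ ⋃ g ∈ {g | ((affAct ρ').f g '' L ∩ {p}).Nonempty}, (affAct ρ').f g '' K := by
      refine mem_iUnion₂.mpr ⟨g⁻¹, ?_, ⟨_, hg, h2.symm⟩⟩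
      refine ⟨p, ⟨Φ (t, ρ' g y), ⟨(t, ρ' g y), ⟨ht, hg⟩, rfl⟩, ?_⟩, rfl⟩
      rw [h1, hy]
      exact (affAct ρ').inv_f g p
    have h4 := hR h3
    rwa [mem_closedBall_zero_iff] at h4
  let lam : ℝ → ℝ := fun r => max 0 (min 1 (R + 1 - r))
  have hlam : Continuous lam := by fun_prop
  have hlam01 : ∀ r, lam r ∈ Icc (0 : ℝ) 1 := fun r =>
    ⟨le_max_left _ _, max_le zero_le_one (min_le_left _ _)⟩
  let G : Eu n → Eu n := fun z => Φ (lam ‖z + p‖, z + p) - p
  have hG : Continuous G := by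
    refine (hΦ.comp ?_).sub continuous_const
    exact (hlam.comp (by fun_prop)).prodMk (by fun_prop)
  obtain ⟨z, hz⟩ := Pool.Agent.Lib.BrouwerThm.exists_zero_of_eq_id G hG (R + 1 + ‖p‖) (by
    intro z hz
    have h1 : R + 1 ≤ ‖z + p‖ := by
      have := norm_sub_le (z + p) p
      rw [add_sub_cancel_right] at this
      linarith
    have h2 : lam ‖z + p‖ = 0 := by
      have : min 1 (R + 1 - ‖z + p‖) ≤ 0 := (min_le_right _ _).trans (by linarith)
      exact max_eq_left this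
    change AffineMap.lineMap (z + p) (F (z + p)) (lam ‖z + p‖) - p = z
    rw [h2, AffineMap.lineMap_apply_zero, add_sub_cancel_right])
  have h1 : Φ (lam ‖z + p‖, z + p) = p := sub_eq_zero.mp hz
  have h2 := hkey _ (hlam01 _) _ h1
  have h3 : lam ‖z + p‖ = 1 := by
    have : min 1 (R + 1 - ‖z + p‖) = 1 := min_eq_left (by linarith)
    change max 0 (min 1 (R + 1 - ‖z + p‖)) = 1
    rw [this]
    exact max_eq_right zero_le_one
  rw [h3] at h1
  refine ⟨h (z + p), ?_⟩
  have h4 : Φ (1, z + p) = F (z + p) := AffineMap.lineMap_apply_one _ _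
  exact h4.symm.trans h1

end

end Pool.Agent.AffRig
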