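import Pool.Agent.Lib.MP_27f33f_gt.HomLift
import Pool.Agent.Lib.MP_27f33f_gt.Surj

/-!
# Normal subgroups of translations: the linear comparison map
-/

set_option autoImplicit false

namespace Pool.Agent.AffRig

open Filter Topology Set MeasureTheory
open scoped ContDiff Manifold

noncomputable section

variable {G : Type*} [Group G] {m : ℕ}

/-- `T` acts by translations through `ρ`. -/
def TransBy (ρ : G →* (Eu m ≃ᵃ[ℝ] Eu m)) (T : Subgroup G) : Prop :=
  ∀ t ∈ T, ∀ x, ρ t x = x + ρ t 0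

/-- The span of the translation vectors. -/
def tspan (ρ : G →* (Eu m ≃ᵃ[ℝ] Eu m)) (T : Subgroup G) : Submodule ℝ (Eu m) :=
  Submodule.span ℝ {v | ∃ t ∈ T, v = ρ t 0}

variable {ρ ρ' : G →* (Eu m ≃ᵃ[ℝ] Eu m)} {T : Subgroup G}

lemma TransBy.mul (h : TransBy ρ T) {s t : G} (hs : s ∈ T) :
    ρ (s * t) 0 = ρ s 0 + ρ t 0 := by
  rw [map_mul]
  change ρ s (ρ t 0) = _
  rw [h s hs]
  exact add_comm _ _

/-- The graph of the two translation homomorphisms. -/
def tgraph (h : TransBy ρ T) (h' : TransBy ρ' T) : AddSubgroup (Eu m × Eu m) where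
  carrier := {v | ∃ t ∈ T, v = (ρ t 0, ρ' t 0)}
  zero_mem' := ⟨1, T.one_mem, by rw [map_one, map_one]; rfl⟩
  add_mem' := by
    rintro a b ⟨s, hs, rfl⟩ ⟨t, ht, rfl⟩
    exact ⟨s * t, T.mul_mem hs ht, by rw [h.mul hs, h'.mul hs]; rfl⟩
  neg_mem' := by
    rintro a ⟨s, hs, rfl⟩
    refine ⟨s⁻¹, T.inv_mem hs, ?_⟩
    have h1 := h.mul (t := s⁻¹) hs
    have h2 := h'.mul (t := s⁻¹) hs
    rw [mul_inv_cancel, map_one] at h1 h2
    have h3 : (0 : Eu m) = ρ s 0 + ρ s⁻¹ 0 := h1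
    have h4 : (0 : Eu m) = ρ' s 0 + ρ' s⁻¹ 0 := h2
    exact Prod.ext (neg_eq_of_add_eq_zero_right h3.symm) (neg_eq_of_add_eq_zero_right h4.symm)

/-- Real relations between translation vectors are respected. -/
theorem trans_relation (h : TransBy ρ T) (h' : TransBy ρ' T) {F : Eu m → Eu m}
    (hF : Continuous F) (hFe : ∀ g x, F (ρ g x) = ρ' g (F x)) (c : T →₀ ℝ)
    (hc : ∑ t ∈ c.support, c t • ρ (t : G) 0 = 0) :
    ∑ t ∈ c.support, c t • ρ' (t : G) 0 = 0 := by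
  let D : ℝ := ∑ t ∈ c.support, ‖ρ (t : G) 0‖
  let D' : ℝ := ∑ t ∈ c.support, ‖ρ' (t : G) 0‖
  obtain ⟨C, hC⟩ := (isCompact_closedBall (0 : Eu m) D).exists_bound_of_continuousOn
    hF.continuousOn
  have key : ∀ N : ℕ, N * ‖∑ t ∈ c.support, c t • ρ' (t : G) 0‖ ≤ C + ‖F 0‖ + D' := by
    intro N
    have hmem : (∑ t ∈ c.support, ⌊N * c t⌋ • ((ρ (t : G) 0, ρ' (t : G) 0) : Eu m × Eu m)) ∈
        tgraph h h' := by
      refine AddSubgroup.sum_mem _ (fun t _ => AddSubgroup.zsmul_mem _ ?_ _)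
      exact ⟨t, t.2, rfl⟩
    obtain ⟨s, hs, hsv⟩ := hmem
    have e1 : ρ s 0 = ∑ t ∈ c.support, ⌊N * c t⌋ • ρ (t : G) 0 := by
      have := congrArg Prod.fst hsv
      rw [Prod.fst_sum] at this
      exact this.symm
    have e2 : ρ' s 0 = ∑ t ∈ c.support, ⌊N * c t⌋ • ρ' (t : G) 0 := by
      have := congrArg Prod.snd hsv
      rw [Prod.snd_sum] at this
      exact this.symm
    have e3 : ρ s 0 = ∑ t ∈ c.support, ((⌊N * c t⌋ : ℝ) - N * c t) • ρ (t : G) 0 := by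
      have h1 : ∑ t ∈ c.support, ((⌊N * c t⌋ : ℝ) - N * c t) • ρ (t : G) 0 =
          ∑ t ∈ c.support, ⌊N * c t⌋ • ρ (t : G) 0 -
            (N : ℝ) • ∑ t ∈ c.support, c t • ρ (t : G) 0 := by
        rw [Finset.smul_sum, ← Finset.sum_sub_distrib]
        refine Finset.sum_congr rfl (fun t _ => ?_)
        rw [sub_smul, mul_smul, Int.cast_smul_eq_zsmul]
      rw [h1, hc, smul_zero, sub_zero, e1]
    have hfl : ∀ x : ℝ, |(⌊x⌋ : ℝ) - x| ≤ 1 := by
      intro x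
      rw [abs_le]
      exact ⟨by linarith [Int.lt_floor_add_one x], by linarith [Int.floor_le x]⟩
    have e4 : ‖ρ s 0‖ ≤ D := by
      rw [e3]
      refine (norm_sum_le _ _).trans (Finset.sum_le_sum (fun t _ => ?_))
      rw [norm_smul, Real.norm_eq_abs]
      calc _ ≤ 1 * ‖ρ (t : G) 0‖ := mul_le_mul_of_nonneg_right (hfl _) (norm_nonneg _)
        _ = _ := one_mul _
    have e5 : ‖F (ρ s 0)‖ ≤ C := hC _ (mem_closedBall_zero_iff.mpr e4)
    have e6 : F (ρ s 0) = F 0 + ρ' s 0 := by rw [hFe, h' s hs]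
    have e7 : ‖ρ' s 0‖ ≤ C + ‖F 0‖ := by
      have : ρ' s 0 = F (ρ s 0) - F 0 := by rw [e6]; abel
      rw [this]
      exact (norm_sub_le _ _).trans (by linarith)
    have e8 : (N : ℝ) • ∑ t ∈ c.support, c t • ρ' (t : G) 0 =
        ρ' s 0 - ∑ t ∈ c.support, ((⌊N * c t⌋ : ℝ) - N * c t) • ρ' (t : G) 0 := by
      rw [e2, Finset.smul_sum, ← Finset.sum_sub_distrib]
      refine Finset.sum_congr rfl (fun t _ => ?_)
      rw [sub_smul, mul_smul, Int.cast_smul_eq_zsmul]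
      abel
    have e9 : ‖∑ t ∈ c.support, ((⌊N * c t⌋ : ℝ) - N * c t) • ρ' (t : G) 0‖ ≤ D' := by
      refine (norm_sum_le _ _).trans (Finset.sum_le_sum (fun t _ => ?_))
      rw [norm_smul, Real.norm_eq_abs]
      calc _ ≤ 1 * ‖ρ' (t : G) 0‖ := mul_le_mul_of_nonneg_right (hfl _) (norm_nonneg _)
        _ = _ := one_mul _
    have e10 : (N : ℝ) * ‖∑ t ∈ c.support, c t • ρ' (t : G) 0‖ =
        ‖(N : ℝ) • ∑ t ∈ c.support, c t • ρ' (t : G) 0‖ := by
      rw [norm_smul, Real.norm_eq_abs, abs_of_nonneg (Nat.cast_nonneg N)]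
    rw [e10, e8]
    exact (norm_sub_le _ _).trans (by linarith)
  by_contra hne
  have hpos : 0 < ‖∑ t ∈ c.support, c t • ρ' (t : G) 0‖ := norm_pos_iff.mpr hne
  obtain ⟨N, hN⟩ := exists_nat_gt ((C + ‖F 0‖ + D') / ‖∑ t ∈ c.support, c t • ρ' (t : G) 0‖)
  rw [div_lt_iff₀ hpos] at hN
  linarith [key N]

/-- The linear comparison map. -/
theorem exists_iota (h : TransBy ρ T) (h' : TransBy ρ' T) {F : Eu m → Eu m}
    (hF : Continuous F) (hFe : ∀ g x, F (ρ g x) = ρ' g (F x)) :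
    ∃ ι : Eu m →ₗ[ℝ] Eu m, ∀ t ∈ T, ι (ρ t 0) = ρ' t 0 := by
  let f : (T →₀ ℝ) →ₗ[ℝ] Eu m := Finsupp.linearCombination ℝ (fun t : T => ρ (t : G) 0)
  let g : (T →₀ ℝ) →ₗ[ℝ] Eu m := Finsupp.linearCombination ℝ (fun t : T => ρ' (t : G) 0)
  have hker : ∀ c, f c = 0 → g c = 0 := by
    intro c hc
    exact trans_relation h h' hF hFe c hc
  obtain ⟨s, hs⟩ := LinearMap.exists_rightInverse_of_surjective f.rangeRestrict
    (LinearMap.range_eq_top.mpr f.surjective_rangeRestrict)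
  obtain ⟨ι, hι⟩ := LinearMap.exists_extend (g.comp s)
  refine ⟨ι, fun t ht => ?_⟩
  have h1 : f (Finsupp.single ⟨t, ht⟩ 1) = ρ t 0 := by
    change Finsupp.linearCombination ℝ _ _ = _
    rw [Finsupp.linearCombination_single, one_smul]
  have h2 : g (Finsupp.single ⟨t, ht⟩ 1) = ρ' t 0 := by
    change Finsupp.linearCombination ℝ _ _ = _
    rw [Finsupp.linearCombination_single, one_smul]
  have h3 : ι (ρ t 0) = g (s (f.rangeRestrict (Finsupp.single ⟨t, ht⟩ 1))) := by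
    have := congrArg (fun L => L (f.rangeRestrict (Finsupp.single ⟨t, ht⟩ 1))) hι
    simp only [LinearMap.comp_apply, Submodule.subtype_apply] at this
    rw [← this]
    congr 1
    exact h1.symm
  have h4 : f (s (f.rangeRestrict (Finsupp.single ⟨t, ht⟩ 1)) - Finsupp.single ⟨t, ht⟩ 1) = 0 := by
    rw [map_sub]
    have := congrArg (fun L => L (f.rangeRestrict (Finsupp.single ⟨t, ht⟩ 1))) hs
    simp only [LinearMap.comp_apply, LinearMap.id_apply] at this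
    have h5 := congrArg Subtype.val this
    rw [sub_eq_zero]
    exact h5
  have h6 := hker _ h4
  rw [map_sub, sub_eq_zero] at h6
  rw [h3, h6, h2]

/-- Conjugation of translations. -/
lemma trans_conj (h : TransBy ρ T) {g t : G} (ht : t ∈ T) (hn : g * t * g⁻¹ ∈ T) :
    (ρ g).linear (ρ t 0) = ρ (g * t * g⁻¹) 0 := by
  have h1 : ρ (g * t * g⁻¹) (ρ g 0) = ρ g (ρ t 0) := by
    change (ρ (g * t * g⁻¹) * ρ g) 0 = (ρ g * ρ t) 0
    rw [← map_mul, ← map_mul]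
    congr 2
    group
  rw [h _ hn, affEquiv_decomp (ρ g) (ρ t 0)] at h1
  have h2 : ρ g 0 + ρ (g * t * g⁻¹) 0 = ρ g 0 + (ρ g).linear (ρ t 0) := by
    rw [h1, add_comm]
  exact (add_left_cancel h2).symm

lemma tspan_inv (h : TransBy ρ T) [hN : T.Normal] (g : G) {w : Eu m} (hw : w ∈ tspan ρ T) :
    (ρ g).linear w ∈ tspan ρ T := by
  induction hw using Submodule.span_induction with
  | mem x hx =>
    obtain ⟨t, ht, rfl⟩ := hx
    rw [trans_conj h ht (hN.conj_mem t ht g)]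
    exact Submodule.subset_span ⟨_, hN.conj_mem t ht g, rfl⟩
  | zero => rw [map_zero]; exact Submodule.zero_mem _
  | add x y _ _ hx hy => rw [map_add]; exact Submodule.add_mem _ hx hy
  | smul a x _ hx => rw [map_smul]; exact Submodule.smul_mem _ _ hx

lemma iota_mem {ι : Eu m →ₗ[ℝ] Eu m} (hι : ∀ t ∈ T, ι (ρ t 0) = ρ' t 0) {w : Eu m}
    (hw : w ∈ tspan ρ T) : ι w ∈ tspan ρ' T := by
  induction hw using Submodule.span_induction with
  | mem x hx =>
    obtain ⟨t, ht, rfl⟩ := hx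
    rw [hι t ht]
    exact Submodule.subset_span ⟨t, ht, rfl⟩
  | zero => rw [map_zero]; exact Submodule.zero_mem _
  | add x y _ _ hx hy => rw [map_add]; exact Submodule.add_mem _ hx hy
  | smul a x _ hx => rw [map_smul]; exact Submodule.smul_mem _ _ hx

lemma iota_comm (h : TransBy ρ T) (h' : TransBy ρ' T) [hN : T.Normal] {ι : Eu m →ₗ[ℝ] Eu m}
    (hι : ∀ t ∈ T, ι (ρ t 0) = ρ' t 0) (g : G) {w : Eu m} (hw : w ∈ tspan ρ T) :
    ι ((ρ g).linear w) = (ρ' g).linear (ι w) := by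
  induction hw using Submodule.span_induction with
  | mem x hx =>
    obtain ⟨t, ht, rfl⟩ := hx
    rw [trans_conj h ht (hN.conj_mem t ht g), hι _ (hN.conj_mem t ht g), hι t ht,
      trans_conj h' ht (hN.conj_mem t ht g)]
  | zero => simp only [map_zero]
  | add x y _ _ hx hy => rw [map_add, map_add, hx, hy, map_add, map_add]
  | smul a x _ hx => rw [map_smul, map_smul, hx, map_smul, map_smul]

lemma iota_inv {ι κ : Eu m →ₗ[ℝ] Eu m} (hι : ∀ t ∈ T, ι (ρ t 0) = ρ' t 0)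
    (hκ : ∀ t ∈ T, κ (ρ' t 0) = ρ t 0) {w : Eu m} (hw : w ∈ tspan ρ T) : κ (ι w) = w := by
  induction hw using Submodule.span_induction with
  | mem x hx =>
    obtain ⟨t, ht, rfl⟩ := hx
    rw [hι t ht, hκ t ht]
  | zero => rw [map_zero, map_zero]
  | add x y _ _ hx hy => rw [map_add, map_add, hx, hy]
  | smul a x _ hx => rw [map_smul, map_smul, hx]

/-- Every vector of the span is a translation vector up to a bounded error. -/
theorem exists_fund (h : TransBy ρ T) : ∃ D : Set (Eu m), IsCompact D ∧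
    ∀ w ∈ tspan ρ T, ∃ t ∈ T, w + ρ t 0 ∈ D := by
  obtain ⟨s, hs, hspan⟩ := (Submodule.fg_span_iff_fg_span_finset_subset
    {v : Eu m | ∃ t ∈ T, v = ρ t 0}).mp (IsNoetherian.noetherian (tspan ρ T))
  let f : (Eu m → ℝ) → Eu m := fun a => ∑ v ∈ s, a v • v
  have hf : Continuous f := continuous_finsetSum _ (fun v _ => (continuous_apply v).smul
    continuous_const)
  refine ⟨f '' (Set.univ.pi (fun _ => Icc (0 : ℝ) 1)),
    (isCompact_univ_pi (fun _ => isCompact_Icc)).image hf, fun w hw => ?_⟩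
  have hw2 : w ∈ Submodule.span ℝ (s : Set (Eu m)) := by
    have h1 : tspan ρ T = Submodule.span ℝ (s : Set (Eu m)) := hspan
    rwa [← h1]
  obtain ⟨c, -, hc⟩ := Submodule.mem_span_finset.mp hw2
  have hmem : (∑ v ∈ s, (-⌊c v⌋) • ((v, v) : Eu m × Eu m)) ∈ tgraph h h := by
    refine AddSubgroup.sum_mem _ (fun v hv => AddSubgroup.zsmul_mem _ ?_ _)
    obtain ⟨t, ht, hvt⟩ := hs hv
    exact ⟨t, ht, by rw [← hvt]⟩
  obtain ⟨t, ht, htv⟩ := hmem
  refine ⟨t, ht, fun v => c v - ⌊c v⌋, ?_, ?_⟩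
  · intro v _
    exact ⟨by linarith [Int.floor_le (c v)], by linarith [Int.lt_floor_add_one (c v)]⟩
  · have e1 : ρ t 0 = ∑ v ∈ s, (-⌊c v⌋) • v := by
      have := congrArg Prod.fst htv
      rw [Prod.fst_sum] at this
      exact this.symm
    change ∑ v ∈ s, (c v - ⌊c v⌋) • v = w + ρ t 0
    rw [e1, ← hc, ← Finset.sum_add_distrib]
    refine Finset.sum_congr rfl (fun v _ => ?_)
    rw [sub_smul, neg_smul, Int.cast_smul_eq_zsmul]
    abel

/-- Linear coordinates on the quotient by a subspace. -/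
theorem exists_quot_coord {m₁ : ℕ} (W : Submodule ℝ (Eu m)) (hW : Module.finrank ℝ W + m₁ = m) :
    ∃ (p : Eu m →ₗ[ℝ] Eu m₁) (σ : Eu m₁ →ₗ[ℝ] Eu m), (∀ y, p (σ y) = y) ∧
      ∀ x, p x = 0 ↔ x ∈ W := by
  have h1 : Module.finrank ℝ Wᗮ = m₁ := by
    have h2 := Submodule.finrank_add_finrank_orthogonal W
    rw [finrank_euclideanSpace_fin] at h2
    omega
  let e : Wᗮ ≃ₗ[ℝ] Eu m₁ := LinearEquiv.ofFinrankEq _ _ (by rw [h1, finrank_euclideanSpace_fin])
  refine ⟨(e : Wᗮ →ₗ[ℝ] Eu m₁).comp (Wᗮ.orthogonalProjectionOnto : Eu m →ₗ[ℝ] Wᗮ),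
    Wᗮ.subtype.comp (e.symm : Eu m₁ →ₗ[ℝ] Wᗮ), fun y => ?_, fun x => ?_⟩
  · change e (Wᗮ.orthogonalProjectionOnto ((e.symm y : Wᗮ) : Eu m)) = y
    rw [Submodule.orthogonalProjectionOnto_mem_subspace_eq_self, e.apply_symm_apply]
  · change e (Wᗮ.orthogonalProjectionOnto x) = 0 ↔ x ∈ W
    rw [LinearEquiv.map_eq_zero_iff, Submodule.orthogonalProjectionOnto_eq_zero_iff,
      Submodule.orthogonal_orthogonal]

end

end Pool.Agent.AffRig
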