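import Pool.Agent.Lib.MP_27f33f_gt.Seif1

/-!
# The quotient action and the lift through a normal subgroup of translations
-/

set_option autoImplicit false

namespace Pool.Agent.AffRig

open Filter Topology Set MeasureTheory
open scoped ContDiff Manifold

noncomputable section

variable {G : Type*} [Group G] {m m₁ : ℕ}

/-- Quotient data: linear coordinates on the quotient by the translation span. -/
structure QData (ρ : G →* (Eu m ≃ᵃ[ℝ] Eu m)) (T : Subgroup G) (m₁ : ℕ) where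
  /-- projection -/
  p : Eu m →ₗ[ℝ] Eu m₁
  /-- section -/
  σ : Eu m₁ →ₗ[ℝ] Eu m
  pσ : ∀ y, p (σ y) = y
  ker : ∀ x, p x = 0 ↔ x ∈ tspan ρ T
  tr : TransBy ρ T

namespace QData

set_option linter.unusedSectionVars false

variable {ρ : G →* (Eu m ≃ᵃ[ℝ] Eu m)} {T : Subgroup G} [T.Normal] (Q : QData ρ T m₁)

include Q in
lemma p_add {x w : Eu m} (hw : w ∈ tspan ρ T) : Q.p (x + w) = Q.p x := by
  rw [map_add, (Q.ker w).mpr hw, add_zero]

lemma rem_mem (x : Eu m) : x - Q.σ (Q.p x) ∈ tspan ρ T := by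
  rw [← Q.ker, map_sub, Q.pσ, sub_self]

lemma p_rho_add (g : G) {x w : Eu m} (hw : w ∈ tspan ρ T) : Q.p (ρ g (x + w)) = Q.p (ρ g x) := by
  have h1 : ρ g (x + w) = ρ g x + (ρ g).linear w := by
    rw [affEquiv_decomp, map_add, affEquiv_decomp (ρ g) x]
    abel
  rw [h1, Q.p_add (tspan_inv Q.tr g hw)]

lemma p_rho (g : G) (x : Eu m) : Q.p (ρ g (Q.σ (Q.p x))) = Q.p (ρ g x) := by
  have h1 : x = Q.σ (Q.p x) + (x - Q.σ (Q.p x)) := by abel
  conv_rhs => rw [h1]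
  rw [Q.p_rho_add g (Q.rem_mem x)]

/-- The induced affine map. -/
def aff (g : G) : Eu m₁ →ᵃ[ℝ] Eu m₁ :=
  Q.p.toAffineMap.comp (((ρ g : Eu m ≃ᵃ[ℝ] Eu m) : Eu m →ᵃ[ℝ] Eu m).comp Q.σ.toAffineMap)

lemma aff_apply (g : G) (y : Eu m₁) : Q.aff g y = Q.p (ρ g (Q.σ y)) := rfl

lemma aff_p (g : G) (x : Eu m) : Q.aff g (Q.p x) = Q.p (ρ g x) := by
  rw [aff_apply, Q.p_rho]

lemma aff_mul (g h : G) (y : Eu m₁) : Q.aff (g * h) y = Q.aff g (Q.aff h y) := by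
  rw [Q.aff_apply h, Q.aff_p, Q.aff_apply, map_mul]
  rfl

lemma aff_one (y : Eu m₁) : Q.aff 1 y = y := by
  rw [Q.aff_apply, map_one]
  exact Q.pσ y

lemma aff_bij (g : G) : Function.Bijective (Q.aff g) := by
  refine Function.bijective_iff_has_inverse.mpr ⟨Q.aff g⁻¹, fun y => ?_, fun y => ?_⟩
  · rw [← Q.aff_mul, inv_mul_cancel, Q.aff_one]
  · rw [← Q.aff_mul, mul_inv_cancel, Q.aff_one]

/-- The induced action of `G`. -/
def hom₀ : G →* (Eu m₁ ≃ᵃ[ℝ] Eu m₁) where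
  toFun := fun g => AffineEquiv.ofBijective (Q.aff_bij g)
  map_one' := by
    ext1 y
    exact Q.aff_one y
  map_mul' := fun g h => by
    ext1 y
    exact Q.aff_mul g h y

lemma hom₀_apply (g : G) (y : Eu m₁) : Q.hom₀ g y = Q.aff g y := rfl

lemma T_le : T ≤ Q.hom₀.ker := by
  intro t ht
  rw [MonoidHom.mem_ker]
  ext1 y
  change Q.p (ρ t (Q.σ y)) = y
  rw [Q.tr t ht, Q.p_add (Submodule.subset_span ⟨t, ht, rfl⟩), Q.pσ]

/-- The induced action of the quotient group. -/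
def hom : G ⧸ T →* (Eu m₁ ≃ᵃ[ℝ] Eu m₁) := QuotientGroup.lift T Q.hom₀ (fun t ht => Q.T_le ht)

lemma hom_mk (g : G) (x : Eu m) : Q.hom (QuotientGroup.mk g) (Q.p x) = Q.p (ρ g x) := Q.aff_p g x

lemma hom_mk' (g : G) (y : Eu m₁) : Q.hom (QuotientGroup.mk g) y = Q.p (ρ g (Q.σ y)) := rfl

lemma cont_p : Continuous Q.p := (LinearMap.toContinuousLinearMap Q.p).continuous

lemma cont_σ : Continuous Q.σ := (LinearMap.toContinuousLinearMap Q.σ).continuous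

lemma sm_p : ContDiff ℝ ∞ Q.p := (LinearMap.toContinuousLinearMap Q.p).contDiff

lemma sm_σ : ContDiff ℝ ∞ Q.σ := (LinearMap.toContinuousLinearMap Q.σ).contDiff

theorem cc (hC : CC (affAct ρ)) : CC (affAct Q.hom) := by
  obtain ⟨K, hK, h⟩ := hC
  refine ⟨Q.p '' K, hK.image Q.cont_p, fun y => ?_⟩
  obtain ⟨g, hg⟩ := h (Q.σ y)
  exact ⟨QuotientGroup.mk g, ⟨_, hg, rfl⟩⟩

theorem pd (hA : PD (affAct ρ)) : PD (affAct Q.hom) := by
  intro K hK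
  obtain ⟨D, hD, hDw⟩ := exists_fund Q.tr
  have hfin := hA.two (hK.image Q.cont_σ) ((hK.image Q.cont_σ).add hD)
  refine (hfin.image (QuotientGroup.mk : G → G ⧸ T)).subset ?_
  intro q hq
  induction q using QuotientGroup.induction_on with
  | H g =>
  obtain ⟨y, ⟨y₁, hy₁, rfl⟩, hy⟩ := hq
  let y₂ : Eu m₁ := (affAct Q.hom).f (QuotientGroup.mk g) y₁
  have hw : ρ g (Q.σ y₁) - Q.σ y₂ ∈ tspan ρ T := Q.rem_mem (ρ g (Q.σ y₁))
  obtain ⟨t, ht, hd⟩ := hDw _ hw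
  refine ⟨t * g, ?_, ?_⟩
  · refine ⟨ρ (t * g) (Q.σ y₁), ⟨Q.σ y₁, ⟨y₁, hy₁, rfl⟩, rfl⟩, ?_⟩
    have e1 : ρ (t * g) (Q.σ y₁) = Q.σ y₂ + (ρ g (Q.σ y₁) - Q.σ y₂ + ρ t 0) := by
      rw [map_mul]
      change ρ t (ρ g (Q.σ y₁)) = _
      rw [Q.tr t ht]
      abel
    rw [e1]
    exact Set.add_mem_add ⟨y₂, hy, rfl⟩ hd
  · rw [QuotientGroup.eq]
    have : (t * g)⁻¹ * g = g⁻¹ * t⁻¹ * g⁻¹⁻¹ := by group
    rw [this]
    exact Subgroup.Normal.conj_mem inferInstance _ (T.inv_mem ht) _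

end QData

section lift

variable {ρ ρ' : G →* (Eu m ≃ᵃ[ℝ] Eu m)} {T : Subgroup G} [T.Normal]
  (Q : QData ρ T m₁) (Q' : QData ρ' T m₁)

lemma finsum_affine {ι : Type*} {n : ℕ} (A : Eu n ≃ᵃ[ℝ] Eu n) (w : ι → ℝ) (z : ι → Eu n)
    (hw : (Function.support w).Finite) (hs : ∑ᶠ i, w i = 1) :
    A (∑ᶠ i, w i • z i) = ∑ᶠ i, w i • A (z i) := by
  have hsub : ∀ f : ι → Eu n, Function.support (fun i => w i • f i) ⊆ hw.toFinset := by
    intro f i hi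
    rw [Set.Finite.coe_toFinset]
    intro h0
    apply hi
    change w i • f i = 0
    rw [h0, zero_smul]
  rw [finsum_eq_sum_of_support_subset _ (hsub z),
    finsum_eq_sum_of_support_subset _ (hsub (fun i => A (z i)))]
  have hsum : ∑ i ∈ hw.toFinset, w i = 1 := by
    rw [← finsum_eq_sum_of_support_subset w (by rw [Set.Finite.coe_toFinset]), hs]
  rw [affEquiv_decomp, map_sum]
  have h2 : ∑ i ∈ hw.toFinset, w i • A (z i) =
      ∑ i ∈ hw.toFinset, A.linear (w i • z i) + (∑ i ∈ hw.toFinset, w i) • A 0 := by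
    rw [Finset.sum_smul, ← Finset.sum_add_distrib]
    refine Finset.sum_congr rfl (fun i _ => ?_)
    rw [affEquiv_decomp A (z i), smul_add, map_smul]
  rw [h2, hsum, one_smul]

lemma finsum_linear {ι : Type*} {n k : ℕ} (L : Eu n →ₗ[ℝ] Eu k) (w : ι → ℝ) (z : ι → Eu n)
    (hw : (Function.support w).Finite) :
    L (∑ᶠ i, w i • z i) = ∑ᶠ i, w i • L (z i) := by
  have hsub : ∀ (j : ℕ) (f : ι → Eu j), Function.support (fun i => w i • f i) ⊆ hw.toFinset := by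
    intro j f i hi
    rw [Set.Finite.coe_toFinset]
    intro h0
    apply hi
    change w i • f i = 0
    rw [h0, zero_smul]
  rw [finsum_eq_sum_of_support_subset _ (hsub n z),
    finsum_eq_sum_of_support_subset _ (hsub k (fun i => L (z i))), map_sum]
  exact Finset.sum_congr rfl (fun i _ => map_smul _ _ _)

lemma finsum_const_vec {ι : Type*} {n : ℕ} (w : ι → ℝ) (z : ι → Eu n) (v : Eu n)
    (hw : (Function.support w).Finite) (hs : ∑ᶠ i, w i = 1) :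
    ∑ᶠ i, w i • (z i + v) = ∑ᶠ i, w i • z i + v := by
  have := finsum_affine (AffineEquiv.vaddConst ℝ v |>.trans (AffineEquiv.refl ℝ (Eu n))) w z hw hs
  exact this.symm

/-- Lifting through `T`: existence. -/
theorem exists_lift_T {ι : Eu m →ₗ[ℝ] Eu m} (hι : ∀ t ∈ T, ι (ρ t 0) = ρ' t 0)
    (hA : PD (affAct Q.hom)) (hC : CC (affAct Q.hom))
    {F₁ : Eu m₁ → Eu m₁} (hF₁ : ContDiff ℝ ∞ F₁)
    (hF₁e : ∀ q y, F₁ (Q.hom q y) = Q'.hom q (F₁ y)) :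
    ∃ F : Eu m → Eu m, ContDiff ℝ ∞ F ∧ (∀ x, Q'.p (F x) = F₁ (Q.p x)) ∧
      (∀ x, ∀ w ∈ tspan ρ T, F (x + w) = F x + ι w) ∧ ∀ g x, F (ρ g x) = ρ' g (F x) := by
  obtain ⟨P⟩ := exists_part hA hC
  let F₀ : Eu m → Eu m := fun x => Q'.σ (F₁ (Q.p x)) + ι (x - Q.σ (Q.p x))
  have hιs : ContDiff ℝ ∞ ι := (LinearMap.toContinuousLinearMap ι).contDiff
  have hF₀ : ContDiff ℝ ∞ F₀ :=
    (Q'.sm_σ.comp (hF₁.comp Q.sm_p)).add (hιs.comp (contDiff_id.sub (Q.sm_σ.comp Q.sm_p)))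
  have hF₀w : ∀ x, ∀ w ∈ tspan ρ T, F₀ (x + w) = F₀ x + ι w := by
    intro x w hw
    change Q'.σ (F₁ (Q.p (x + w))) + ι (x + w - Q.σ (Q.p (x + w))) = _
    rw [Q.p_add hw]
    change _ = Q'.σ (F₁ (Q.p x)) + ι (x - Q.σ (Q.p x)) + ι w
    rw [add_assoc, ← map_add]
    congr 2
    abel
  have hF₀p : ∀ x, Q'.p (F₀ x) = F₁ (Q.p x) := by
    intro x
    change Q'.p (Q'.σ (F₁ (Q.p x)) + ι (x - Q.σ (Q.p x))) = _
    rw [Q'.p_add (iota_mem hι (Q.rem_mem x)), Q'.pσ]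
  let Z : G → Eu m → Eu m := fun g x => ρ' g⁻¹ (F₀ (ρ g x))
  have hcanc : ∀ (g : G) (v : Eu m), ρ' g (ρ' g⁻¹ v) = v := by
    intro g v
    change (ρ' g * ρ' g⁻¹) v = v
    rw [← map_mul, mul_inv_cancel, map_one]
    rfl
  have hcanc2 : ∀ (g : G) (v : Eu m), ρ' g⁻¹ (ρ' g v) = v := by
    intro g v
    change (ρ' g⁻¹ * ρ' g) v = v
    rw [← map_mul, inv_mul_cancel, map_one]
    rfl
  have hZs : ∀ g, ContDiff ℝ ∞ (Z g) := fun g =>
    ((affAct ρ').sm g⁻¹).comp (hF₀.comp ((affAct ρ).sm g))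
  have hZt : ∀ t ∈ T, ∀ g x, Z (t * g) x = Z g x := by
    intro t ht g x
    change ρ' (t * g)⁻¹ (F₀ (ρ (t * g) x)) = ρ' g⁻¹ (F₀ (ρ g x))
    rw [mul_inv_rev, map_mul, map_mul]
    change ρ' g⁻¹ (ρ' t⁻¹ (F₀ (ρ t (ρ g x)))) = _
    rw [Q.tr t ht, hF₀w _ _ (Submodule.subset_span ⟨t, ht, rfl⟩), hι t ht, ← Q'.tr t ht, hcanc2]
  have hZc : ∀ g g' : G, (QuotientGroup.mk g : G ⧸ T) = QuotientGroup.mk g' → ∀ x, Z g x = Z g' x := by
    intro g g' h x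
    rw [QuotientGroup.eq] at h
    have h2 : g' = (g * (g⁻¹ * g') * g⁻¹) * g := by group
    rw [h2, hZt _ (Subgroup.Normal.conj_mem inferInstance _ h _)]
  have hZp : ∀ g x, Q'.p (Z g x) = F₁ (Q.p x) := by
    intro g x
    change Q'.p (ρ' g⁻¹ (F₀ (ρ g x))) = _
    rw [← Q'.hom_mk, hF₀p, ← Q.hom_mk, hF₁e]
    change (Q'.hom (QuotientGroup.mk g⁻¹) * Q'.hom (QuotientGroup.mk g)) _ = _
    rw [← map_mul]
    have h1 : (QuotientGroup.mk g⁻¹ : G ⧸ T) * QuotientGroup.mk g = 1 := by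
      rw [← QuotientGroup.mk_mul, inv_mul_cancel, QuotientGroup.mk_one]
    rw [h1, map_one]
    rfl
  have hZw : ∀ g x, ∀ w ∈ tspan ρ T, Z g (x + w) = Z g x + ι w := by
    intro g x w hw
    change ρ' g⁻¹ (F₀ (ρ g (x + w))) = ρ' g⁻¹ (F₀ (ρ g x)) + ι w
    have e1 : ρ g (x + w) = ρ g x + (ρ g).linear w := by
      rw [affEquiv_decomp, map_add, affEquiv_decomp (ρ g) x]
      abel
    rw [e1, hF₀w _ _ (tspan_inv Q.tr g hw), iota_comm Q.tr Q'.tr hι g hw]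
    have e2 : ∀ v u, ρ' g⁻¹ (v + u) = ρ' g⁻¹ v + (ρ' g⁻¹).linear u := by
      intro v u
      rw [affEquiv_decomp, map_add, affEquiv_decomp (ρ' g⁻¹) v]
      abel
    rw [e2]
    congr 1
    have e3 : ρ' g⁻¹ (ρ' g 0 + (ρ' g).linear (ι w)) = ρ' g⁻¹ (ρ' g 0) + (ρ' g⁻¹).linear ((ρ' g).linear (ι w)) :=
      e2 _ _
    have e4 : ρ' g 0 + (ρ' g).linear (ι w) = ρ' g (ι w) := by
      rw [affEquiv_decomp (ρ' g) (ι w), add_comm]
    rw [e4, hcanc2, hcanc2, zero_add] at e3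
    exact e3.symm
  let wt : G ⧸ T → Eu m → ℝ := fun q x => P.w (Q.hom q (Q.p x))
  have hwfin : ∀ x, (Function.support fun q => wt q x).Finite := fun x => by
    refine (P.loc.point_finite (Q.p x)).subset ?_
    intro g hg
    exact hg
  have hws : ∀ x, ∑ᶠ q, wt q x = 1 := fun x => P.sum (Q.p x)
  let F : Eu m → Eu m := fun x => ∑ᶠ q : G ⧸ T, wt q x • Z (Quotient.out q) x
  have hZout : ∀ g x, Z (Quotient.out (QuotientGroup.mk g : G ⧸ T)) x = Z g x := fun g x =>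
    hZc _ _ (Quotient.out_eq _) x
  refine ⟨F, ?_, ?_, ?_, ?_⟩
  · refine contDiff_finsum_loc (fun q => ?_) ?_
    · exact (P.sm.comp (((affAct Q.hom).sm q).comp Q.sm_p)).smul (hZs _)
    · refine (P.loc.preimage_continuous Q.cont_p).subset ?_
      intro q x hx hx2
      apply hx
      have : wt q x = 0 := hx2
      change wt q x • _ = 0
      rw [this, zero_smul]
  · intro x
    change Q'.p (∑ᶠ q : G ⧸ T, wt q x • Z (Quotient.out q) x) = _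
    rw [finsum_linear Q'.p _ _ (hwfin x)]
    have h1 : (fun q : G ⧸ T => wt q x • Q'.p (Z (Quotient.out q) x)) =
        fun q => wt q x • F₁ (Q.p x) := by
      funext q
      rw [hZp]
    rw [h1, ← finsum_smul, hws, one_smul]
  · intro x w hw
    change ∑ᶠ q : G ⧸ T, wt q (x + w) • Z (Quotient.out q) (x + w) = _
    have h1 : (fun q : G ⧸ T => wt q (x + w) • Z (Quotient.out q) (x + w)) =
        fun q => wt q x • (Z (Quotient.out q) x + ι w) := by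
      funext q
      have e1 : wt q (x + w) = wt q x := by
        change P.w (Q.hom q (Q.p (x + w))) = P.w (Q.hom q (Q.p x))
        rw [Q.p_add hw]
      rw [e1, hZw _ _ _ hw]
    rw [h1, finsum_const_vec _ _ _ (hwfin x) (hws x)]
  · intro h x
    change ∑ᶠ q : G ⧸ T, wt q (ρ h x) • Z (Quotient.out q) (ρ h x) =
      ρ' h (∑ᶠ q : G ⧸ T, wt q x • Z (Quotient.out q) x)
    rw [finsum_affine _ _ _ (hwfin x) (hws x),
      ← finsum_comp_equiv (Equiv.mulRight (QuotientGroup.mk h : G ⧸ T))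
        (f := fun q => wt q x • ρ' h (Z (Quotient.out q) x))]
    apply finsum_congr
    intro q
    induction q using QuotientGroup.induction_on with
    | H g =>
    have e1 : wt (QuotientGroup.mk g) (ρ h x) =
        wt (Equiv.mulRight (QuotientGroup.mk h : G ⧸ T) (QuotientGroup.mk g)) x := by
      change P.w (Q.hom (QuotientGroup.mk g) (Q.p (ρ h x))) =
        P.w (Q.hom ((QuotientGroup.mk g : G ⧸ T) * QuotientGroup.mk h) (Q.p x))
      rw [← Q.hom_mk, map_mul]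
      rfl
    have e2 : Z (Quotient.out (Equiv.mulRight (QuotientGroup.mk h : G ⧸ T) (QuotientGroup.mk g))) x =
        Z (g * h) x := hZout (g * h) x
    rw [e1, e2, hZout]
    congr 1
    change ρ' g⁻¹ (F₀ (ρ g (ρ h x))) = ρ' h (ρ' (g * h)⁻¹ (F₀ (ρ (g * h) x)))
    rw [mul_inv_rev, map_mul ρ' h⁻¹ g⁻¹, map_mul ρ g h]
    change ρ' g⁻¹ (F₀ (ρ g (ρ h x))) = ρ' h (ρ' h⁻¹ (ρ' g⁻¹ (F₀ (ρ g (ρ h x)))))
    rw [hcanc]

/-- Lifting through `T`: an invertible map lifts to an invertible map. -/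
theorem exists_diffeo_T {ι κ : Eu m →ₗ[ℝ] Eu m} (hι : ∀ t ∈ T, ι (ρ t 0) = ρ' t 0)
    (hκ : ∀ t ∈ T, κ (ρ' t 0) = ρ t 0)
    (hA : PD (affAct Q.hom)) (hC : CC (affAct Q.hom))
    {F₁ R₁ : Eu m₁ → Eu m₁} (hF₁ : ContDiff ℝ ∞ F₁) (hR₁ : ContDiff ℝ ∞ R₁)
    (h1 : ∀ y, R₁ (F₁ y) = y) (h2 : ∀ y, F₁ (R₁ y) = y)
    (hF₁e : ∀ q y, F₁ (Q.hom q y) = Q'.hom q (F₁ y)) :
    ∃ F R : Eu m → Eu m, ContDiff ℝ ∞ F ∧ ContDiff ℝ ∞ R ∧ (∀ x, R (F x) = x) ∧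
      (∀ x, F (R x) = x) ∧ (∀ x, Q'.p (F x) = F₁ (Q.p x)) ∧ ∀ g x, F (ρ g x) = ρ' g (F x) := by
  obtain ⟨F, hF, hFp, hFw, hFe⟩ := exists_lift_T Q Q' hι hA hC hF₁ hF₁e
  have hκs : ContDiff ℝ ∞ κ := (LinearMap.toContinuousLinearMap κ).contDiff
  let y : Eu m → Eu m₁ := fun x' => R₁ (Q'.p x')
  have hy : ContDiff ℝ ∞ y := hR₁.comp Q'.sm_p
  have hσy : ContDiff ℝ ∞ (fun x' => Q.σ (y x')) := Q.sm_σ.comp hy
  have hmem : ∀ x', x' - F (Q.σ (y x')) ∈ tspan ρ' T := by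
    intro x'
    rw [← Q'.ker, map_sub, hFp, Q.pσ, h2, sub_self]
  refine ⟨F, fun x' => Q.σ (y x') + κ (x' - F (Q.σ (y x'))), hF,
    hσy.add (hκs.comp (contDiff_id.sub (hF.comp hσy))), fun x => ?_, fun x' => ?_, hFp, hFe⟩
  · change Q.σ (R₁ (Q'.p (F x))) + κ (F x - F (Q.σ (R₁ (Q'.p (F x))))) = x
    rw [hFp, h1]
    have e1 : F x = F (Q.σ (Q.p x)) + ι (x - Q.σ (Q.p x)) := by
      rw [← hFw _ _ (Q.rem_mem x)]
      congr 1
      abel
    rw [e1, add_sub_cancel_left, iota_inv hι hκ (Q.rem_mem x)]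
    abel
  · change F (Q.σ (y x') + κ (x' - F (Q.σ (y x')))) = x'
    rw [hFw _ _ (iota_mem hκ (hmem x')), iota_inv hκ hι (hmem x')]
    abel

end lift

end

end Pool.Agent.AffRig
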