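import Pool.Agent.Lib.MP_27f33f_gt.Seif2

/-!
# The lifting theorem with compact leaf directions
-/

set_option autoImplicit false

namespace Pool.Agent.AffRig

open Filter Topology Set MeasureTheory
open scoped ContDiff Manifold

noncomputable section

variable {G : Type*} [Group G] {m n : ℕ}

lemma finrank_tspan_le {ρ ρ' : G →* (Eu m ≃ᵃ[ℝ] Eu m)} {T : Subgroup G}
    {ι κ : Eu m →ₗ[ℝ] Eu m} (hι : ∀ t ∈ T, ι (ρ t 0) = ρ' t 0)
    (hκ : ∀ t ∈ T, κ (ρ' t 0) = ρ t 0) :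
    Module.finrank ℝ (tspan ρ T) ≤ Module.finrank ℝ (tspan ρ' T) := by
  let L : tspan ρ T →ₗ[ℝ] tspan ρ' T :=
    ι.restrict (fun w hw => iota_mem hι hw)
  refine LinearMap.finrank_le_finrank_of_injective (f := L) ?_
  intro a b hab
  have h1 : ι (a : Eu m) = ι (b : Eu m) := congrArg Subtype.val hab
  apply Subtype.ext
  rw [← iota_inv hι hκ a.2, h1, iota_inv hι hκ b.2]

/-- **Lifting theorem**: all but one of the leaf directions are compact. -/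
theorem lift_T {ρ ρ' : G →* (Eu m ≃ᵃ[ℝ] Eu m)} {T : Subgroup G} (hN : T.Normal)
    (hA : PD (affAct ρ)) (hC : CC (affAct ρ)) (hA' : PD (affAct ρ')) (hC' : CC (affAct ρ'))
    (hT : TransBy ρ T) (hT' : TransBy ρ' T)
    (π π' : Eu m →ᵃ[ℝ] Eu n) (hπ : Function.Surjective π) (hπ' : Function.Surjective π')
    (hTπ : ∀ t ∈ T, π.linear (ρ t 0) = 0) (hTπ' : ∀ t ∈ T, π'.linear (ρ' t 0) = 0)
    (hdim : m ≤ n + 1 + Module.finrank ℝ (tspan ρ T))
    (β β' : G → Eu n → Eu n)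
    (hα : ∀ (g : G) x, π (ρ g x) = β g (π x))
    (hα' : ∀ (g : G) x, π' (ρ' g x) = β' g (π' x))
    (h : Eu n → Eu n) (hh : ContDiff ℝ ∞ h)
    (he : ∀ (g : G) z, h (β g z) = β' g (h z)) :
    Function.Surjective h ∧
    (∀ K : Set (Eu n), IsCompact K → IsCompact (h ⁻¹' K)) ∧
    ∀ r : Eu n → Eu n, ContDiff ℝ ∞ r → (∀ z, r (h z) = z) → (∀ z, h (r z) = z) →
      ∃ F R : Eu m → Eu m, ContDiff ℝ ∞ F ∧ ContDiff ℝ ∞ R ∧
        (∀ x, R (F x) = x) ∧ (∀ x, F (R x) = x) ∧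
        (∀ x, π' (F x) = h (π x)) ∧ ∀ (g : G) x, F (ρ g x) = ρ' g (F x) := by
  have := hN
  obtain ⟨P⟩ := exists_part hA hC
  obtain ⟨P'⟩ := exists_part hA' hC'
  obtain ⟨ι, hι⟩ := exists_iota hT hT' (vsec_smooth P ρ' 0).continuous
    (fun g x => vsec_equi P ρ' 0 g x)
  obtain ⟨κ, hκ⟩ := exists_iota hT' hT (vsec_smooth P' ρ 0).continuous
    (fun g x => vsec_equi P' ρ 0 g x)
  have hfr : Module.finrank ℝ (tspan ρ T) = Module.finrank ℝ (tspan ρ' T) :=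
    le_antisymm (finrank_tspan_le hι hκ) (finrank_tspan_le hκ hι)
  have hle : Module.finrank ℝ (tspan ρ T) ≤ m := by
    have := Submodule.finrank_le (tspan ρ T)
    rwa [finrank_euclideanSpace_fin] at this
  obtain ⟨m₁, hm₁⟩ : ∃ m₁, Module.finrank ℝ (tspan ρ T) + m₁ = m :=
    ⟨m - Module.finrank ℝ (tspan ρ T), by omega⟩
  obtain ⟨p, σ, hpσ, hker⟩ := exists_quot_coord (tspan ρ T) hm₁
  obtain ⟨p', σ', hpσ', hker'⟩ := exists_quot_coord (tspan ρ' T) (m₁ := m₁) (by rw [← hfr, hm₁])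
  let Q : QData ρ T m₁ := ⟨p, σ, hpσ, hker, hT⟩
  let Q' : QData ρ' T m₁ := ⟨p', σ', hpσ', hker', hT'⟩
  have hWπ : ∀ w ∈ tspan ρ T, π.linear w = 0 := by
    have h1 : tspan ρ T ≤ LinearMap.ker π.linear := by
      refine Submodule.span_le.mpr ?_
      rintro _ ⟨t, ht, rfl⟩
      exact hTπ t ht
    exact fun w hw => h1 hw
  have hWπ' : ∀ w ∈ tspan ρ' T, π'.linear w = 0 := by
    have h1 : tspan ρ' T ≤ LinearMap.ker π'.linear := by
      refine Submodule.span_le.mpr ?_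
      rintro _ ⟨t, ht, rfl⟩
      exact hTπ' t ht
    exact fun w hw => h1 hw
  let π₁ : Eu m₁ →ᵃ[ℝ] Eu n := π.comp σ.toAffineMap
  let π₁' : Eu m₁ →ᵃ[ℝ] Eu n := π'.comp σ'.toAffineMap
  have hsplit : ∀ (f : Eu m →ᵃ[ℝ] Eu n) (x w : Eu m), f (x + w) = f x + f.linear w := by
    intro f x w
    have := f.map_vadd x w
    rw [vadd_eq_add, vadd_eq_add] at this
    rw [add_comm x w, this, add_comm]
  have hπ₁ : ∀ x, π₁ (p x) = π x := by
    intro x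
    change π (σ (p x)) = π x
    have h1 : x = σ (p x) + (x - σ (p x)) := by abel
    conv_rhs => rw [h1]
    rw [hsplit, hWπ _ (Q.rem_mem x), add_zero]
  have hπ₁' : ∀ x, π₁' (p' x) = π' x := by
    intro x
    change π' (σ' (p' x)) = π' x
    have h1 : x = σ' (p' x) + (x - σ' (p' x)) := by abel
    conv_rhs => rw [h1]
    rw [hsplit, hWπ' _ (Q'.rem_mem x), add_zero]
  have hs1 : Function.Surjective π₁ := fun z => by
    obtain ⟨x, hx⟩ := hπ z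
    exact ⟨p x, by rw [hπ₁, hx]⟩
  have hs1' : Function.Surjective π₁' := fun z => by
    obtain ⟨x, hx⟩ := hπ' z
    exact ⟨p' x, by rw [hπ₁', hx]⟩
  have hb : ∀ (q : G ⧸ T) y, π₁ (Q.hom q y) = β (Quotient.out q) (π₁ y) := by
    intro q y
    have h1 : (QuotientGroup.mk (Quotient.out q) : G ⧸ T) = q := Quotient.out_eq q
    conv_lhs => rw [← h1, Q.hom_mk']
    change π₁ (p (ρ (Quotient.out q) (σ y))) = _
    rw [hπ₁, hα]
    rfl
  have hb' : ∀ (q : G ⧸ T) y, π₁' (Q'.hom q y) = β' (Quotient.out q) (π₁' y) := by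
    intro q y
    have h1 : (QuotientGroup.mk (Quotient.out q) : G ⧸ T) = q := Quotient.out_eq q
    conv_lhs => rw [← h1, Q'.hom_mk']
    change π₁' (p' (ρ' (Quotient.out q) (σ' y))) = _
    rw [hπ₁', hα']
    rfl
  obtain ⟨⟨F₁, hF₁, hF₁p, hF₁e⟩, hprop, hlift⟩ := hom_affine_lift (G := G ⧸ T)
    (by omega : m₁ ≤ n + 1) (Q.pd hA) (Q.cc hC) (Q'.pd hA') (Q'.cc hC') π₁ π₁' hs1 hs1'
    (fun q => β (Quotient.out q)) (fun q => β' (Quotient.out q)) hb hb' h hh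
    (fun q z => he _ z)
  refine ⟨?_, hprop, ?_⟩
  · have h1 : Function.Surjective F₁ := surj_equi (Q'.pd hA') (Q'.cc hC') hF₁.continuous hF₁e
    intro z
    obtain ⟨y', hy'⟩ := hs1' z
    obtain ⟨y, rfl⟩ := h1 y'
    exact ⟨π₁ y, by rw [← hF₁p, hy']⟩
  · intro r hr hrh hhr
    obtain ⟨F₂, R₂, hF₂, hR₂, hRF, hFR, hF₂p, hF₂e⟩ := hlift r hr hrh hhr
    obtain ⟨F, R, hF, hR, h1, h2, h3, h4⟩ := exists_diffeo_T Q Q' hι hκ (Q.pd hA) (Q.cc hC)
      hF₂ hR₂ hRF hFR hF₂e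
    refine ⟨F, R, hF, hR, h1, h2, fun x => ?_, h4⟩
    have h5 : p' (F x) = F₂ (p x) := h3 x
    rw [← hπ₁', h5, hF₂p, hπ₁]

end

end Pool.Agent.AffRig
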