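import Pool.Agent.Lib.MP_27f33f_gt.Vec
import Pool.Agent.Lib.MP_27f33f_gt.PropDiff

/-!
# Stability of crystallographic lifts
-/

set_option autoImplicit false

namespace Pool.Agent.AffRig

open Filter Topology Set
open scoped ContDiff Manifold

noncomputable section

/-- A smooth bijection with injective derivatives is a diffeomorphism. -/
theorem exists_diffeo_of_bijective {E : Type*} [NormedAddCommGroup E] [NormedSpace ℝ E]
    [FiniteDimensional ℝ E] {f : E → E} (hf : ContDiff ℝ ∞ f)
    (hd : ∀ x, Function.Injective (fderiv ℝ f x)) (hb : Function.Bijective f) :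
    ∃ F : Diffeomorph 𝓘(ℝ, E) 𝓘(ℝ, E) E E ∞, ∀ x, F x = f x := by
  choose e he using fun x => exists_equiv_of_det_ne _ (hd x)
  have hst : ∀ x, HasStrictFDerivAt f (e x : E →L[ℝ] E) x := fun x => by
    rw [he]
    exact hf.contDiffAt.hasStrictFDerivAt (by simp)
  have hopen : IsOpenMap f := isOpenMap_of_hasStrictFDerivAt_equiv hst
  let H : E ≃ₜ E := (Equiv.ofBijective f hb).toHomeomorphOfContinuousOpen hf.continuous hopen
  have hsymm : ContDiff ℝ ∞ H.symm :=
    H.contDiff_symm (f₀' := e) (fun x => (hst x).hasFDerivAt) hf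
  exact ⟨{ toFun := f
           invFun := H.symm
           left_inv := fun x => H.symm_apply_apply x
           right_inv := fun x => H.apply_symm_apply x
           contMDiff_toFun := contMDiff_iff_contDiff.mpr hf
           contMDiff_invFun := contMDiff_iff_contDiff.mpr hsymm }, fun _ => rfl⟩

section transfer

variable {G X : Type*} [Group G] [NormedAddCommGroup X] [NormedSpace ℝ X] {A A' : SAct G X}

/-- Transfer of proper discontinuity and cocompactness through a conjugating diffeomorphism. -/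
theorem pd_cc_of_conj (hA : PD A) (hC : CC A) (U : Diffeomorph 𝓘(ℝ, X) 𝓘(ℝ, X) X X ∞)
    (hU : ∀ g x, U (A.f g x) = A'.f g (U x)) : PD A' ∧ CC A' := by
  have hc : Continuous U := U.continuous
  have hcs : Continuous U.symm := U.symm.continuous
  have hU' : ∀ g y, U.symm (A'.f g y) = A.f g (U.symm y) := by
    intro g y
    rw [← U.apply_symm_apply y, ← hU, U.symm_apply_apply, U.symm_apply_apply]
  refine ⟨?_, ?_⟩
  · intro K hK
    refine (hA (U.symm '' K) (hK.image hcs)).subset ?_
    rintro g ⟨y, ⟨x, hx, rfl⟩, hy⟩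
    refine ⟨U.symm (A'.f g x), ⟨U.symm x, ⟨x, hx, rfl⟩, (hU' g x).symm⟩, ⟨_, hy, rfl⟩⟩
  · obtain ⟨K, hK, hKc⟩ := hC
    refine ⟨U '' K, hK.image hc, fun y => ?_⟩
    obtain ⟨g, hg⟩ := hKc (U.symm y)
    refine ⟨g, ⟨_, hg, ?_⟩⟩
    rw [hU, U.apply_symm_apply]

end transfer

variable {H B F : Type*} [Group H] [NormedAddCommGroup B] [NormedSpace ℝ B]
  [NormedAddCommGroup F] [NormedSpace ℝ F]

/-- Linear representations. -/
structure LRep (H F : Type*) [Group H] [NormedAddCommGroup F] [NormedSpace ℝ F] where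
  /-- the operators -/
  r : H → F →L[ℝ] F
  one : ∀ v, r 1 v = v
  mul : ∀ g h v, r (g * h) v = r g (r h v)

/-- Smooth cocycles over an action, with values in a representation. -/
def IsCocy (α : SAct H B) (R : LRep H F) (l : H → B → F) : Prop :=
  (∀ g, ContDiff ℝ ∞ (l g)) ∧ ∀ g h z, l (g * h) z = R.r g (l h z) + l g (α.f h z)

lemma IsCocy.one {α : SAct H B} {R : LRep H F} {l : H → B → F} (h : IsCocy α R l) (z : B) :
    l 1 z = 0 := by
  have h1 := h.2 1 1 z
  rw [mul_one, R.one, α.one] at h1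
  have h2 : l 1 z + l 1 z = l 1 z + 0 := by rw [add_zero]; exact h1.symm
  exact add_left_cancel h2

lemma IsCocy.add_smul {α : SAct H B} {R : LRep H F} {l d : H → B → F} (h : IsCocy α R l)
    (hd : IsCocy α R d) (s : ℝ) : IsCocy α R (fun g z => l g z + s • d g z) := by
  refine ⟨fun g => (h.1 g).add (contDiff_const.smul (hd.1 g)), fun g k z => ?_⟩
  change l (g * k) z + s • d (g * k) z =
    R.r g (l k z + s • d k z) + (l g (α.f k z) + s • d g (α.f k z))
  rw [h.2, hd.2, map_add, map_smul, smul_add]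
  abel

/-- The action on the product determined by a cocycle. -/
def liftAct {α : SAct H B} {R : LRep H F} {l : H → B → F} (h : IsCocy α R l) :
    SAct H (B × F) where
  f := fun g x => (α.f g x.1, R.r g x.2 + l g x.1)
  one := fun x => by rw [α.one, R.one, h.one, add_zero]
  mul := fun g k x => by
    rw [α.mul, R.mul, h.2]
    refine Prod.ext rfl ?_
    change R.r g (R.r k x.2) + (R.r g (l k x.1) + l g (α.f k x.1)) =
      R.r g (R.r k x.2 + l k x.1) + l g (α.f k x.1)
    rw [map_add]
    abel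
  sm := fun g => ((α.sm g).comp contDiff_fst).prodMk
    (((R.r g).contDiff.comp contDiff_snd).add ((h.1 g).comp contDiff_fst))

variable [FiniteDimensional ℝ B] [FiniteDimensional ℝ F]

/-- The fibre derivative. -/
def fibD (w : B × F → F) (x : B × F) : F →L[ℝ] F :=
  (fderiv ℝ w x).comp (ContinuousLinearMap.inr ℝ B F)

omit [FiniteDimensional ℝ B] [FiniteDimensional ℝ F] in
lemma hasFDerivAt_fibre {w : B × F → F} (hw : ContDiff ℝ ∞ w) (z : B) (t : F) :
    HasFDerivAt (fun r => w (z, r)) (fibD w (z, t)) t := by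
  have h1 : HasFDerivAt (fun r : F => (z, r)) (ContinuousLinearMap.inr ℝ B F) t :=
    hasFDerivAt_prodMk_right z t
  exact ((hw.differentiable (by simp) (z, t)).hasFDerivAt).comp t h1

omit [FiniteDimensional ℝ B] [FiniteDimensional ℝ F] in
/-- The fibre derivative of an equivariant function is equivariant. -/
lemma fibD_equi {α : SAct H B} {R : LRep H F} {l d : H → B → F} (h : IsCocy α R l)
    {w : B × F → F} (hw : ContDiff ℝ ∞ w)
    (he : ∀ g x, w ((liftAct h).f g x) = R.r g (w x) + d g x.1) (g : H) (x : B × F) (v : F) :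
    fibD w ((liftAct h).f g x) (R.r g v) = R.r g (fibD w x v) := by
  obtain ⟨z, t⟩ := x
  have h1 : HasFDerivAt (fun r => w (α.f g z, R.r g r + l g z))
      ((fibD w ((liftAct h).f g (z, t))).comp (R.r g)) t := by
    have h2 : HasFDerivAt (fun r : F => R.r g r + l g z) (R.r g) t :=
      (R.r g).hasFDerivAt.add_const _
    exact (hasFDerivAt_fibre hw (α.f g z) (R.r g t + l g z)).comp t h2
  have h3 : HasFDerivAt (fun r => R.r g (w (z, r)) + d g z)
      ((R.r g).comp (fibD w (z, t))) t :=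
    ((R.r g).hasFDerivAt.comp t (hasFDerivAt_fibre hw z t)).add_const _
  have h4 : (fun r => w (α.f g z, R.r g r + l g z)) = fun r => R.r g (w (z, r)) + d g z := by
    funext r
    exact he g (z, r)
  rw [h4] at h1
  have h5 := h1.unique h3
  exact congrArg (fun L : F →L[ℝ] F => L v) h5

/-- **Stability.** If the linear part along the leaves is by similarities, small perturbations of
a crystallographic lift are crystallographic and smoothly conjugate to it. -/
theorem stab {α : SAct H B} {R : LRep H F} {l d : H → B → F}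
    (hsim : ∀ g, ∃ c : ℝ, 0 < c ∧ ∀ v, ‖R.r g v‖ = c * ‖v‖)
    (hl : IsCocy α R l) (hd : IsCocy α R d) (hA : PD (liftAct hl)) (hC : CC (liftAct hl)) :
    ∃ ε : ℝ, 0 < ε ∧ ∀ s : ℝ, |s| < ε →
      ∃ U : Diffeomorph 𝓘(ℝ, B × F) 𝓘(ℝ, B × F) (B × F) (B × F) ∞,
        (∀ x, (U x).1 = x.1) ∧
        ∀ g x, U ((liftAct hl).f g x) = (liftAct (hl.add_smul hd s)).f g (U x) := by
  obtain ⟨P⟩ := exists_part hA hC
  obtain ⟨K, hK, hKc⟩ := hC
  let C : VCoc (liftAct hl) F :=
    { c := R.r
      d := fun g x => d g x.1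
      cmul := R.mul
      dmul := fun g h x => hd.2 g h x.1
      dsm := fun g => (hd.1 g).comp contDiff_fst }
  let w : B × F → F := vavg P C 0
  have hw : ContDiff ℝ ∞ w := vavg_smooth P C 0
  have hwe : ∀ g x, w ((liftAct hl).f g x) = R.r g (w x) + d g x.1 := vavg_equi P C 0
  have hcont : Continuous (fun x => ‖fibD w x‖) := by
    refine continuous_norm.comp ?_
    exact (hw.continuous_fderiv (by simp)).clm_comp continuous_const
  obtain ⟨M, hM⟩ := hK.bddAbove_image hcont.continuousOn
  have hle : ∀ g x, ‖fibD w ((liftAct hl).f g x)‖ ≤ ‖fibD w x‖ := by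
    intro g x
    obtain ⟨c, hc, hcv⟩ := hsim g
    refine ContinuousLinearMap.opNorm_le_bound _ (norm_nonneg _) (fun u => ?_)
    have h1 : u = R.r g (R.r g⁻¹ u) := by rw [← R.mul, mul_inv_cancel, R.one]
    rw [h1, fibD_equi hl hw hwe, hcv, hcv]
    calc c * ‖fibD w x (R.r g⁻¹ u)‖ ≤ c * (‖fibD w x‖ * ‖R.r g⁻¹ u‖) :=
          mul_le_mul_of_nonneg_left ((fibD w x).le_opNorm _) hc.le
      _ = ‖fibD w x‖ * (c * ‖R.r g⁻¹ u‖) := by ring
  have hbd : ∀ x, ‖fibD w x‖ ≤ M := by
    intro x
    obtain ⟨g, hg⟩ := hKc x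
    have h1 := hle g⁻¹ ((liftAct hl).f g x)
    rw [(liftAct hl).inv_f] at h1
    exact h1.trans (hM ⟨_, hg, rfl⟩)
  have hM0 : 0 ≤ M := (norm_nonneg _).trans (hbd 0)
  refine ⟨(2 * (M + 1))⁻¹, by positivity, fun s hs => ?_⟩
  have hsM : |s| * M ≤ 1 / 2 := by
    have h1 : |s| * (2 * (M + 1)) < 1 := by
      have := mul_lt_mul_of_pos_right hs (show 0 < 2 * (M + 1) by positivity)
      rwa [inv_mul_cancel₀ (by positivity)] at this
    nlinarith [abs_nonneg s]
  have hsD : ∀ x, ‖s • fibD w x‖ ≤ 1 / 2 := fun x => by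
    rw [norm_smul, Real.norm_eq_abs]
    exact (mul_le_mul_of_nonneg_left (hbd x) (abs_nonneg s)).trans hsM
  have hlip : ∀ z, LipschitzWith (1 / 2) (fun t => s • w (z, t)) := by
    intro z
    refine lipschitzWith_of_nnnorm_fderiv_le (𝕜 := ℝ) ?_ ?_
    · intro t
      exact ((hasFDerivAt_fibre hw z t).const_smul s).differentiableAt
    · intro t
      have h1 : HasFDerivAt (fun t => s • w (z, t)) (s • fibD w (z, t)) t :=
        (hasFDerivAt_fibre hw z t).const_smul s
      rw [h1.fderiv]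
      have := hsD (z, t)
      rw [← NNReal.coe_le_coe]
      simpa using this
  let f : B × F → B × F := fun x => (x.1, x.2 + s • w x)
  have hf : ContDiff ℝ ∞ f := contDiff_fst.prodMk (contDiff_snd.add (contDiff_const.smul hw))
  have hinjF : ∀ z t t', t + s • w (z, t) = t' + s • w (z, t') → t = t' := by
    intro z t t' h
    have h1 := (hlip z).dist_le_mul t t'
    rw [dist_eq_norm, dist_eq_norm] at h1
    have h2 : s • w (z, t) - s • w (z, t') = -(t - t') := by
      have h3 : s • w (z, t) = t' + s • w (z, t') - t := by rw [← h]; abel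
      rw [h3]; abel
    rw [h2, norm_neg] at h1
    have h4 : ‖t - t'‖ ≤ 1 / 2 * ‖t - t'‖ := by simpa using h1
    have h5 : ‖t - t'‖ = 0 := by linarith [norm_nonneg (t - t')]
    exact sub_eq_zero.mp (norm_eq_zero.mp h5)
  have hsurjF : ∀ z y, ∃ t, t + s • w (z, t) = y := by
    intro z y
    have : CompleteSpace F := FiniteDimensional.complete ℝ F
    have hcon : ContractingWith (1 / 2) (fun t => y - s • w (z, t)) := by
      refine ⟨by norm_num, ?_⟩
      have h1 := hlip z
      refine LipschitzWith.of_dist_le_mul (fun t t' => ?_)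
      have h2 := h1.dist_le_mul t t'
      rw [dist_eq_norm] at h2 ⊢
      have h3 : y - s • w (z, t) - (y - s • w (z, t')) = -(s • w (z, t) - s • w (z, t')) := by abel
      rw [h3, norm_neg]
      exact h2
    obtain ⟨t, ht, -, -⟩ := hcon.exists_fixedPoint 0 (edist_ne_top _ _)
    refine ⟨t, ?_⟩
    have h1 : y - s • w (z, t) = t := ht
    rw [← h1]
    have h2 : w (z, y - s • w (z, t)) = w (z, t) := by rw [h1]
    rw [h2]
    abel
  have hb : Function.Bijective f := by
    refine ⟨?_, ?_⟩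
    · rintro ⟨z, t⟩ ⟨z', t'⟩ h
      have h1 : z = z' := congrArg Prod.fst h
      subst h1
      have h2 : t + s • w (z, t) = t' + s • w (z, t') := congrArg Prod.snd h
      rw [hinjF z t t' h2]
    · rintro ⟨z, y⟩
      obtain ⟨t, ht⟩ := hsurjF z y
      exact ⟨(z, t), Prod.ext rfl ht⟩
  have hfd : ∀ x, Function.Injective (fderiv ℝ f x) := by
    intro x
    have h1 : HasFDerivAt f ((ContinuousLinearMap.fst ℝ B F).prod
        (ContinuousLinearMap.snd ℝ B F + s • fderiv ℝ w x)) x := by
      refine HasFDerivAt.prodMk hasFDerivAt_fst (hasFDerivAt_snd.add ?_)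
      exact ((hw.differentiable (by simp) x).hasFDerivAt).const_smul s
    rw [h1.fderiv]
    rw [injective_iff_map_eq_zero]
    rintro ⟨vB, vF⟩ hv
    have h2 : vB = 0 := congrArg Prod.fst hv
    have h3 : vF + s • fderiv ℝ w x (vB, vF) = 0 := congrArg Prod.snd hv
    subst h2
    have h4 : fderiv ℝ w x (0, vF) = fibD w x vF := rfl
    rw [h4] at h3
    have h5 : ‖vF‖ ≤ 1 / 2 * ‖vF‖ := by
      have h6 : vF = -((s • fibD w x) vF) := eq_neg_of_add_eq_zero_left h3
      calc ‖vF‖ = ‖(s • fibD w x) vF‖ := by conv_lhs => rw [h6, norm_neg]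
        _ ≤ ‖s • fibD w x‖ * ‖vF‖ := (s • fibD w x).le_opNorm vF
        _ ≤ 1 / 2 * ‖vF‖ := mul_le_mul_of_nonneg_right (hsD x) (norm_nonneg _)
    have h7 : ‖vF‖ = 0 := by linarith [norm_nonneg vF]
    rw [norm_eq_zero.mp h7]
    rfl
  obtain ⟨U, hU⟩ := exists_diffeo_of_bijective hf hfd hb
  refine ⟨U, fun x => by rw [hU], fun g x => ?_⟩
  rw [hU, hU]
  refine Prod.ext rfl ?_
  change (R.r g x.2 + l g x.1) + s • w ((liftAct hl).f g x) =
    R.r g (x.2 + s • w x) + (l g x.1 + s • d g x.1)
  rw [hwe, map_add, map_smul, smul_add]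
  abel

end

end Pool.Agent.AffRig
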