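import Mathlib

/-!
# Definitions used in the statements for MP_27f33f_gt
-/

set_option autoImplicit false
open scoped ContDiff

namespace Pool.Agent.AffCryst

noncomputable section

/-! ### Maps between real normed spaces -/

section General

variable {E F : Type} [NormedAddCommGroup E] [NormedSpace ℝ E] [NormedAddCommGroup F]
  [NormedSpace ℝ F]

/-- The affine automorphisms of `E`. -/
def AffOf (E : Type) [NormedAddCommGroup E] [NormedSpace ℝ E] : Type := E ≃ᵃ[ℝ] E

/-- They form a group. -/
instance AffOf.group (E : Type) [NormedAddCommGroup E] [NormedSpace ℝ E] : Group (AffOf E) :=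
  AffineEquiv.group

/-- The map given by an affine automorphism. -/
def AffOf.map (g : AffOf E) : E → E :=
  let e : E ≃ᵃ[ℝ] E := g
  e

/-- Affine maps. -/
def IsAffine (f : E → F) : Prop := ∃ a : E →ᵃ[ℝ] F, ∀ x, f x = a x

/-- Linear maps onto `F` with kernel `W`. -/
def IsLinOnto (W : Submodule ℝ E) (f : E → F) : Prop :=
  ∃ a : E →ₗ[ℝ] F, (∀ x, f x = a x) ∧ Function.Surjective a ∧ ∀ x, a x = 0 ↔ x ∈ W

/-- `f` is a `C^∞` diffeomorphism. -/
def IsDiffeo (f : E → F) : Prop :=
  ContDiff ℝ ∞ f ∧ ∃ g : F → E, ContDiff ℝ ∞ g ∧ (∀ x, g (f x) = x) ∧ ∀ y, f (g y) = y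

/-- `f` is a `C^∞` immersion. -/
def IsImmersion (f : E → F) : Prop := ContDiff ℝ ∞ f ∧ ∀ x, Function.Injective (fderiv ℝ f x)

/-- Absolute value of the Jacobian determinant at the origin. -/
def absJac (f : E → E) : ℝ := |(fderiv ℝ f 0).det|

end General

/-! ### Affine actions on Euclidean spaces -/

/-- Euclidean space `ℝⁿ`. -/
abbrev V (n : ℕ) : Type := EuclideanSpace ℝ (Fin n)

/-- Polynomial maps `ℝⁿ → ℝⁿ`. -/
def IsPoly {n : ℕ} (p : V n → V n) : Prop :=
  ∃ P : Fin n → MvPolynomial (Fin n) ℝ, ∀ z i, p z i = MvPolynomial.eval (fun j => z j) (P i)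

/-- The affine group of `ℝⁿ`. -/
def Aff (n : ℕ) : Type := AffOf (V n)

instance Aff.group (n : ℕ) : Group (Aff n) := AffOf.group (V n)

variable {G : Type} [Group G] {m n : ℕ}

/-- The action on `ℝⁿ` of a group `G` through a homomorphism `ρ : G → Aff(ℝⁿ)`. -/
def act (ρ : G →* Aff n) (g : G) : V n → V n := AffOf.map (ρ g)

/-- Crystallographic actions: properly discontinuous and cocompact. -/
structure IsCryst (ρ : G →* Aff m) : Prop where
  proper : ∀ K : Set (V m), IsCompact K → {g : G | (act ρ g '' K ∩ K).Nonempty}.Finite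
  cocompact : ∃ K : Set (V m), IsCompact K ∧ ∀ x, ∃ g, act ρ g x ∈ K

/-- `π` is an affine map onto `ℝⁿ` whose fibres are permuted by the action `ρ`, and `α` is the
induced affine action on `ℝⁿ`. -/
structure Fibred (ρ : G →* Aff m) (π : V m → V n) (α : G →* Aff n) : Prop where
  affine : IsAffine π
  surj : Function.Surjective π
  equi : ∀ g x, π (act ρ g x) = act α g (π x)

/-- The translation vectors of the elements of `T` which act by translations. -/
def transVecs (ρ : G →* Aff m) (T : Subgroup G) : Set (V m) :=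
  {v | ∃ t ∈ T, ∀ x, act ρ t x = x + v}

/-- Their real span. -/
def transSpan (ρ : G →* Aff m) (T : Subgroup G) : Submodule ℝ (V m) :=
  Submodule.span ℝ (transVecs ρ T)

/-- The dimension of the span. -/
def transDim (ρ : G →* Aff m) (T : Subgroup G) : ℕ := Module.finrank ℝ (transSpan ρ T)

/-- Every element of `T` acts by a translation. -/
def TransAct (ρ : G →* Aff m) (T : Subgroup G) : Prop :=
  ∀ t ∈ T, ∃ v : V m, ∀ x, act ρ t x = x + v

/-- Every element of `T` acts by a translation along the fibres of the affine map `π`. -/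
def TransAlong (ρ : G →* Aff m) (T : Subgroup G) (π : V m → V n) : Prop :=
  ∀ t ∈ T, ∃ v : V m, ∀ x, act ρ t x = x + v ∧ π (x + v) = π x

/-- `p` is a coarse intertwiner of the actions `α` and `β` of the subgroup `G₀`: it is at bounded
distance from a map (not assumed continuous) which intertwines them exactly. -/
def CoarseInt (α β : G →* Aff n) (G₀ : Subgroup G) (p : V n → V n) : Prop :=
  ∃ q : V n → V n, (∀ g ∈ G₀, ∀ z, q (act α g z) = act β g (q z)) ∧ ∃ C : ℝ, ∀ z, ‖q z - p z‖ ≤ C

/-- `pr : ℝᵐ → ℝⁿ` is a trivial smooth line fibration modulo the linear subspace `W`: it is the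
composition of a linear map onto `ℝ^(n+1)` with kernel `W`, of a diffeomorphism
`ℝ^(n+1) → ℝⁿ × ℝ` and of the projection to `ℝⁿ`. -/
def LineProj (W : Submodule ℝ (V m)) (pr : V m → V n) : Prop :=
  ∃ (p : V m → V (n + 1)) (Ψ : V (n + 1) → V n × ℝ),
    IsLinOnto W p ∧ IsDiffeo Ψ ∧ ∀ x, pr x = (Ψ (p x)).1

/-- `T` acts by translations, `pr` is a trivial smooth line fibration modulo the span of these
translations, its fibres are permuted by `G`, and `α` is the induced action on the leaf space
`ℝⁿ`. -/
structure LineFib (ρ : G →* Aff m) (T : Subgroup G) (pr : V m → V n) (α : G → V n → V n) :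
    Prop where
  trans : TransAct ρ T
  triv : LineProj (transSpan ρ T) pr
  equi : ∀ g x, pr (act ρ g x) = α g (pr x)

end

end Pool.Agent.AffCryst
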