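import Pool.Agent.Lib.MP_27f33f_gt.SubForm
import Pool.Agent.Lib.MP_27f33f_gt.Stm

/-!
# From the definitions of the statements to those of the proofs
-/

set_option autoImplicit false
open scoped ContDiff Manifold

namespace Pool.Agent.AffCryst

open AffRig

variable {G : Type} [Group G] {m n : ℕ}

lemma IsCryst.pd {ρ : G →* Aff m} (h : IsCryst ρ) : PD (affAct ρ) := h.proper

lemma IsCryst.cc {ρ : G →* Aff m} (h : IsCryst ρ) : CC (affAct ρ) := h.cocompact

lemma absJac_eq (g : V n ≃ᵃ[ℝ] V n) : absJac (AffOf.map (E := V n) g) =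
    |LinearMap.det (g.linear : V n →ₗ[ℝ] V n)| := by
  have h1 : AffOf.map (E := V n) g = fun x => LinearMap.toContinuousLinearMap (g.linear : V n →ₗ[ℝ] V n) x
      + g 0 := by
    funext x
    have := AffineMap.decomp' (g : V n →ᵃ[ℝ] V n)
    change (g : V n →ᵃ[ℝ] V n) x = (g : V n →ᵃ[ℝ] V n).linear x + (g : V n →ᵃ[ℝ] V n) 0
    rw [this]
    simp
  have h2 : HasFDerivAt (AffOf.map (E := V n) g)
      (LinearMap.toContinuousLinearMap (g.linear : V n →ₗ[ℝ] V n)) 0 := by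
    rw [h1]
    exact (ContinuousLinearMap.hasFDerivAt _).add_const _
  unfold absJac
  rw [h2.fderiv]
  rfl

lemma tspan_eq' {ρ : G →* Aff m} {T : Subgroup G} (h : TransBy (m := m) ρ T) :
    tspan (m := m) ρ T = Submodule.span ℝ {v : V m | ∃ t ∈ T, ∀ x, act ρ t x = x + v} :=
  tspan_eq (m := m) (ρ := ρ) h

lemma stm_LP {ρ ρ' : G →* Aff m} (h1 : IsCryst ρ) (h2 : IsCryst ρ')
    {π π' : V m → V n} {α β : G →* Aff n} (h5 : Fibred ρ π α) (h6 : Fibred ρ' π' β)
    {T : Subgroup G} (h9 : T.Normal) (h10 : TransAlong ρ T π) (h11 : TransAlong ρ' T π')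
    (h12 : m ≤ n + 1 + transDim ρ T)
    {G₀ : Subgroup G} {p : V n → V n} (h13 : G₀.FiniteIndex) (h14 : IsPoly p)
    (h15 : CoarseInt α β G₀ p)
    (h16 : IsAffine p ∨ (∀ g ∈ G₀, absJac (act α g) = absJac (act β g)) ∨
        ∃ (G₁ : Subgroup G) (s : V n → V n), G₁.FiniteIndex ∧ IsPoly s ∧ CoarseInt β α G₁ s) :
    ∃ (q : V n → V n) (f : V m → V m), IsPoly q ∧ IsDiffeo q ∧ IsDiffeo f ∧
        (∀ g z, q (act α g z) = act β g (q z)) ∧ (∀ x, π' (f x) = q (π x)) ∧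
        ∀ g x, f (act ρ g x) = act ρ' g (f x) := by
  obtain ⟨a, ha⟩ := h5.affine
  obtain ⟨a', ha'⟩ := h6.affine
  obtain rfl : π = a := funext ha
  obtain rfl : π' = a' := funext ha'
  have hT : ∀ {σ : G →* Aff m} {b : V m →ᵃ[ℝ] V n}, TransAlong σ T b →
      TransBy σ T ∧ ∀ t ∈ T, b.linear (act σ t 0) = 0 := by
    intro σ b h
    have hv : ∀ t ∈ T, ∀ x, act σ t x = x + act σ t 0 ∧ b (x + act σ t 0) = b x := by
      intro t ht x
      obtain ⟨v, hv⟩ := h t ht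
      have h0 : act σ t 0 = v := by rw [(hv 0).1, zero_add]
      rw [h0]
      exact hv x
    refine ⟨fun t ht x => (hv t ht x).1, fun t ht => ?_⟩
    have h3 := (hv t ht 0).2
    rw [zero_add] at h3
    have h4 := AffineMap.linearMap_vsub b (act σ t 0) 0
    simp only [vsub_eq_sub, sub_zero] at h4
    rw [h4, h3, sub_self]
  have hts : tspan (G := G) ρ T = transSpan ρ T := by
    unfold transSpan transVecs
    exact tspan_eq' (hT h10).1
  obtain ⟨q₀, h17, C, hC⟩ := h15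
  obtain ⟨q, r, hq, hr, e1, e2, e3, F, R, hF, hR, e4, e5, e6, e7⟩ := main_LP (G := G) (ρ := ρ)
    (ρ' := ρ') h9 h1.pd h1.cc h2.pd h2.cc (hT h10).1 (hT h11).1 a a' h5.surj h6.surj (hT h10).2
    (hT h11).2 (by rw [hts]; exact h12) α β h5.equi h6.equi h13 h17 h14 hC (by
      rcases h16 with h | h | ⟨G₁, s, hf, hs, r₀, hr, hC⟩
      · exact Or.inl h
      · refine Or.inr (Or.inl (fun g hg => ?_))
        exact (absJac_eq (n := n) (α g)).symm.trans ((h g hg).trans (absJac_eq (n := n) (β g)))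
      · exact Or.inr (Or.inr ⟨G₁, hf, r₀, s, hr, hs, hC⟩))
  exact ⟨q, F, hq, ⟨hq.contDiff, r, hr, e1, e2⟩, ⟨hF, R, hR, e4, e5⟩, e3, e6, e7⟩

end Pool.Agent.AffCryst
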