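import Pool.Agent.Lib.MP_27f33f_gt.StmLP

/-!
# The smooth statement in terms of the definitions of the statements
-/

set_option autoImplicit false
open scoped ContDiff Manifold

namespace Pool.Agent.AffCryst

open AffRig

variable {G : Type} [Group G] {m n : ℕ}

lemma IsDiffeo.toDiffeo {E F : Type} [NormedAddCommGroup E] [NormedSpace ℝ E]
    [NormedAddCommGroup F] [NormedSpace ℝ F] {f : E → F} (h : IsDiffeo f) :
    ∃ Φ : Diffeomorph 𝓘(ℝ, E) 𝓘(ℝ, F) E F ∞, ∀ x, Φ x = f x := by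
  obtain ⟨h1, g, h2, h3, h4⟩ := h
  exact ⟨{ toFun := f
           invFun := g
           left_inv := h3
           right_inv := h4
           contMDiff_toFun := contMDiff_iff_contDiff.mpr h1
           contMDiff_invFun := contMDiff_iff_contDiff.mpr h2 }, fun _ => rfl⟩

lemma stm_sm {ρ ρ' : G →* Aff m} (h1 : IsCryst ρ) (h2 : IsCryst ρ')
    {T : Subgroup G} (h3 : T.Normal) {pr pr' : V m → V n} {α β : G → V n → V n}
    (h4 : LineFib ρ T pr α) (h5 : LineFib ρ' T pr' β)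
    {h : V n → V n} (h67 : IsImmersion h)
    (h8 : ∀ g z, h (α g z) = β g (h z)) :
    Function.Bijective h ∧ ∃ f : V m → V m, IsDiffeo f ∧ (∀ x, pr' (f x) = h (pr x)) ∧
      ∀ g x, f (act ρ g x) = act ρ' g (f x) := by
  obtain ⟨h6, h7⟩ := h67
  obtain ⟨p₀, Ψ₀, ⟨p, a0, a1, a2⟩, a3, a4⟩ := h4.triv
  obtain ⟨p₀', Ψ₀', ⟨p', b0, b1, b2⟩, b3, b4⟩ := h5.triv
  obtain ⟨Ψ, hΨ⟩ := a3.toDiffeo
  obtain ⟨Ψ', hΨ'⟩ := b3.toDiffeo
  have hT : TransBy (m := m) ρ T := fun t ht x => by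
    obtain ⟨v, hv⟩ := h4.trans t ht
    have h0 : act ρ t 0 = v := by rw [hv 0, zero_add]
    change act ρ t x = x + act ρ t 0
    rw [h0, hv]
  have hT' : TransBy (m := m) ρ' T := fun t ht x => by
    obtain ⟨v, hv⟩ := h5.trans t ht
    have h0 : act ρ' t 0 = v := by rw [hv 0, zero_add]
    change act ρ' t x = x + act ρ' t 0
    rw [h0, hv]
  have e1 : ∀ x, pr x = (Ψ (p x)).1 := fun x => by rw [a4, a0, hΨ]
  have e2 : ∀ x, pr' x = (Ψ' (p' x)).1 := fun x => by rw [b4, b0, hΨ']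
  obtain ⟨c1, F, R, c2, c3, c4, c5, c6, c7⟩ := main_smooth (G := G) (ρ := ρ) (ρ' := ρ') h3 h1.pd
    h1.cc h2.pd h2.cc hT hT' p p' a1 b1
    (fun x => by rw [a2]; unfold transSpan transVecs; rw [← tspan_eq' hT])
    (fun x => by rw [b2]; unfold transSpan transVecs; rw [← tspan_eq' hT'])
    Ψ Ψ' α β (fun g x => by rw [← e1, ← e1]; exact h4.equi g x)
    (fun g x => by rw [← e2, ← e2]; exact h5.equi g x) h h6 h7 h8
  exact ⟨c1, F, ⟨c2, R, c3, c4, c5⟩, fun x => by rw [e1, e2, c6], c7⟩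

end Pool.Agent.AffCryst
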