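import Pool.Agent.Lib.MP_27f33f_gt.MainLP
import Pool.Agent.Lib.MP_27f33f_gt.MainSm

/-!
# The main theorems for subgroups of the affine group
-/

set_option autoImplicit false

namespace Pool.Agent.AffRig

open Filter Topology Set MeasureTheory
open scoped ContDiff Manifold

noncomputable section

variable {m n : ℕ} {Γ Γ' : Subgroup (Eu m ≃ᵃ[ℝ] Eu m)}

/-- The two homomorphisms of `Γ`. -/
def r1 (Γ : Subgroup (Eu m ≃ᵃ[ℝ] Eu m)) : Γ →* (Eu m ≃ᵃ[ℝ] Eu m) := Γ.subtype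

/-- The second homomorphism. -/
def r2 (φ : Γ ≃* Γ') : Γ →* (Eu m ≃ᵃ[ℝ] Eu m) := Γ'.subtype.comp φ.toMonoidHom

lemma r2_inj (φ : Γ ≃* Γ') : Function.Injective (r2 φ) :=
  Subtype.coe_injective.comp φ.injective

lemma pd1 (h : PDA Γ) : PD (affAct (r1 Γ)) := pd_affAct Subtype.coe_injective h (fun g => g.2)

lemma cc1 (h : CCA Γ) : CC (affAct (r1 Γ)) := cc_affAct h (fun g hg => ⟨⟨g, hg⟩, rfl⟩)

lemma pd2 (φ : Γ ≃* Γ') (h : PDA Γ') : PD (affAct (r2 φ)) :=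
  pd_affAct (r2_inj φ) h (fun g => (φ g).2)

lemma cc2 (φ : Γ ≃* Γ') (h : CCA Γ') : CC (affAct (r2 φ)) :=
  cc_affAct h (fun g hg => ⟨φ.symm ⟨g, hg⟩, by
    change ((φ (φ.symm ⟨g, hg⟩) : Γ') : Eu m ≃ᵃ[ℝ] Eu m) = g
    rw [φ.apply_symm_apply]⟩)

lemma transBy_of {G : Type*} [Group G] {ρ : G →* (Eu m ≃ᵃ[ℝ] Eu m)} {T : Subgroup G}
    (h : ∀ t ∈ T, ∃ v : Eu m, ∀ x, ρ t x = x + v) : TransBy ρ T := by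
  intro t ht x
  obtain ⟨v, hv⟩ := h t ht
  rw [hv, hv 0, zero_add]

lemma tspan_eq {G : Type*} [Group G] {ρ : G →* (Eu m ≃ᵃ[ℝ] Eu m)} {T : Subgroup G}
    (h : TransBy ρ T) :
    tspan ρ T = Submodule.span ℝ {v : Eu m | ∃ t ∈ T, ∀ x, ρ t x = x + v} := by
  unfold tspan
  congr 1
  ext v
  constructor
  · rintro ⟨t, ht, rfl⟩
    exact ⟨t, ht, fun x => h t ht x⟩
  · rintro ⟨t, ht, hv⟩
    exact ⟨t, ht, by rw [hv 0, zero_add]⟩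

/-- A diffeomorphism from a pair of mutually inverse smooth maps. -/
def mkDiffeo {k : ℕ} (F R : Eu k → Eu k) (hF : ContDiff ℝ ∞ F) (hR : ContDiff ℝ ∞ R)
    (h1 : ∀ x, R (F x) = x) (h2 : ∀ x, F (R x) = x) :
    Diffeomorph 𝓘(ℝ, Eu k) 𝓘(ℝ, Eu k) (Eu k) (Eu k) ∞ where
  toFun := F
  invFun := R
  left_inv := h1
  right_inv := h2
  contMDiff_toFun := contMDiff_iff_contDiff.mpr hF
  contMDiff_invFun := contMDiff_iff_contDiff.mpr hR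

/-- Coarse virtual polynomial intertwiners. -/
theorem sub_LP (hp : PDA Γ) (hc : CCA Γ) (hp' : PDA Γ') (hc' : CCA Γ') (φ : Γ ≃* Γ')
    (π π' : Eu m →ᵃ[ℝ] Eu n) (hπ : Function.Surjective π) (hπ' : Function.Surjective π')
    (α : Γ →* (Eu n ≃ᵃ[ℝ] Eu n)) (α' : Γ' →* (Eu n ≃ᵃ[ℝ] Eu n))
    (hα : ∀ (g : Γ) x, π ((g : Eu m ≃ᵃ[ℝ] Eu m) x) = α g (π x))
    (hα' : ∀ (g : Γ') x, π' ((g : Eu m ≃ᵃ[ℝ] Eu m) x) = α' g (π' x))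
    (T : Subgroup Γ) (hN : T.Normal)
    (hT : ∀ t ∈ T, ∃ v : Eu m, π.linear v = 0 ∧ ∀ x, (t : Eu m ≃ᵃ[ℝ] Eu m) x = x + v)
    (hT' : ∀ t ∈ T, ∃ v : Eu m, π'.linear v = 0 ∧
      ∀ x, ((φ t : Γ') : Eu m ≃ᵃ[ℝ] Eu m) x = x + v)
    (hdim : m ≤ n + 1 + Module.finrank ℝ (Submodule.span ℝ
      {v : Eu m | ∃ t ∈ T, ∀ x, (t : Eu m ≃ᵃ[ℝ] Eu m) x = x + v}))
    (Γ₀ : Subgroup Γ) (hfin : Γ₀.FiniteIndex) (q₀ p : Eu n → Eu n)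
    (he : ∀ g ∈ Γ₀, ∀ z, q₀ (α g z) = α' (φ g) (q₀ z))
    (hpol : ∃ P : Fin n → MvPolynomial (Fin n) ℝ,
      ∀ z i, p z i = MvPolynomial.eval (fun j => z j) (P i))
    (hbd : ∃ C : ℝ, ∀ z, ‖q₀ z - p z‖ ≤ C)
    (halt : (∃ a : Eu n →ᵃ[ℝ] Eu n, ∀ z, p z = a z) ∨
      (∀ g ∈ Γ₀, |LinearMap.det ((α g).linear : Eu n →ₗ[ℝ] Eu n)| =
        |LinearMap.det ((α' (φ g)).linear : Eu n →ₗ[ℝ] Eu n)|) ∨
      (∃ Γ₁ : Subgroup Γ, Γ₁.FiniteIndex ∧ ∃ r₀ s : Eu n → Eu n,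
        (∀ g ∈ Γ₁, ∀ z, r₀ (α' (φ g) z) = α g (r₀ z)) ∧
        (∃ S : Fin n → MvPolynomial (Fin n) ℝ,
          ∀ z i, s z i = MvPolynomial.eval (fun j => z j) (S i)) ∧
        ∃ C : ℝ, ∀ z, ‖r₀ z - s z‖ ≤ C)) :
    ∃ q : Diffeomorph 𝓘(ℝ, Eu n) 𝓘(ℝ, Eu n) (Eu n) (Eu n) ∞,
      (∃ Q : Fin n → MvPolynomial (Fin n) ℝ,
        ∀ z i, q z i = MvPolynomial.eval (fun j => z j) (Q i)) ∧
      (∀ (g : Γ) z, q (α g z) = α' (φ g) (q z)) ∧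
      ∃ f : Diffeomorph 𝓘(ℝ, Eu m) 𝓘(ℝ, Eu m) (Eu m) (Eu m) ∞,
        (∀ x, π' (f x) = q (π x)) ∧
        ∀ (g : Γ) x, f ((g : Eu m ≃ᵃ[ℝ] Eu m) x) = ((φ g : Γ') : Eu m ≃ᵃ[ℝ] Eu m) (f x) := by
  have hTb : TransBy (r1 Γ) T := transBy_of (fun t ht => by
    obtain ⟨v, -, hv⟩ := hT t ht
    exact ⟨v, hv⟩)
  have hTb' : TransBy (r2 φ) T := transBy_of (fun t ht => by
    obtain ⟨v, -, hv⟩ := hT' t ht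
    exact ⟨v, hv⟩)
  have hdim2 : m ≤ n + 1 + Module.finrank ℝ (tspan (r1 Γ) T) := by
    rw [tspan_eq hTb]
    exact hdim
  obtain ⟨C, hC⟩ := hbd
  obtain ⟨q, r, hq, hr, h1, h2, h3, F, R, hF, hR, h4, h5, h6, h7⟩ := main_LP hN (pd1 hp) (cc1 hc)
    (pd2 φ hp') (cc2 φ hc') hTb hTb' π π' hπ hπ' (fun t ht => by
      obtain ⟨v, hv1, hv⟩ := hT t ht
      have : r1 Γ t 0 = v := by
        change (t : Eu m ≃ᵃ[ℝ] Eu m) 0 = v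
        rw [hv, zero_add]
      rw [this, hv1]) (fun t ht => by
      obtain ⟨v, hv1, hv⟩ := hT' t ht
      have : r2 φ t 0 = v := by
        change ((φ t : Γ') : Eu m ≃ᵃ[ℝ] Eu m) 0 = v
        rw [hv, zero_add]
      rw [this, hv1]) hdim2 α (α'.comp φ.toMonoidHom) hα (fun g x => hα' (φ g) x) hfin he hpol hC
    (by
      rcases halt with h | h | ⟨Γ₁, hf, r₀, s, h1, h2, h3⟩
      · exact Or.inl h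
      · exact Or.inr (Or.inl h)
      · exact Or.inr (Or.inr ⟨Γ₁, hf, r₀, s, h1, h2, h3⟩))
  exact ⟨mkDiffeo q r hq.contDiff hr h1 h2, hq, h3, mkDiffeo F R hF hR h4 h5, h6, h7⟩

/-- Smooth transverse rigidity. -/
theorem sub_smooth (hp : PDA Γ) (hc : CCA Γ) (hp' : PDA Γ') (hc' : CCA Γ') (φ : Γ ≃* Γ')
    (T : Subgroup Γ) (hN : T.Normal)
    (hT : ∀ t ∈ T, ∃ v : Eu m, ∀ x, (t : Eu m ≃ᵃ[ℝ] Eu m) x = x + v)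
    (hT' : ∀ t ∈ T, ∃ v : Eu m, ∀ x, ((φ t : Γ') : Eu m ≃ᵃ[ℝ] Eu m) x = x + v)
    (p p' : Eu m →ₗ[ℝ] Eu (n + 1)) (hps : Function.Surjective p) (hps' : Function.Surjective p')
    (hk : ∀ x, p x = 0 ↔ x ∈ Submodule.span ℝ
      {v : Eu m | ∃ t ∈ T, ∀ x, (t : Eu m ≃ᵃ[ℝ] Eu m) x = x + v})
    (hk' : ∀ x, p' x = 0 ↔ x ∈ Submodule.span ℝ
      {v : Eu m | ∃ t ∈ T, ∀ x, ((φ t : Γ') : Eu m ≃ᵃ[ℝ] Eu m) x = x + v})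
    (Ψ Ψ' : Diffeomorph 𝓘(ℝ, Eu (n + 1)) 𝓘(ℝ, Eu n × ℝ) (Eu (n + 1)) (Eu n × ℝ) ∞)
    (α : Γ → Eu n → Eu n) (α' : Γ' → Eu n → Eu n)
    (hα : ∀ (g : Γ) x, (Ψ (p ((g : Eu m ≃ᵃ[ℝ] Eu m) x))).1 = α g (Ψ (p x)).1)
    (hα' : ∀ (g : Γ') x, (Ψ' (p' ((g : Eu m ≃ᵃ[ℝ] Eu m) x))).1 = α' g (Ψ' (p' x)).1)
    (h : Eu n → Eu n) (hh : ContDiff ℝ ∞ h) (hi : ∀ z, Function.Injective (fderiv ℝ h z))
    (he : ∀ (g : Γ) z, h (α g z) = α' (φ g) (h z)) :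
    Function.Bijective h ∧
      ∃ f : Diffeomorph 𝓘(ℝ, Eu m) 𝓘(ℝ, Eu m) (Eu m) (Eu m) ∞,
        (∀ x, (Ψ' (p' (f x))).1 = h (Ψ (p x)).1) ∧
        ∀ (g : Γ) x, f ((g : Eu m ≃ᵃ[ℝ] Eu m) x) = ((φ g : Γ') : Eu m ≃ᵃ[ℝ] Eu m) (f x) := by
  have hTb : TransBy (r1 Γ) T := transBy_of hT
  have hTb' : TransBy (r2 φ) T := transBy_of hT'
  obtain ⟨h1, F, R, hF, hR, h4, h5, h6, h7⟩ := main_smooth hN (pd1 hp) (cc1 hc)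
    (pd2 φ hp') (cc2 φ hc') hTb hTb' p p' hps hps' (fun x => by rw [hk, tspan_eq hTb]; rfl)
    (fun x => by rw [hk', tspan_eq hTb']; rfl) Ψ Ψ' (fun g => α g) (fun g => α' (φ g)) hα
    (fun g x => hα' (φ g) x) h hh hi he
  exact ⟨h1, mkDiffeo F R hF hR h4 h5, h6, h7⟩

end

end Pool.Agent.AffRig
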