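import Pool.Agent.Lib.MP_27f33f_gt.Act

/-!
# Averaged equivariant sections of vector valued affine cocycles
-/

set_option autoImplicit false

namespace Pool.Agent.AffRig

open Filter Topology Set
open scoped ContDiff

noncomputable section

variable {G X F : Type*} [Group G] [NormedAddCommGroup X] [NormedSpace ℝ X]
  [NormedAddCommGroup F] [NormedSpace ℝ F]

/-- An affine cocycle with values in a vector space. -/
structure VCoc (A : SAct G X) (F : Type*) [NormedAddCommGroup F] [NormedSpace ℝ F] where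
  /-- linear part -/
  c : G → F →L[ℝ] F
  /-- translation part -/
  d : G → X → F
  cmul : ∀ g h y, c (g * h) y = c g (c h y)
  dmul : ∀ g h x, d (g * h) x = c g (d h x) + d g (A.f h x)
  dsm : ∀ g, ContDiff ℝ ∞ (d g)

/-- The averaged equivariant section. -/
def vavg {A : SAct G X} (P : Part A) (C : VCoc A F) (y : F) (x : X) : F :=
  ∑ᶠ g, P.w (A.f g x) • (C.c g⁻¹ y + C.d g⁻¹ (A.f g x))

theorem vavg_smooth {A : SAct G X} (P : Part A) (C : VCoc A F) (y : F) :
    ContDiff ℝ ∞ (vavg P C y) := by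
  refine contDiff_finsum_loc (fun g => ?_) ?_
  · exact (P.sm.comp (A.sm g)).smul (contDiff_const.add ((C.dsm g⁻¹).comp (A.sm g)))
  · refine P.loc.subset ?_
    intro g x hx hx2
    apply hx
    have : P.w (A.f g x) = 0 := hx2
    change P.w (A.f g x) • _ = 0
    rw [this, zero_smul]

theorem vavg_equi {A : SAct G X} (P : Part A) (C : VCoc A F) (y : F) (h : G) (x : X) :
    vavg P C y (A.f h x) = C.c h (vavg P C y x) + C.d h x := by
  have hfs : (Function.support fun g => P.w (A.f g x)).Finite := by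
    refine (P.loc.point_finite x).subset ?_
    intro g hg
    exact hg
  have hfin : ∀ u : G → F, (Function.support fun k => P.w (A.f k x) • u k).Finite := fun u =>
    hfs.subset (by
      intro k hk hk2
      apply hk
      have : P.w (A.f k x) = 0 := hk2
      change P.w (A.f k x) • _ = 0
      rw [this, zero_smul])
  have e1 : vavg P C y (A.f h x) =
      ∑ᶠ k, (P.w (A.f k x) • C.c h (C.c k⁻¹ y + C.d k⁻¹ (A.f k x)) +
        P.w (A.f k x) • C.d h x) := by
    unfold vavg
    rw [← finsum_comp_equiv (Equiv.mulRight h)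
      (f := fun k => (P.w (A.f k x) • C.c h (C.c k⁻¹ y + C.d k⁻¹ (A.f k x)) +
        P.w (A.f k x) • C.d h x))]
    apply finsum_congr
    intro g
    change P.w (A.f g (A.f h x)) • (C.c g⁻¹ y + C.d g⁻¹ (A.f g (A.f h x))) =
      (P.w (A.f (g * h) x) • C.c h (C.c (g * h)⁻¹ y + C.d (g * h)⁻¹ (A.f (g * h) x)) +
        P.w (A.f (g * h) x) • C.d h x)
    rw [A.mul g h x, ← smul_add]
    congr 1
    have e2 : g⁻¹ = h * (g * h)⁻¹ := by group
    have e3 : C.c g⁻¹ y = C.c h (C.c (g * h)⁻¹ y) := by rw [← C.cmul, ← e2]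
    have e4 : C.d g⁻¹ (A.f g (A.f h x)) =
        C.c h (C.d (g * h)⁻¹ (A.f g (A.f h x))) + C.d h x := by
      conv_lhs => rw [e2]
      rw [C.dmul]
      congr 2
      rw [← A.mul g h x, A.inv_f]
    rw [e3, e4, map_add]
    abel
  rw [e1, finsum_add_distrib (hfin _) (hfin _), ← finsum_smul, P.sum, one_smul]
  congr 1
  unfold vavg
  have h3 := ((C.c h : F →ₗ[ℝ] F).toAddMonoidHom).map_finsum
    (hfin (fun k => C.c k⁻¹ y + C.d k⁻¹ (A.f k x)))
  have h4 : ∀ k, P.w (A.f k x) • C.c h (C.c k⁻¹ y + C.d k⁻¹ (A.f k x)) =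
      C.c h (P.w (A.f k x) • (C.c k⁻¹ y + C.d k⁻¹ (A.f k x))) := fun k =>
    (map_smul _ _ _).symm
  rw [finsum_congr h4]
  exact h3.symm

end

end Pool.Agent.AffRig
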